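import Pool.Agent.W_2411c4_h59.Basic

/-! Mixed cuts: `ed G U T` is the number of edges from `U` to the complement of `U ∪ T`. -/

set_option autoImplicit false

namespace Pool.Agent.W2411si

open Pool.Agent.W2411c4

variable {Q : Type}

open Gr

/-- the edge `e` leaves `U` and does not end in `T` -/
def Lv (G : Gr Q) (U T : Finset ℕ) (e : ℕ) : Prop :=
  (G.a e ∈ U ∧ G.b e ∉ U ∧ G.b e ∉ T) ∨ (G.b e ∈ U ∧ G.a e ∉ U ∧ G.a e ∉ T)

instance (G : Gr Q) (U T : Finset ℕ) (e : ℕ) : Decidable (Lv G U T e) := by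
  unfold Lv; infer_instance

/-- edges from `U` to the complement of `U ∪ T` -/
def ebd (G : Gr Q) (U T : Finset ℕ) : Finset ℕ := G.E.filter fun e => Lv G U T e

/-- number of edges from `U` to the complement of `U ∪ T` -/
def ed (G : Gr Q) (U T : Finset ℕ) : ℕ := (ebd G U T).card

/-- in `G - T` every set which contains `W` and not `u` is left by at least `θ` edges -/
def Lam (G : Gr Q) (T W : Finset ℕ) (u θ : ℕ) : Prop :=
  ∀ U : Finset ℕ, W ⊆ U → u ∉ U → Disjoint U T → θ ≤ ed G U T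

/-- the fat stars of Lemma 1 -/
def Star (G : Gr Q) (t z : ℕ) (S : Finset ℕ) : Prop :=
  z ∉ S ∧ S.card = t ∧ ∀ b ∈ S, Lam G (S.erase b) {z} b (t * t)

/-- no fat star with `t` leaves and all its vertices in `B` -/
def SF (G : Gr Q) (B : Finset ℕ) (t : ℕ) : Prop := ∀ z ∈ B, ∀ S ⊆ B, ¬ Star G t z S

/-- `B` is pairwise `M`-edge-connected in `G` -/
def Bk (G : Gr Q) (B : Finset ℕ) (M : ℕ) : Prop :=
  ∀ x ∈ B, ∀ y ∈ B, x ≠ y → ∀ U : Finset ℕ, x ∈ U → y ∉ U → M ≤ G.d U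

/-- the constants -/
def cM0 (t : ℕ) : ℕ := 2 ^ t * (t * t)

def cd (t : ℕ) : ℕ := cM0 t + t

def cm0 (t : ℕ) : ℕ := 2 * cd t * t

def cm1 (t : ℕ) : ℕ := cm0 t * cm0 t + cm0 t

def ck (t : ℕ) : ℕ := 2 * cm0 t + 2 * (cm0 t * cm1 t)

/-- all vertices which are ends of edges -/
def vs (G : Gr Q) : Finset ℕ := G.E.image G.a ∪ G.E.image G.b

theorem mem_ebd {G : Gr Q} {U T : Finset ℕ} {e : ℕ} : e ∈ ebd G U T ↔ e ∈ G.E ∧ Lv G U T e := by
  simp [ebd]

theorem lv_iff {G : Gr Q} {U T : Finset ℕ} {e : ℕ} :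
    Lv G U T e ↔ ∃ p q, p ∈ U ∧ q ∉ U ∧ q ∉ T ∧ G.Inc e p ∧ G.Inc e q := by
  unfold Lv Gr.Inc
  constructor
  · rintro (⟨h1, h2, h3⟩ | ⟨h1, h2, h3⟩)
    · exact ⟨_, _, h1, h2, h3, Or.inl rfl, Or.inr rfl⟩
    · exact ⟨_, _, h1, h2, h3, Or.inr rfl, Or.inl rfl⟩
  · rintro ⟨p, q, h1, h2, h3, rfl | rfl, rfl | rfl⟩
    · exact absurd h1 h2
    · exact Or.inl ⟨h1, h2, h3⟩
    · exact Or.inr ⟨h1, h2, h3⟩
    · exact absurd h1 h2

theorem Lv.mono {G : Gr Q} {U T T' : Finset ℕ} {e : ℕ} (h : T ⊆ T') (he : Lv G U T' e) :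
    Lv G U T e := by
  unfold Lv at *
  rcases he with ⟨h1, h2, h3⟩ | ⟨h1, h2, h3⟩
  · exact Or.inl ⟨h1, h2, fun h' => h3 (h h')⟩
  · exact Or.inr ⟨h1, h2, fun h' => h3 (h h')⟩

theorem ed_mono {G : Gr Q} {U T T' : Finset ℕ} (h : T ⊆ T') : ed G U T' ≤ ed G U T := by
  apply Finset.card_le_card
  intro e he
  rw [mem_ebd] at he ⊢
  exact ⟨he.1, he.2.mono h⟩

theorem ed_empty {G : Gr Q} {U : Finset ℕ} : ed G U ∅ = G.d U := by
  unfold ed ebd Gr.d Gr.bd
  congr 1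
  apply Finset.filter_congr
  intro e _
  unfold Lv Gr.Cross
  simp only [Finset.notMem_empty, not_false_eq_true, and_true]
  tauto

theorem ed_eq_sum (G : Gr Q) (U T : Finset ℕ) :
    ed G U T = ∑ e ∈ G.E, if Lv G U T e then 1 else 0 := by
  unfold ed ebd
  rw [Finset.card_filter]

/-- submodularity of mixed cuts -/
theorem ed_sub {G : Gr Q} {U T U' T' T1 T2 : Finset ℕ}
    (h1 : ∀ v, v ∈ U ∪ T → v ∈ U' ∪ T' → v ∈ (U ∩ U') ∪ T1)
    (h2 : ∀ v, v ∈ T ∪ T' → v ∈ (U ∪ U') ∪ T2) :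
    ed G (U ∩ U') T1 + ed G (U ∪ U') T2 ≤ ed G U T + ed G U' T' := by
  classical
  simp only [ed_eq_sum, ← Finset.sum_add_distrib]
  apply Finset.sum_le_sum
  intro e _
  have a1 := h1 (G.a e)
  have a2 := h2 (G.a e)
  have b1 := h1 (G.b e)
  have b2 := h2 (G.b e)
  simp only [Finset.mem_inter, Finset.mem_union] at a1 a2 b1 b2
  unfold Lv
  simp only [Finset.mem_inter, Finset.mem_union]
  by_cases x1 : G.a e ∈ U <;> by_cases x2 : G.a e ∈ U' <;> by_cases x3 : G.b e ∈ U <;>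
    by_cases x4 : G.b e ∈ U' <;> simp only [x1, x2, x3, x4, true_and, false_and, and_true, and_false,
      true_or, false_or, or_true, or_false, not_true_eq_false, not_false_eq_true, true_imp_iff,
      false_imp_iff, imp_true_iff] at a1 a2 b1 b2 ⊢ <;>
    (repeat' split_ifs) <;> first | omega | (exfalso; tauto)

/-- posimodularity in `G - A` -/
theorem ed_pos {G : Gr Q} {X Y A : Finset ℕ} (hX : Disjoint X A) (hY : Disjoint Y A) :
    ed G (X \ Y) A + ed G (Y \ X) A ≤ ed G X A + ed G Y A := by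
  classical
  simp only [ed_eq_sum, ← Finset.sum_add_distrib]
  apply Finset.sum_le_sum
  intro e _
  have a1 : G.a e ∈ X → G.a e ∉ A := fun h h' => Finset.disjoint_left.1 hX h h'
  have a2 : G.a e ∈ Y → G.a e ∉ A := fun h h' => Finset.disjoint_left.1 hY h h'
  have b1 : G.b e ∈ X → G.b e ∉ A := fun h h' => Finset.disjoint_left.1 hX h h'
  have b2 : G.b e ∈ Y → G.b e ∉ A := fun h h' => Finset.disjoint_left.1 hY h h'
  unfold Lv
  simp only [Finset.mem_sdiff]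
  by_cases x1 : G.a e ∈ X <;> by_cases x2 : G.a e ∈ Y <;> by_cases x3 : G.b e ∈ X <;>
    by_cases x4 : G.b e ∈ Y <;> by_cases x5 : G.a e ∈ A <;> by_cases x6 : G.b e ∈ A <;>
      simp only [x1, x2, x3, x4, x5, x6, true_and, false_and, and_true, and_false,
      true_or, false_or, or_true, or_false, not_true_eq_false, not_false_eq_true, true_imp_iff,
      false_imp_iff, imp_true_iff, if_true, if_false] at a1 a2 b1 b2 ⊢ <;> omega

/-- the cut seen from the other side -/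
theorem ed_compl {G : Gr Q} {V0 U T : Finset ℕ} (hV : vs G ⊆ V0) (hUT : Disjoint U T) :
    ed G (V0 \ (U ∪ T)) T = ed G U T := by
  classical
  unfold ed ebd
  congr 1
  apply Finset.filter_congr
  intro e he
  have ha : G.a e ∈ V0 := hV (Finset.mem_union_left _ (Finset.mem_image_of_mem _ he))
  have hb : G.b e ∈ V0 := hV (Finset.mem_union_right _ (Finset.mem_image_of_mem _ he))
  have a1 : G.a e ∈ U → G.a e ∉ T := fun h h' => Finset.disjoint_left.1 hUT h h'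
  have b1 : G.b e ∈ U → G.b e ∉ T := fun h h' => Finset.disjoint_left.1 hUT h h'
  unfold Lv
  simp only [Finset.mem_sdiff, Finset.mem_union, ha, hb, true_and]
  tauto

theorem Lam.symm {G : Gr Q} {T : Finset ℕ} {x y θ : ℕ} (hx : x ∉ T) (h : Lam G T {x} y θ) :
    x ≠ y → Lam G T {y} x θ := by
  classical
  intro hxy U hU hxU hUT
  have hyU : y ∈ U := hU (Finset.mem_singleton_self _)
  let V0 : Finset ℕ := insert x (vs G ∪ U)
  have hV : vs G ⊆ V0 := fun v hv => Finset.mem_insert_of_mem (Finset.mem_union_left _ hv)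
  rw [← ed_compl hV hUT]
  apply h
  · intro v hv
    rw [Finset.mem_singleton.1 hv, Finset.mem_sdiff, Finset.mem_union]
    exact ⟨Finset.mem_insert_self _ _, by tauto⟩
  · rw [Finset.mem_sdiff, Finset.mem_union]
    tauto
  · rw [Finset.disjoint_left]
    intro v hv hvT
    exact (Finset.mem_sdiff.1 hv).2 (Finset.mem_union_right _ hvT)

theorem Bk.lam {G : Gr Q} {B : Finset ℕ} {M : ℕ} (h : Bk G B M) {x y θ : ℕ} (hx : x ∈ B) (hy : y ∈ B)
    (hxy : x ≠ y) (hθ : θ ≤ M) : Lam G ∅ {x} y θ := by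
  intro U hU hyU _
  rw [ed_empty]
  exact hθ.trans (h x hx y hy hxy U (hU (Finset.mem_singleton_self _)) hyU)

theorem sq_le_cM0 (t : ℕ) : t * t ≤ cM0 t := by
  unfold cM0
  exact Nat.le_mul_of_pos_left _ (by positivity)

theorem sq_le_cm0 (t : ℕ) : t * t ≤ cm0 t := by
  have h := sq_le_cM0 t
  unfold cm0 cd
  nlinarith [Nat.zero_le t, Nat.zero_le (cM0 t), Nat.mul_le_mul_right t (Nat.le_add_left t (cM0 t))]

end Pool.Agent.W2411si
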