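import Mathlib

/-! Graphs in which connected sets have few neighbours: all but boundedly many vertices have
degree 2 (pure graph theory).

Proof. Among the connected spanning subgraphs `T ≤ F` (finitely many, `Finite (SimpleGraph V)`; `F`
itself is one) choose one with the greatest number of leaves (vertices of `T`-degree 1), and among
these one with the least number of edges. Then `T` is a tree: an edge which is not a bridge could be
deleted, all leaves stay leaves (the edge at a leaf is a bridge). 
(1) `T` has fewer than `t` leaves: otherwise take a set `S` of `t` leaves and `z ∉ S` (`t < card V`);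
for `b ∈ S` the `T`-path from `z` to `b` has no leaf as inner vertex, so it avoids `S` up to its end,
against `hN`.
(2) Let `Lf` be the set of leaves, `Br` the set of vertices of `T`-degree at least 3. As the sum of the
degrees is `2 (card V - 1)` and all degrees are at least 1 (`1 < card V`), `Br.card ≤ Lf.card` and
the sum of the `T`-degrees over `Br` is at most `3 * Lf.card`.
(3) `A := Lf ∪ N_F(Lf) ∪ Br ∪ N_T(Br)`, at most `t + t * D + t + 3 * t` vertices, nonempty.
(4) Let `v ∉ A`; its `T`-degree is 2. Suppose its `F`-degree is not 2; then there is `y` with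
`F.Adj v y`, not `T.Adj v y`, and `y ∉ Lf`. Let `p` be the second vertex of the `T`-path from `v` to
`y`; `p ≠ y`; `p` is not a leaf (the path goes on) and not in `Br`, so it has `T`-degree 2. The graph
`T' := T + vy - vp` is connected (the rest of the path connects `p` and `y` in `T - vp`), `T' ≤ F`, all
leaves of `T` are leaves of `T'` and `p` is a new leaf: contradiction. -/

set_option autoImplicit false

namespace Pool.Agent.W2411si

theorem degtwo_path {V : Type} (F T : SimpleGraph V) [Fintype V] [DecidableEq V]
    [DecidableRel T.Adj] (hTF : T ≤ F) (S : Finset V) (hS : ∀ v ∈ S, T.degree v ≤ 1) {a b : V}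
    (w : T.Walk a b) (hw : w.IsPath) :
    Relation.ReflTransGen (fun p q => F.Adj p q ∧ (q ∉ S ∨ q = b)) a b := by
  induction w with
  | nil => exact Relation.ReflTransGen.refl
  | @cons a c b h w ih =>
    have hw' := (SimpleGraph.Walk.cons_isPath_iff h w).1 hw
    refine Relation.ReflTransGen.head ⟨hTF h, ?_⟩ (ih hw'.1)
    by_cases hcb : c = b
    · exact Or.inr hcb
    · left
      intro hcS
      cases w with
      | nil => exact hcb rfl
      | @cons _ d _ h' w' =>
        have h1 : a ≠ d := by
          rintro rfl
          apply hw'.2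
          rw [SimpleGraph.Walk.support_cons]
          exact List.mem_cons_of_mem _ w'.start_mem_support
        have h2 : ({a, d} : Finset V) ⊆ T.neighborFinset c := by
          intro x hx
          rw [SimpleGraph.mem_neighborFinset]
          rcases Finset.mem_insert.1 hx with h3 | h3
          · rw [h3]
            exact h.symm
          · rw [Finset.mem_singleton.1 h3]
            exact h'
        have h3 := Finset.card_le_card h2
        rw [Finset.card_pair h1, SimpleGraph.card_neighborFinset_eq_degree] at h3
        have := hS c hcS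
        omega

theorem degtwo_sum {V : Type} [Fintype V] [DecidableEq V] (T : SimpleGraph V)
    [DecidableRel T.Adj] (hT : T.IsTree) (hpos : ∀ v, 1 ≤ T.degree v) :
    ∑ v ∈ Finset.univ.filter (fun v => 3 ≤ T.degree v), (T.degree v - 2) + 2 =
      (Finset.univ.filter (fun v => T.degree v = 1)).card := by
  have h1 := hT.card_edgeFinset
  have h2 := T.sum_degrees_eq_twice_card_edges
  have h3 : ∑ v, (2 + (if 3 ≤ T.degree v then (T.degree v - 2) else 0)) =
      ∑ v, (T.degree v + (if T.degree v = 1 then 1 else 0)) := by
    refine Finset.sum_congr rfl (fun v _ => ?_)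
    have := hpos v
    split_ifs <;> omega
  rw [Finset.sum_add_distrib, Finset.sum_add_distrib, ← Finset.sum_filter, ← Finset.sum_filter,
    ← Finset.card_eq_sum_ones, Finset.sum_const, Finset.card_univ, smul_eq_mul] at h3
  omega

theorem degtwo_reach {V : Type} (T T' : SimpleGraph V) (v : V)
    (h : ∀ a b, T.Adj a b → a ≠ v → b ≠ v → T'.Adj a b) {a b : V} (w : T.Walk a b)
    (hw : v ∉ w.support) : T'.Reachable a b := by
  induction w with
  | nil => exact SimpleGraph.Reachable.refl _
  | @cons a c b h1 w ih =>
    rw [SimpleGraph.Walk.support_cons, List.mem_cons, not_or] at hw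
    have h2 : c ≠ v := by
      rintro rfl
      exact hw.2 w.start_mem_support
    exact (h a c h1 (Ne.symm hw.1) h2).reachable.trans (ih hw.2)

theorem degtwo_conn {V : Type} (T T' : SimpleGraph V) (hT : T.Connected)
    (h : ∀ a b, T.Adj a b → T'.Reachable a b) : T'.Connected := by
  have := hT.nonempty
  refine ⟨fun a b => ?_⟩
  obtain ⟨w⟩ := hT a b
  induction w with
  | nil => exact SimpleGraph.Reachable.refl _
  | cons h1 w ih => exact (h _ _ h1).trans ih

open Classical in
/-- the leaves -/
noncomputable def degtwo_lf {V : Type} [Fintype V] (T : SimpleGraph V) : Finset V :=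
  Finset.univ.filter (fun v => T.degree v = 1)

theorem degtwo_mem {V : Type} [Fintype V] (T : SimpleGraph V) [DecidableRel T.Adj] (v : V) :
    v ∈ degtwo_lf T ↔ T.degree v = 1 := by
  have hd : ∀ i₁ i₂ : Fintype (T.neighborSet v),
      @SimpleGraph.degree V T v i₁ = @SimpleGraph.degree V T v i₂ := fun i₁ i₂ => by
    rw [Subsingleton.elim i₁ i₂]
  unfold degtwo_lf
  rw [Finset.mem_filter, and_iff_right (Finset.mem_univ _)]
  exact ⟨fun h => (hd _ _).trans h, fun h => (hd _ _).trans h⟩

/-- the exchange -/
theorem degtwo_exch {V : Type} [Fintype V] [DecidableEq V] (T : SimpleGraph V)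
    [DecidableRel T.Adj] (hT : T.IsTree) (hnt : Nontrivial V) {v y p : V} (hv : T.degree v = 2)
    (hp : T.degree p = 2) (hy : T.degree y ≠ 1) (hvy : v ≠ y) (hvp : T.Adj v p)
    (hpy0 : p ≠ y) (w : T.Walk p y) (hw : v ∉ w.support) :
    ∃ T'' : SimpleGraph V, T'' ≤ T ⊔ SimpleGraph.edge v y ∧ T''.IsTree ∧
      (degtwo_lf T).card < (degtwo_lf T'').card := by
  classical
  obtain ⟨T', hT'⟩ : ∃ T' : SimpleGraph V,
      T' = T.deleteEdges {s(v, p)} ⊔ SimpleGraph.edge v y := ⟨_, rfl⟩
  have hadj : ∀ a b, T'.Adj a b ↔ (T.Adj a b ∧ ¬ ((a = v ∧ b = p) ∨ (a = p ∧ b = v))) ∨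
      ((v = a ∧ y = b ∨ v = b ∧ y = a) ∧ a ≠ b) := by
    intro a b
    rw [hT', SimpleGraph.sup_adj, SimpleGraph.edge_adj, SimpleGraph.deleteEdges_adj,
      Set.mem_singleton_iff, Sym2.eq_iff]
    tauto
  have hle : T' ≤ T ⊔ SimpleGraph.edge v y := by
    rw [hT']
    exact sup_le_sup_right (SimpleGraph.deleteEdges_le _) _
  have hpy : T'.Reachable p y := by
    refine degtwo_reach T T' v ?_ w hw
    intro a b h1 h2 h3
    rw [hadj]
    left
    exact ⟨h1, by tauto⟩
  have hvy' : T'.Adj v y := by
    rw [hadj]
    right
    exact ⟨Or.inl ⟨rfl, rfl⟩, hvy⟩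
  have hvp' : T'.Reachable v p := hvy'.reachable.trans hpy.symm
  have hconn : T'.Connected := by
    refine degtwo_conn T T' hT.connected ?_
    intro a b h1
    by_cases h2 : (a = v ∧ b = p) ∨ (a = p ∧ b = v)
    · rcases h2 with ⟨h3, h4⟩ | ⟨h3, h4⟩
      · rw [h3, h4]
        exact hvp'
      · rw [h3, h4]
        exact hvp'.symm
    · have h3 : T'.Adj a b := (hadj a b).2 (Or.inl ⟨h1, h2⟩)
      exact h3.reachable
  obtain ⟨T'', h1, h2⟩ := hconn.exists_isTree_le
  refine ⟨T'', h1.trans hle, h2, ?_⟩
  have hpos : ∀ u, 1 ≤ T''.degree u := fun u =>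
    h2.connected.preconnected.degree_pos_of_nontrivial u
  have hp1 : p ∉ degtwo_lf T := by
    rw [degtwo_mem]
    omega
  have hpv : p ≠ v := hvp.ne'
  have hsub : insert p (degtwo_lf T) ⊆ degtwo_lf T'' := by
    intro u hu
    rw [degtwo_mem]
    have h3 : T''.degree u ≤ T'.degree u := SimpleGraph.degree_le_of_le h1
    have h4 : T'.degree u ≤ 1 := by
      rcases Finset.mem_insert.1 hu with h5 | h5
      · subst h5
        have h6 : T'.neighborFinset u ⊆ (T.neighborFinset u).erase v := by
          intro x hx
          rw [SimpleGraph.mem_neighborFinset, hadj] at hx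
          rw [Finset.mem_erase, SimpleGraph.mem_neighborFinset]
          rcases hx with ⟨h7, h8⟩ | ⟨h7, h8⟩
          · exact ⟨fun h9 => h8 (Or.inr ⟨rfl, h9⟩), h7⟩
          · exfalso
            rcases h7 with ⟨h9, _⟩ | ⟨h9, h10⟩
            · exact hpv h9.symm
            · exact hpy0 h10.symm
        have h7 := Finset.card_le_card h6
        rw [Finset.card_erase_of_mem (by rw [SimpleGraph.mem_neighborFinset]; exact hvp.symm),
          SimpleGraph.card_neighborFinset_eq_degree, SimpleGraph.card_neighborFinset_eq_degree,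
          hp] at h7
        exact h7
      · rw [degtwo_mem] at h5
        have huv : u ≠ v := by
          rintro rfl
          omega
        have hup : u ≠ p := by
          rintro rfl
          omega
        have huy : u ≠ y := by
          rintro rfl
          exact hy h5
        have h6 : T'.neighborFinset u ⊆ T.neighborFinset u := by
          intro x hx
          rw [SimpleGraph.mem_neighborFinset, hadj] at hx
          rw [SimpleGraph.mem_neighborFinset]
          rcases hx with ⟨h7, _⟩ | ⟨⟨h7, _⟩ | ⟨_, h7⟩, _⟩
          · exact h7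
          · exact absurd h7.symm huv
          · exact absurd h7.symm huy
        have h7 := Finset.card_le_card h6
        rw [SimpleGraph.card_neighborFinset_eq_degree,
          SimpleGraph.card_neighborFinset_eq_degree, h5] at h7
        exact h7
    have := hpos u
    omega
  have h3 := Finset.card_le_card hsub
  rw [Finset.card_insert_of_notMem hp1] at h3
  omega

theorem deg_two {V : Type} [Fintype V] [DecidableEq V] (F : SimpleGraph V) [DecidableRel F.Adj]
    (t D : ℕ) (hc : F.Connected) (hD : ∀ v, F.degree v ≤ D) (hV : t < Fintype.card V)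
    (hN : ∀ (S : Finset V) (z : V), z ∉ S → S.card = t →
      ∃ b ∈ S, ¬ Relation.ReflTransGen (fun p q => F.Adj p q ∧ (q ∉ S ∨ q = b)) z b) :
    ∃ A : Finset V, A.Nonempty ∧ A.card ≤ t * (D + 5) ∧ ∀ v, v ∉ A → F.degree v = 2 := by
  classical
  have hne : Nonempty V := hc.nonempty
  have ht : 1 ≤ t := by
    by_contra h
    obtain ⟨z⟩ := hne
    obtain ⟨b, hb, -⟩ := hN ∅ z (Finset.notMem_empty _) (by rw [Finset.card_empty]; omega)
    exact absurd hb (Finset.notMem_empty _)
  have hnt : Nontrivial V := Fintype.one_lt_card_iff_nontrivial.1 (by omega)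
  obtain ⟨T, ⟨hTF, hT⟩, hmax⟩ := Set.exists_max_image {T : SimpleGraph V | T ≤ F ∧ T.IsTree}
    (fun T => (degtwo_lf T).card) (Set.toFinite _) (by
      obtain ⟨T, h1, h2⟩ := hc.exists_isTree_le
      exact ⟨T, h1, h2⟩)
  have hpos : ∀ v, 1 ≤ T.degree v := fun v =>
    hT.connected.preconnected.degree_pos_of_nontrivial v
  have hsum := degtwo_sum T hT hpos
  have elf : degtwo_lf T = Finset.univ.filter (fun v => T.degree v = 1) := by
    ext v
    rw [degtwo_mem, Finset.mem_filter, and_iff_right (Finset.mem_univ _)]
  rw [← elf] at hsum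
  obtain ⟨Br, hBr⟩ : ∃ Br : Finset V, Br = Finset.univ.filter (fun v => 3 ≤ T.degree v) :=
    ⟨_, rfl⟩
  have hBrm : ∀ v, v ∈ Br ↔ 3 ≤ T.degree v := by
    intro v
    rw [hBr, Finset.mem_filter, and_iff_right (Finset.mem_univ _)]
  rw [← hBr] at hsum
  -- fewer than `t` leaves
  have hLf : (degtwo_lf T).card < t := by
    by_contra hcon
    push Not at hcon
    obtain ⟨S, hSL, hSc⟩ := Finset.exists_subset_card_eq hcon
    obtain ⟨z, hz⟩ : ∃ z, z ∉ S := by
      by_contra h
      push Not at h
      have h1 : S = Finset.univ := Finset.eq_univ_iff_forall.2 h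
      rw [h1, Finset.card_univ] at hSc
      omega
    obtain ⟨b, hb, hnb⟩ := hN S z hz hSc
    obtain ⟨w⟩ := hT.connected z b
    exact hnb (degtwo_path F T hTF S (fun v hv => le_of_eq ((degtwo_mem T v).1 (hSL hv)))
      w.bypass w.bypass_isPath)
  -- counting
  have hB1 : Br.card ≤ ∑ v ∈ Br, (T.degree v - 2) := by
    rw [Finset.card_eq_sum_ones]
    refine Finset.sum_le_sum (fun v hv => ?_)
    have := (hBrm v).1 hv
    omega
  have hB2 : ∑ v ∈ Br, T.degree v ≤ 3 * ∑ v ∈ Br, (T.degree v - 2) := by
    rw [Finset.mul_sum]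
    refine Finset.sum_le_sum (fun v hv => ?_)
    have := (hBrm v).1 hv
    omega
  obtain ⟨A, hA⟩ : ∃ A : Finset V, A = (degtwo_lf T ∪ (degtwo_lf T).biUnion (fun x => F.neighborFinset x)) ∪
      (Br ∪ Br.biUnion (fun x => T.neighborFinset x)) := ⟨_, rfl⟩
  refine ⟨A, ?_, ?_, ?_⟩
  · have h1 : 0 < (degtwo_lf T).card := by omega
    obtain ⟨x, hx⟩ := Finset.card_pos.1 h1
    exact ⟨x, by rw [hA]; exact Finset.mem_union_left _ (Finset.mem_union_left _ hx)⟩
  · have h1 : ((degtwo_lf T).biUnion (fun x => F.neighborFinset x)).card ≤ (degtwo_lf T).card * D :=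
      Finset.card_biUnion_le_card_mul _ _ _ (fun v _ => hD v)
    have h2 : (Br.biUnion (fun x => T.neighborFinset x)).card ≤ ∑ v ∈ Br, T.degree v :=
      Finset.card_biUnion_le
    have h3 := Finset.card_union_le (degtwo_lf T ∪ (degtwo_lf T).biUnion (fun x => F.neighborFinset x))
      (Br ∪ Br.biUnion (fun x => T.neighborFinset x))
    have h4 := Finset.card_union_le (degtwo_lf T) ((degtwo_lf T).biUnion (fun x => F.neighborFinset x))
    have h5 := Finset.card_union_le Br (Br.biUnion (fun x => T.neighborFinset x))
    rw [← hA] at h3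
    have h6 : (degtwo_lf T).card * D ≤ t * D := Nat.mul_le_mul_right _ hLf.le
    have h7 : t * (D + 5) = t * D + 5 * t := by ring
    rw [h7]
    omega
  · intro v hv
    by_contra hvd
    rw [hA] at hv
    simp only [Finset.mem_union, not_or, Finset.mem_biUnion, not_exists, not_and] at hv
    obtain ⟨⟨hv1, hv2⟩, hv3, hv4⟩ := hv
    have hv1' : T.degree v ≠ 1 := fun h => hv1 ((degtwo_mem T v).2 h)
    have hv3' : ¬ 3 ≤ T.degree v := fun h => hv3 ((hBrm v).2 h)
    have hT2 : T.degree v = 2 := by
      have := hpos v
      omega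
    have hsub : T.neighborFinset v ⊆ F.neighborFinset v := by
      intro x hx
      rw [SimpleGraph.mem_neighborFinset] at hx ⊢
      exact hTF hx
    obtain ⟨y, hyF, hyT⟩ : ∃ y, F.Adj v y ∧ ¬ T.Adj v y := by
      by_contra h
      push Not at h
      apply hvd
      have h1 : F.neighborFinset v ⊆ T.neighborFinset v := by
        intro x hx
        rw [SimpleGraph.mem_neighborFinset] at hx ⊢
        exact h x hx
      have h2 := Finset.Subset.antisymm hsub h1
      have h3 := congrArg Finset.card h2
      rw [SimpleGraph.card_neighborFinset_eq_degree,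
        SimpleGraph.card_neighborFinset_eq_degree] at h3
      omega
    have hvy : v ≠ y := hyF.ne
    have hyL : T.degree y ≠ 1 := by
      intro h
      apply hv2 y ((degtwo_mem T y).2 h)
      rw [SimpleGraph.mem_neighborFinset]
      exact hyF.symm
    obtain ⟨w0⟩ := hT.connected v y
    obtain ⟨w1, hw1⟩ : ∃ w1 : T.Walk v y, w1.IsPath := ⟨w0.bypass, w0.bypass_isPath⟩
    cases w1 with
    | nil => exact hvy rfl
    | @cons _ p _ hvp w =>
      have hw := (SimpleGraph.Walk.cons_isPath_iff hvp w).1 hw1
      have hpy : p ≠ y := by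
        rintro rfl
        exact hyT hvp
      have hp3 : ¬ 3 ≤ T.degree p := by
        intro h
        apply hv4 p ((hBrm p).2 h)
        rw [SimpleGraph.mem_neighborFinset]
        exact hvp.symm
      have hp2 : 2 ≤ T.degree p := by
        cases w with
        | nil => exact absurd rfl hpy
        | @cons _ d _ h' w' =>
          have h1 : v ≠ d := by
            rintro rfl
            apply hw.2
            rw [SimpleGraph.Walk.support_cons]
            exact List.mem_cons_of_mem _ w'.start_mem_support
          have h2 : ({v, d} : Finset V) ⊆ T.neighborFinset p := by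
            intro x hx
            rw [SimpleGraph.mem_neighborFinset]
            rcases Finset.mem_insert.1 hx with h3 | h3
            · rw [h3]
              exact hvp.symm
            · rw [Finset.mem_singleton.1 h3]
              exact h'
          have h3 := Finset.card_le_card h2
          rw [Finset.card_pair h1, SimpleGraph.card_neighborFinset_eq_degree] at h3
          exact h3
      obtain ⟨T'', h1, h2, h3⟩ := degtwo_exch T hT hnt hT2 (by omega) hyL hvy hvp hpy w hw.2
      have h4 : T'' ≤ F := by
        refine h1.trans (sup_le hTF ?_)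
        rw [SimpleGraph.edge_le_iff]
        exact Or.inr hyF
      have h5 := hmax T'' ⟨h4, h2⟩
      omega

end Pool.Agent.W2411si
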