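import Pool.Agent.W_2411c4_h26.Fconn
import Pool.Agent.W_2411c4_h26.DegTwo

/-! All but boundedly many vertices of the block have exactly two neighbours in `F`.

Proof. Let `V := {x // x ∈ B}` and `F : SimpleGraph V` with `F.Adj x y := Fa G B t x.1 y.1`. Apply
`deg_two` with `D := cm0 t`. Connected: `F_conn` (lift the connection to `V`). Degrees:
`F.degree v = (FN G B t v.1).card < cm0 t` (`exists_Z`). `hN`: suppose for `S`, `z ∉ S`, `S.card = t` all
`b ∈ S` are connected to `z` by chains outside `S.erase b`. Then `Star G t z.1 (S.image Subtype.val)`,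
against `hSF`: let `U` be a set with `z ∈ U`, `b ∉ U`, disjoint from `T := (S.image val).erase b`;
along the chain from `z` to `b` there is a step from `x ∈ U` to `y ∉ U` with `y ∉ T`, so `Fa.cross` gives
`t * t ≤ cm0 t ≤ ed G U T` (`sq_le_cm0`). -/

set_option autoImplicit false

namespace Pool.Agent.W2411si

open Pool.Agent.W2411c4

variable {Q : Type}

open Gr

theorem exists_A0 {G : Gr Q} {B : Finset ℕ} {t M : ℕ} (hSF : SF G B t) (ht : 1 ≤ t) (hB : Bk G B M)
    (hM : cM0 t ≤ M) (hM' : cm0 t + cm0 t * cm1 t < M) (hBt : t < B.card) :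
    ∃ A ⊆ B, A.Nonempty ∧ A.card ≤ t * (cm0 t + 5) ∧ ∀ x ∈ B \ A, (FN G B t x).card = 2 := by
  classical
  let F : SimpleGraph {x // x ∈ B} :=
    { Adj := fun x y => Fa G B t x.1 y.1
      symm := ⟨fun _ _ h => h.symm⟩
      loopless := ⟨fun x h => h.2.2.1 rfl⟩ }
  have hFadj : ∀ x y : {x // x ∈ B}, F.Adj x y ↔ Fa G B t x.1 y.1 := fun _ _ => Iff.rfl
  have hdeg : ∀ v : {x // x ∈ B}, F.degree v = (FN G B t v.1).card := by
    intro v
    rw [← SimpleGraph.card_neighborFinset_eq_degree,
      ← Finset.card_image_of_injective _ Subtype.val_injective]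
    congr 1
    ext w
    rw [Finset.mem_image, mem_FN]
    constructor
    · rintro ⟨a, ha, rfl⟩
      rwa [SimpleGraph.mem_neighborFinset] at ha
    · intro h
      refine ⟨⟨w, h.2.1⟩, ?_, rfl⟩
      rw [SimpleGraph.mem_neighborFinset]
      exact h
  have hreach : ∀ x y : ℕ, FC G B t ∅ x y → ∀ hx : x ∈ B, ∃ hy : y ∈ B,
      F.Reachable ⟨x, hx⟩ ⟨y, hy⟩ := by
    intro x y h hx
    induction h with
    | refl => exact ⟨hx, SimpleGraph.Reachable.refl _⟩
    | @tail b c _ hbc ih =>
      obtain ⟨hb, hr⟩ := ih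
      refine ⟨hbc.1.2.1, hr.trans ?_⟩
      have h1 : F.Adj ⟨b, hb⟩ ⟨c, hbc.1.2.1⟩ := hbc.1
      exact h1.reachable
  have hBne : B.Nonempty := Finset.card_pos.1 (by omega)
  have hc : F.Connected := by
    have hne : Nonempty {x // x ∈ B} := by
      obtain ⟨x, hx⟩ := hBne
      exact ⟨⟨x, hx⟩⟩
    refine ⟨fun x y => ?_⟩
    obtain ⟨_, h⟩ := hreach x.1 y.1 (F_conn hSF ht hB hM hM' x.1 x.2 y.1 y.2) x.2
    exact h
  obtain ⟨A, hA1, hA2, hA3⟩ := deg_two F t (cm0 t) hc (fun v => by
      rw [hdeg v]
      exact (exists_Z hSF ht hB hM v.2).1.le) (by rwa [Fintype.card_coe]) (by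
    intro S z hz hSc
    by_contra hcon
    push Not at hcon
    refine hSF z.1 z.2 (S.image Subtype.val) ?_ ⟨?_, ?_, ?_⟩
    · intro x hx
      obtain ⟨a, _, rfl⟩ := Finset.mem_image.1 hx
      exact a.2
    · intro h
      obtain ⟨a, ha, hae⟩ := Finset.mem_image.1 h
      exact hz (Subtype.val_injective hae ▸ ha)
    · rw [Finset.card_image_of_injective _ Subtype.val_injective, hSc]
    · intro b hb U hzU hbU hdis
      obtain ⟨b', hb', rfl⟩ := Finset.mem_image.1 hb
      have key : ∀ q : {x // x ∈ B},
          Relation.ReflTransGen (fun p q => F.Adj p q ∧ (q ∉ S ∨ q = b')) z q →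
          q.1 ∈ U ∨ t * t ≤ ed G U ((S.image Subtype.val).erase b'.1) := by
        intro q hq
        induction hq with
        | refl => exact Or.inl (hzU (Finset.mem_singleton_self _))
        | @tail p q _ hpq ih =>
          rcases ih with ih | ih
          · by_cases hqU : q.1 ∈ U
            · exact Or.inl hqU
            · right
              refine (sq_le_cm0 t).trans (Fa.cross (x := p.1) (y := q.1) hpq.1 ih hqU ?_ ?_)
              · intro x hx
                obtain ⟨a, _, rfl⟩ := Finset.mem_image.1 (Finset.mem_of_mem_erase hx)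
                exact a.2
              · intro hq2
                rw [Finset.mem_erase] at hq2
                obtain ⟨hne, hq3⟩ := hq2
                obtain ⟨a, ha, hae⟩ := Finset.mem_image.1 hq3
                have haq : a = q := Subtype.val_injective hae
                rcases hpq.2 with h | h
                · exact h (haq ▸ ha)
                · exact hne (by rw [h])
          · exact Or.inr ih
      rcases key b' (hcon b' hb') with h | h
      · exact absurd h hbU
      · exact h)
  refine ⟨A.image Subtype.val, ?_, hA1.image _, ?_, ?_⟩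
  · intro x hx
    obtain ⟨a, _, rfl⟩ := Finset.mem_image.1 hx
    exact a.2
  · rw [Finset.card_image_of_injective _ Subtype.val_injective]
    exact hA2
  · intro x hx
    rw [Finset.mem_sdiff] at hx
    have h1 : (⟨x, hx.1⟩ : {x // x ∈ B}) ∉ A := by
      intro h
      exact hx.2 (Finset.mem_image.2 ⟨_, h, rfl⟩)
    have h2 := hA3 _ h1
    rw [hdeg] at h2
    exact h2

end Pool.Agent.W2411si
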