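import Pool.Agent.W_2411c4_h26.Cuts

/-! The graph `F` on a block `B`: `x ~ y` iff there are at least `cm0 t` edge-disjoint paths between
`x` and `y` avoiding the other vertices of `B` (in cut form). -/

set_option autoImplicit false

namespace Pool.Agent.W2411si

open Pool.Agent.W2411c4

variable {Q : Type}

open Gr

/-- adjacency in `F` -/
def Fa (G : Gr Q) (B : Finset ℕ) (t x y : ℕ) : Prop :=
  x ∈ B ∧ y ∈ B ∧ x ≠ y ∧ Lam G (B \ {x, y}) {x} y (cm0 t)

open Classical in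
/-- the neighbours of `y` in `F` -/
noncomputable def FN (G : Gr Q) (B : Finset ℕ) (t y : ℕ) : Finset ℕ := B.filter fun w => Fa G B t y w

/-- connection in `F - P` -/
def FC (G : Gr Q) (B : Finset ℕ) (t : ℕ) (P : Finset ℕ) : ℕ → ℕ → Prop :=
  Relation.ReflTransGen fun x y => Fa G B t x y ∧ x ∉ P ∧ y ∉ P

theorem Fa.symm {G : Gr Q} {B : Finset ℕ} {t x y : ℕ} (h : Fa G B t x y) : Fa G B t y x := by
  classical
  obtain ⟨hx, hy, hxy, hL⟩ := h
  refine ⟨hy, hx, hxy.symm, ?_⟩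
  have h1 : ({y, x} : Finset ℕ) = {x, y} := Finset.pair_comm y x
  rw [h1]
  exact hL.symm (by simp) hxy

theorem mem_FN {G : Gr Q} {B : Finset ℕ} {t x y : ℕ} : y ∈ FN G B t x ↔ Fa G B t x y := by
  classical
  simp only [FN, Finset.mem_filter]
  exact ⟨fun h => h.2, fun h => ⟨h.2.1, h⟩⟩

theorem FN_sub {G : Gr Q} {B : Finset ℕ} {t x : ℕ} : FN G B t x ⊆ B :=
  fun _ hy => (mem_FN.1 hy).2.1

theorem not_mem_FN_self {G : Gr Q} {B : Finset ℕ} {t x : ℕ} : x ∉ FN G B t x :=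
  fun h => (mem_FN.1 h).2.2.1 rfl

theorem FC.symm {G : Gr Q} {B : Finset ℕ} {t : ℕ} {P : Finset ℕ} {x y : ℕ} (h : FC G B t P x y) :
    FC G B t P y x := by
  induction h with
  | refl => exact Relation.ReflTransGen.refl
  | tail _ hbc ih =>
    exact Relation.ReflTransGen.trans
      (Relation.ReflTransGen.single ⟨hbc.1.symm, hbc.2.2, hbc.2.1⟩) ih

/-- many edges cross a mixed cut which separates two neighbours in `F` -/
theorem Fa.cross {G : Gr Q} {B : Finset ℕ} {t x y : ℕ} (h : Fa G B t x y) {U T : Finset ℕ}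
    (hx : x ∈ U) (hy : y ∉ U) (hT : T ⊆ B) (hyT : y ∉ T) : cm0 t ≤ ed G U T := by
  classical
  obtain ⟨hxB, hyB, hxy, hL⟩ := h
  have h1 := hL (insert x (U \ B)) (by simp) (by
    simp only [Finset.mem_insert, Finset.mem_sdiff, not_or, not_and, not_not]
    exact ⟨fun h => hxy h.symm, fun h => absurd h hy⟩) (by
    rw [Finset.disjoint_left]
    intro v hv hv'
    simp only [Finset.mem_insert, Finset.mem_sdiff, Finset.mem_singleton, not_or] at hv hv'
    rcases hv with h | h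
    · exact hv'.2.1 h
    · exact h.2 hv'.1)
  refine h1.trans (Finset.card_le_card ?_)
  intro e he
  rw [mem_ebd, lv_iff] at he ⊢
  obtain ⟨heE, p, q, hp, hq, hqB, hep, heq⟩ := he
  simp only [Finset.mem_insert, Finset.mem_sdiff, Finset.mem_singleton, not_or, not_and, not_not]
    at hp hq hqB
  refine ⟨heE, p, q, ?_, ?_, ?_, hep, heq⟩
  · rcases hp with rfl | h
    · exact hx
    · exact h.1
  · intro h
    have h2 := hq.2 h
    have h3 := hqB h2 hq.1
    exact hy (h3 ▸ h)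
  · intro h
    have h2 := hT h
    have h3 := hqB h2 hq.1
    exact hyT (h3 ▸ h)

theorem FC.cross {G : Gr Q} {B : Finset ℕ} {t : ℕ} {P : Finset ℕ} {x y : ℕ} (h : FC G B t P x y)
    {U T : Finset ℕ} (hx : x ∈ U) (hy : y ∉ U) (hT : T ⊆ B) (hTP : T ⊆ P) : cm0 t ≤ ed G U T := by
  induction h with
  | refl => exact absurd hx hy
  | @tail b c _ hbc ih =>
    by_cases hb : b ∈ U
    · exact hbc.1.cross hb hy hT fun h => hbc.2.2 (hTP h)
    · exact ih hb

theorem ebd_union {G : Gr Q} {ι : Type} [DecidableEq ι] {R N : Finset ℕ} {s : Finset ι}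
    {U T : ι → Finset ℕ}
    (h : ∀ e ∈ G.E, Lv G R N e → ∃ i ∈ s, Lv G (U i) (T i) e) :
    ed G R N ≤ ∑ i ∈ s, ed G (U i) (T i) := by
  classical
  refine le_trans (Finset.card_le_card (t := s.biUnion fun i => ebd G (U i) (T i)) ?_)
    Finset.card_biUnion_le
  intro e he
  rw [mem_ebd] at he
  obtain ⟨i, hi, h1⟩ := h e he.1 he.2
  exact Finset.mem_biUnion.2 ⟨i, hi, mem_ebd.2 ⟨he.1, h1⟩⟩

end Pool.Agent.W2411si
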