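import Pool.Agent.W_2411c4_h26.Cuts

/-! One step of the process in Lemma 2.

Proof. For `θ` let `s θ` be the least cardinality of a `T ⊆ Y`, disjoint from `W`, such that some
`U ⊇ W` with `u ∉ U`, `Disjoint U T` has `ed G U T < θ` (use `sInf` or `Nat.find`; the set is nonempty
for `θ ≥ t * t` because of `T0`). With `θ j := 2 ^ j * (t * t)`: `s (θ j)` is antitone in `j`,
`s (θ 0) < t` and `1 ≤ s (θ t)` (for `T = ∅` the hypothesis `hM` at `x ∈ U` gives
`cM0 t ≤ ed G U ∅`). By pigeonhole `s (θ j) = s (θ (j + 1)) =: s` for some `j < t`. Choose `T1` with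
`T1.card = s` and `U1` with `ed G U1 T1 < θ j`, and among all `U1` (for this `T1`) one with the least
value `ed G U1 T1`. Let `T` be valid, disjoint from `U1 ∪ T1`, with the set `U`. By `ed_sub`
(`U1, T1, U, T` and the boundaries `T1 ∩ U`, `T`) we have
`ed G (U1 ∩ U) (T1 ∩ U) + ed G (U1 ∪ U) (T \ ...) ≤ ed G U1 T1 + ed G U T < 2 * θ j = θ (j + 1)`. If `T1`
is not contained in `U`, then `(T1 ∩ U).card < s`, so `ed G (U1 ∩ U) (T1 ∩ U) ≥ θ (j + 1)`, a
contradiction. So `T1 ⊆ U`, `ed G (U1 ∩ U) T1 ≥ ed G U1 T1` by the choice of `U1`, hence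
`ed G (U1 ∪ U) T ≤ ed G U T < t * t` and `U1 ∪ U` contains `U1 ∪ T1`, is disjoint from `T`. -/

set_option autoImplicit false

namespace Pool.Agent.W2411si

open Pool.Agent.W2411c4

variable {Q : Type}

open Gr

/-- `T` is valid for `W` -/
def Val (G : Gr Q) (Y : Finset ℕ) (u t : ℕ) (W T : Finset ℕ) : Prop :=
  T ⊆ Y ∧ Disjoint T W ∧ T.card < t ∧
    ∃ U : Finset ℕ, W ⊆ U ∧ u ∉ U ∧ Disjoint U T ∧ ed G U T < t * t

/-- there is a candidate with `n` boundary vertices and fewer than `θ` edges -/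
def fanSP (G : Gr Q) (Y : Finset ℕ) (u : ℕ) (W : Finset ℕ) (θ n : ℕ) : Prop :=
  ∃ T U : Finset ℕ, T ⊆ Y ∧ T.card = n ∧ W ⊆ U ∧ u ∉ U ∧ Disjoint U T ∧ ed G U T < θ

theorem fanS_pigeon (f : ℕ → ℕ) (t : ℕ) (h0 : f 0 < t) (ht : 1 ≤ f t)
    (hf : ∀ j, f (j + 1) ≤ f j) : ∃ j < t, f j = f (j + 1) := by
  by_contra hcon
  push Not at hcon
  have h1 : ∀ j ≤ t, f j + j ≤ f 0 := by
    intro j
    induction j with
    | zero => intro _; omega
    | succ j ih =>
      intro hj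
      have h2 := ih (by omega)
      have h3 := hcon j (by omega)
      have h4 := hf j
      omega
  have := h1 t le_rfl
  omega

theorem fan_step {G : Gr Q} {Y : Finset ℕ} {u t : ℕ} (huY : u ∉ Y)
    (hM : ∀ x ∈ Y, Lam G ∅ {x} u (cM0 t)) {x : ℕ} {W : Finset ℕ} (hxY : x ∈ Y) (hxW : x ∈ W)
    (huW : u ∉ W) {T0 : Finset ℕ} (hT0 : Val G Y u t W T0) :
    ∃ U1 T1 : Finset ℕ, W ⊆ U1 ∧ u ∉ U1 ∧ T1 ⊆ Y ∧ Disjoint U1 T1 ∧ T1.Nonempty ∧ T1.card < t ∧
      ed G U1 T1 < cM0 t ∧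
      ∀ T, Val G Y u t W T → Disjoint T (U1 ∪ T1) → Val G Y u t (U1 ∪ T1) T := by
  classical
  obtain ⟨hT0Y, hT0W, hT0c, U0, hU0W, hU0u, hU0T, hU0e⟩ := hT0
  let θ : ℕ → ℕ := fun j => 2 ^ j * (t * t)
  let s : ℕ → ℕ := fun j => sInf {n | fanSP G Y u W (θ j) n}
  have hθ0 : ∀ j, t * t ≤ θ j := fun j => Nat.le_mul_of_pos_left _ (by positivity)
  have hθ1 : ∀ j, θ (j + 1) = 2 * θ j := by
    intro j
    change 2 ^ (j + 1) * (t * t) = 2 * (2 ^ j * (t * t))
    ring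
  have hmem : ∀ j, T0.card ∈ {n | fanSP G Y u W (θ j) n} := fun j =>
    ⟨T0, U0, hT0Y, rfl, hU0W, hU0u, hU0T, lt_of_lt_of_le hU0e (hθ0 j)⟩
  have hs0 : ∀ j, s j ≤ T0.card := fun j => Nat.sInf_le (hmem j)
  have hsmem : ∀ j, fanSP G Y u W (θ j) (s j) := fun j => Nat.sInf_mem ⟨_, hmem j⟩
  have hanti : ∀ j, s (j + 1) ≤ s j := by
    intro j
    obtain ⟨T, U, h1, h2, h3, h4, h5, h6⟩ := hsmem j
    refine Nat.sInf_le ⟨T, U, h1, h2, h3, h4, h5, ?_⟩
    have := hθ1 j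
    omega
  have hanti' : ∀ i j, i ≤ j → s j ≤ s i := by
    intro i j hij
    exact antitone_nat_of_succ_le hanti hij
  have hst : 1 ≤ s t := by
    by_contra hlt
    have h0 : s t = 0 := by omega
    obtain ⟨T, U, h1, h2, h3, h4, h5, h6⟩ := hsmem t
    rw [h0, Finset.card_eq_zero] at h2
    subst h2
    have h7 := hM x hxY U (Finset.singleton_subset_iff.2 (h3 hxW)) h4 (Finset.disjoint_empty_right _)
    have h8 : θ t = cM0 t := rfl
    omega
  obtain ⟨j, hj, hjj⟩ := fanS_pigeon s t (lt_of_le_of_lt (hs0 0) hT0c) hst hanti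
  obtain ⟨T1, Ua, h1, h2, h3, h4, h5, h6⟩ := hsmem j
  -- the best set for `T1`
  let S : Set ℕ := {n | ∃ U : Finset ℕ, W ⊆ U ∧ u ∉ U ∧ Disjoint U T1 ∧ ed G U T1 = n}
  have hS : S.Nonempty := ⟨_, Ua, h3, h4, h5, rfl⟩
  obtain ⟨U1, hU1W, hU1u, hU1T, hU1e⟩ := Nat.sInf_mem hS
  have hmin : ∀ U : Finset ℕ, W ⊆ U → u ∉ U → Disjoint U T1 → ed G U1 T1 ≤ ed G U T1 := by
    intro U ha hb hc
    rw [hU1e]
    exact Nat.sInf_le ⟨U, ha, hb, hc, rfl⟩
  have hU1lt : ed G U1 T1 < θ j := lt_of_le_of_lt (hmin Ua h3 h4 h5) h6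
  have hsj : 1 ≤ s j := hst.trans (hanti' j t hj.le)
  have hθjt : θ j ≤ cM0 t := by
    have : θ t = cM0 t := rfl
    rw [← this]
    exact Nat.mul_le_mul_right _ (Nat.pow_le_pow_right (by norm_num) hj.le)
  refine ⟨U1, T1, hU1W, hU1u, h1, hU1T, ?_, ?_, lt_of_lt_of_le hU1lt hθjt, ?_⟩
  · rw [← Finset.card_pos]
    omega
  · have := hs0 j
    omega
  · rintro T ⟨hTY, hTW, hTc, U, hUW, hUu, hUT, hUe⟩ hd
    rw [Finset.disjoint_union_right] at hd
    obtain ⟨hd1, hd2⟩ := hd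
    have hcap : ∀ v, v ∈ U1 ∪ T1 → v ∈ U ∪ T → v ∈ (U1 ∩ U) ∪ (T1 ∩ U) := by
      intro v hv hv'
      rw [Finset.mem_union] at hv hv'
      rw [Finset.mem_union, Finset.mem_inter, Finset.mem_inter]
      rcases hv' with hv' | hv'
      · rcases hv with hv | hv
        · exact Or.inl ⟨hv, hv'⟩
        · exact Or.inr ⟨hv, hv'⟩
      · exfalso
        rcases hv with hv | hv
        · exact Finset.disjoint_left.1 hd1 hv' hv
        · exact Finset.disjoint_left.1 hd2 hv' hv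
    have hW' : W ⊆ U1 ∩ U := Finset.subset_inter hU1W hUW
    have hu' : u ∉ U1 ∩ U := fun h => hU1u (Finset.mem_inter.1 h).1
    have hT1U : T1 ⊆ U := by
      by_contra hns
      have h7 := ed_sub (G := G) (U := U1) (T := T1) (U' := U) (T' := T) (T1 := T1 ∩ U)
        (T2 := T1 ∪ T) hcap (fun v hv => Finset.mem_union_right _ hv)
      have h8 : (T1 ∩ U).card < T1.card := by
        refine Finset.card_lt_card ⟨Finset.inter_subset_left, fun h => hns fun v hv => ?_⟩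
        exact (Finset.mem_inter.1 (h hv)).2
      have h9 : s (j + 1) ≤ (T1 ∩ U).card := by
        refine Nat.sInf_le ⟨T1 ∩ U, U1 ∩ U, Finset.inter_subset_left.trans h1, rfl, hW', hu', ?_, ?_⟩
        · exact Finset.disjoint_of_subset_left Finset.inter_subset_left
            (Finset.disjoint_of_subset_right Finset.inter_subset_left hU1T)
        · have := hθ1 j
          have := hθ0 j
          omega
      omega
    have h7 := ed_sub (G := G) (U := U1) (T := T1) (U' := U) (T' := T) (T1 := T1 ∩ U)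
        (T2 := T) hcap (fun v hv => by
          rw [Finset.mem_union] at hv
          rw [Finset.mem_union, Finset.mem_union]
          rcases hv with hv | hv
          · exact Or.inl (Or.inr (hT1U hv))
          · exact Or.inr hv)
    rw [Finset.inter_eq_left.2 hT1U] at h7
    have h8 := hmin (U1 ∩ U) hW' hu'
      (Finset.disjoint_of_subset_left Finset.inter_subset_left hU1T)
    refine ⟨hTY, ?_, hTc, U1 ∪ U, ?_, ?_, ?_, ?_⟩
    · rw [Finset.disjoint_union_right]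
      exact ⟨hd1, hd2⟩
    · exact Finset.union_subset Finset.subset_union_left (hT1U.trans Finset.subset_union_right)
    · rw [Finset.mem_union]
      tauto
    · rw [Finset.disjoint_union_left]
      exact ⟨hd1.symm, hUT⟩
    · omega

end Pool.Agent.W2411si
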