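import Mathlib

/-! Independent sets in digraphs of bounded out-degree.

Proof: induction on `t` (for all `Y`). If `Y` is nonempty, the sum over `y ∈ Y` of the in-degrees
`((Y.filter fun x => y ∈ g x).card)` is the sum of the out-degrees, at most `D * Y.card`, so some
`y ∈ Y` has in-degree at most `D`; remove `y`, `g y` and the `x` with `y ∈ g x`: at most `2 * D + 1`
elements. -/

set_option autoImplicit false

namespace Pool.Agent.W2411si

private theorem indep_low {Y : Finset ℕ} {D : ℕ} (g : ℕ → Finset ℕ) (hg : ∀ x ∈ Y, (g x).card ≤ D)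
    (hY : Y.Nonempty) : ∃ y ∈ Y, (Y.filter fun x => y ∈ g x).card ≤ D := by
  have h1 : ∑ y ∈ Y, (Y.filter fun x => y ∈ g x).card ≤ ∑ _y ∈ Y, D := by
    have h2 : ∑ y ∈ Y, (Y.filter fun x => y ∈ g x).card = ∑ x ∈ Y, (Y.filter fun y => y ∈ g x).card := by
      simp only [Finset.card_filter]
      exact Finset.sum_comm
    rw [h2]
    refine Finset.sum_le_sum fun x hx => le_trans (Finset.card_le_card ?_) (hg x hx)
    intro y hy
    exact (Finset.mem_filter.1 hy).2
  exact Finset.exists_le_of_sum_le hY h1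

theorem indep_out {Y : Finset ℕ} {D t : ℕ} (g : ℕ → Finset ℕ) (hg : ∀ x ∈ Y, (g x).card ≤ D)
    (hY : 2 * (D + 1) * t ≤ Y.card) :
    ∃ S ⊆ Y, S.card = t ∧ ∀ x ∈ S, ∀ y ∈ S, x ≠ y → y ∉ g x := by
  induction t generalizing Y with
  | zero => exact ⟨∅, Finset.empty_subset _, rfl, by simp⟩
  | succ t ih =>
    have hpos : 0 < Y.card := by nlinarith
    obtain ⟨y, hy, hin⟩ := indep_low g hg (Finset.card_pos.1 hpos)
    have hsub : Y \ (insert y (g y ∪ Y.filter fun x => y ∈ g x)) ⊆ Y := Finset.sdiff_subset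
    have hcard : Y.card ≤ (Y \ (insert y (g y ∪ Y.filter fun x => y ∈ g x))).card + (2 * D + 1) := by
      have h1 : (insert y (g y ∪ Y.filter fun x => y ∈ g x)).card ≤ 2 * D + 1 := by
        have h2 := Finset.card_insert_le y (g y ∪ Y.filter fun x => y ∈ g x)
        have h3 := Finset.card_union_le (g y) (Y.filter fun x => y ∈ g x)
        have h4 := hg y hy
        omega
      have h5 := Finset.card_le_card_sdiff_add_card (s := Y) (t := insert y (g y ∪ Y.filter fun x => y ∈ g x))
      omega
    have hY' : 2 * (D + 1) * t ≤ (Y \ (insert y (g y ∪ Y.filter fun x => y ∈ g x))).card := by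
      have h6 : 2 * (D + 1) * (t + 1) = 2 * (D + 1) * t + (2 * D + 2) := by ring
      omega
    obtain ⟨S, hS, hSc, hSi⟩ := ih (fun x hx => hg x (hsub hx)) hY'
    have hmem : ∀ x ∈ S, x ∈ Y ∧ x ≠ y ∧ x ∉ g y ∧ y ∉ g x := by
      intro x hx
      have h7 := Finset.mem_sdiff.1 (hS hx)
      have h8 := h7.2
      simp only [Finset.mem_insert, Finset.mem_union, Finset.mem_filter, not_or, not_and] at h8
      exact ⟨h7.1, h8.1, h8.2.1, h8.2.2 h7.1⟩
    have hyS : y ∉ S := fun h => (hmem y h).2.1 rfl
    refine ⟨insert y S, ?_, ?_, ?_⟩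
    · intro x hx
      rcases Finset.mem_insert.1 hx with rfl | hx
      · exact hy
      · exact (hmem x hx).1
    · rw [Finset.card_insert_of_notMem hyS, hSc]
    · intro x hx z hz hxz
      rcases Finset.mem_insert.1 hx with hx1 | hx1
      · rcases Finset.mem_insert.1 hz with hz1 | hz1
        · exact absurd (hx1.trans hz1.symm) hxz
        · rw [hx1]
          exact (hmem z hz1).2.2.1
      · rcases Finset.mem_insert.1 hz with hz1 | hz1
        · rw [hz1]
          exact (hmem x hx1).2.2.2
        · exact hSi x hx1 z hz1 hxz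

end Pool.Agent.W2411si
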