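import Pool.Agent.W_2411c4_h26.FanP
import Pool.Agent.W_2411c4_h26.FanS
import Pool.Agent.W_2411c4_h26.Indep

/-! Lemma 2, the fan lemma.

`fan_loop`: claim for all `W` with `x ∈ W`, `u ∉ W`, `(W ∩ Y).card ≤ cd t` such that every `T` which is
valid for `{x}` and disjoint from `W` is valid for `W`; induction on `cd t - (W ∩ Y).card`. If no `T`
is valid for `W`, then `W` is as wanted. Otherwise take `U1`, `T1` from `fan_step` and continue with
`W' := U1 ∪ T1`: `(U1 ∩ Y).card ≤ ed G U1 T1 < cM0 t` by `hct`, so `(W' ∩ Y).card ≤ cd t`, and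
`(W' ∩ Y).card > (W ∩ Y).card` since `T1` is nonempty, contained in `Y` and disjoint from `U1 ⊇ W`.
Start with `W = {x}` (`cd t ≥ t ≥ 1`).
`fan`: suppose not; take `Y`, `P` from `fan_paths` with `N := cm0 t`, `hct` from `fan_count`; for
`x ∈ Y` let `W x` be the set of `fan_loop`, `g x := (W x ∩ Y).erase x`, of cardinality at most
`cd t - 1`; `indep_out` with `D := cd t - 1` gives `S`, and `Star G t u S`: for `b ∈ S` and `U` with
`u ∈ U`, `b ∉ U`, `Disjoint U (S.erase b)`, `ed G U (S.erase b) < t * t`, the set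
`U' := (vs G ∪ S ∪ U) \ (U ∪ S.erase b)` contains `b`, not `u`, is disjoint from `S.erase b` and has
`ed G U' (S.erase b) = ed G U (S.erase b)` (`ed_compl`); so `S.erase b` is valid for `{b}`, and must
meet `W b`, against the independence of `S`. -/

set_option autoImplicit false

namespace Pool.Agent.W2411si

open Pool.Agent.W2411c4

variable {Q : Type}

open Gr

theorem fan_loop {G : Gr Q} {Y : Finset ℕ} {u t : ℕ} (ht : 1 ≤ t) (huY : u ∉ Y)
    (hM : ∀ x ∈ Y, Lam G ∅ {x} u (cM0 t))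
    (hct : ∀ U T : Finset ℕ, T ⊆ Y → Disjoint U T → u ∉ U → (U ∩ Y).card ≤ ed G U T)
    {x : ℕ} (hxY : x ∈ Y) :
    ∃ W : Finset ℕ, x ∈ W ∧ u ∉ W ∧ (W ∩ Y).card ≤ cd t ∧
      ∀ T, Val G Y u t {x} T → ¬ Disjoint T W := by
  have key : ∀ n : ℕ, ∀ W : Finset ℕ, x ∈ W → u ∉ W → (W ∩ Y).card ≤ cd t →
      cd t - (W ∩ Y).card = n →
      (∀ T, Val G Y u t {x} T → Disjoint T W → Val G Y u t W T) →
      ∃ W : Finset ℕ, x ∈ W ∧ u ∉ W ∧ (W ∩ Y).card ≤ cd t ∧
        ∀ T, Val G Y u t {x} T → ¬ Disjoint T W := by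
    intro n
    induction n using Nat.strong_induction_on with
    | _ n ih =>
      intro W hxW huW hWc hn hV
      by_cases hex : ∃ T, Val G Y u t {x} T ∧ Disjoint T W
      · obtain ⟨T0, hT0, hT0W⟩ := hex
        obtain ⟨U1, T1, hWU, huU, hT1Y, hUT, hT1n, hT1c, hed, hall⟩ :=
          fan_step huY hM hxY hxW huW (hV T0 hT0 hT0W)
        have hu' : u ∉ U1 ∪ T1 := by
          rw [Finset.mem_union]
          rintro (h | h)
          · exact huU h
          · exact huY (hT1Y h)
        have hc1 : ((U1 ∪ T1) ∩ Y).card ≤ (U1 ∩ Y).card + T1.card := by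
          refine le_trans (Finset.card_le_card (t := (U1 ∩ Y) ∪ T1) ?_) (Finset.card_union_le _ _)
          intro v hv
          simp only [Finset.mem_inter, Finset.mem_union] at hv ⊢
          tauto
        have hc2 := hct U1 T1 hT1Y hUT huU
        have hc3 : ((U1 ∪ T1) ∩ Y).card ≤ cd t := by
          unfold cd
          omega
        have hc4 : (W ∩ Y).card < ((U1 ∪ T1) ∩ Y).card := by
          obtain ⟨y, hy⟩ := hT1n
          apply Finset.card_lt_card
          rw [Finset.ssubset_iff_of_subset]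
          · refine ⟨y, ?_, ?_⟩
            · exact Finset.mem_inter.2 ⟨Finset.mem_union_right _ hy, hT1Y hy⟩
            · intro h
              exact Finset.disjoint_left.1 hUT (hWU (Finset.mem_inter.1 h).1) hy
          · intro v hv
            rw [Finset.mem_inter] at hv ⊢
            exact ⟨Finset.mem_union_left _ (hWU hv.1), hv.2⟩
        refine ih (cd t - ((U1 ∪ T1) ∩ Y).card) (by omega) (U1 ∪ T1)
          (Finset.mem_union_left _ (hWU hxW)) hu' hc3 rfl ?_
        intro T hT hTd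
        have hTW : Disjoint T W := by
          rw [Finset.disjoint_left] at hTd ⊢
          intro v hv hvW
          exact hTd hv (Finset.mem_union_left _ (hWU hvW))
        exact hall T (hV T hT hTW) hTd
      · refine ⟨W, hxW, huW, hWc, ?_⟩
        intro T hT hTd
        exact hex ⟨T, hT, hTd⟩
  refine key _ {x} (Finset.mem_singleton_self _) ?_ ?_ rfl ?_
  · rw [Finset.mem_singleton]
    rintro rfl
    exact huY hxY
  · have h1 : (({x} : Finset ℕ) ∩ Y).card ≤ 1 :=
      le_trans (Finset.card_le_card Finset.inter_subset_left) (by simp)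
    unfold cd
    omega
  · intro T hT _
    exact hT

theorem fan {G : Gr Q} {B : Finset ℕ} {t : ℕ} (hSF : SF G B t) (ht : 1 ≤ t) {X : Finset ℕ} {u : ℕ}
    (hXB : X ⊆ B) (huB : u ∈ B) (hu : u ∉ X) (hX : ∀ x ∈ X, Lam G ∅ {x} u (cM0 t)) :
    ∃ T U : Finset ℕ, T ⊆ X ∧ X \ T ⊆ U ∧ Disjoint U T ∧ u ∉ U ∧ T.card + ed G U T < cm0 t := by
  by_contra hcon
  have h : ∀ T U : Finset ℕ, T ⊆ X → X \ T ⊆ U → Disjoint U T → u ∉ U →
      cm0 t ≤ T.card + ed G U T := by
    intro T U h1 h2 h3 h4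
    by_contra h5
    exact hcon ⟨T, U, h1, h2, h3, h4, not_le.1 h5⟩
  obtain ⟨Y, P, hYX, hYc, hc, hP, hd⟩ := fan_paths hu h
  have huY : u ∉ Y := fun h' => hu (hYX h')
  have hM : ∀ x ∈ Y, Lam G ∅ {x} u (cM0 t) := fun x hx => hX x (hYX hx)
  have hloop : ∀ x, ∃ W : Finset ℕ, x ∈ Y → (x ∈ W ∧ u ∉ W ∧ (W ∩ Y).card ≤ cd t ∧
      ∀ T, Val G Y u t {x} T → ¬ Disjoint T W) := by
    intro x
    by_cases hx : x ∈ Y
    · obtain ⟨W, hW⟩ := fan_loop (G := G) ht huY hM
        (fun U T h1 h2 h3 => fan_count hc hP hd h1 h2 h3) hx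
      exact ⟨W, fun _ => hW⟩
    · exact ⟨∅, fun h' => absurd h' hx⟩
  choose W hW using hloop
  have hcd : 1 ≤ cd t := by
    unfold cd
    omega
  obtain ⟨S, hSY, hSc, hS⟩ := indep_out (Y := Y) (D := cd t - 1) (t := t)
    (fun x => (W x ∩ Y).erase x) (by
      intro x hx
      obtain ⟨h1, _, h3, _⟩ := hW x hx
      rw [Finset.card_erase_of_mem (Finset.mem_inter.2 ⟨h1, hx⟩)]
      omega) (by
      rw [hYc]
      unfold cm0
      rw [Nat.sub_add_cancel hcd])
  apply hSF u huB S (fun v hv => hXB (hYX (hSY hv)))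
  refine ⟨fun h' => huY (hSY h'), hSc, ?_⟩
  intro b hb U hU hbU hUS
  by_contra hlt
  rw [not_le] at hlt
  have huU : u ∈ U := hU (Finset.mem_singleton_self _)
  have hV : vs G ⊆ vs G ∪ S ∪ U := fun v hv =>
    Finset.mem_union_left _ (Finset.mem_union_left _ hv)
  have hval : Val G Y u t {b} (S.erase b) := by
    refine ⟨fun v hv => hSY (Finset.mem_of_mem_erase hv), ?_, ?_, ?_⟩
    · rw [Finset.disjoint_singleton_right]
      exact Finset.notMem_erase b S
    · rw [Finset.card_erase_of_mem hb, hSc]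
      omega
    · refine ⟨(vs G ∪ S ∪ U) \ (U ∪ S.erase b), ?_, ?_, ?_, ?_⟩
      · rw [Finset.singleton_subset_iff, Finset.mem_sdiff]
        refine ⟨Finset.mem_union_left _ (Finset.mem_union_right _ hb), ?_⟩
        intro h0
        rcases Finset.mem_union.1 h0 with h1 | h1
        · exact hbU h1
        · exact Finset.notMem_erase b S h1
      · intro h1
        exact (Finset.mem_sdiff.1 h1).2 (Finset.mem_union_left _ huU)
      · rw [Finset.disjoint_left]
        intro v hv hv'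
        exact (Finset.mem_sdiff.1 hv).2 (Finset.mem_union_right _ hv')
      · rw [ed_compl hV hUS]
        exact hlt
  obtain ⟨_, _, _, h4⟩ := hW b (hSY hb)
  have h5 := h4 _ hval
  rw [Finset.not_disjoint_iff] at h5
  obtain ⟨y, hy1, hy2⟩ := h5
  obtain ⟨hyb, hyS⟩ := Finset.mem_erase.1 hy1
  refine hS b hb y hyS (Ne.symm hyb) ?_
  exact Finset.mem_erase.2 ⟨hyb, Finset.mem_inter.2 ⟨hy2, hSY hyS⟩⟩

end Pool.Agent.W2411si
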