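import Pool.Agent.W_2411c4_h26.Flow

/-! The fan of paths in Lemma 2.

`fan_paths`: `flow_cap` with `S := X`, `z := u`, `c := 1`. Its hypothesis: for `u ∈ U'`, `U'` disjoint
from `X`, `T ⊆ X` put `V0 := vs G ∪ X ∪ U'` and `U := V0 \ (U' ∪ T)`; then `X \ T ⊆ U`, `u ∉ U`, `U`
is disjoint from `T` and `ed G U T = ed G U' T` (`ed_compl`). The ends `en i` are different (`c = 1`);
`Y` is their set, `P y` the path with end `y` (turn `Conn` around with `Conn.symm`).
`fan_count`: for `y ∈ U ∩ Y` the set `P y` contains an edge with one end in `U` and the other outside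
(`y ∈ U`, `u ∉ U`; walk along the connection, see `conn_cross` in `W_2411c4_h59/Cut.lean`); its outer
end is not in `T`, because it would be in `Y`, hence equal to `y`, but `y ∈ U`. So this edge is in
`ebd G U T`; for different `y` these edges are different. -/

set_option autoImplicit false

namespace Pool.Agent.W2411si

open Pool.Agent.W2411c4

variable {Q : Type}

open Gr

theorem fan_paths {G : Gr Q} {X : Finset ℕ} {u N : ℕ} (hu : u ∉ X)
    (h : ∀ T U : Finset ℕ, T ⊆ X → X \ T ⊆ U → Disjoint U T → u ∉ U → N ≤ T.card + ed G U T) :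
    ∃ (Y : Finset ℕ) (P : ℕ → Set ℕ), Y ⊆ X ∧ Y.card = N ∧
      (∀ y ∈ Y, G.Conn (P y) y u) ∧
      (∀ y ∈ Y, ∀ f ∈ P y, f ∈ G.E ∧ ∀ x ∈ Y, G.Inc f x → x = y) ∧
      (∀ x ∈ Y, ∀ y ∈ Y, x ≠ y → Disjoint (P x) (P y)) := by
  classical
  obtain ⟨P, en, h1, h2, h3, h4, h5⟩ := flow_cap (G := G) (S := X) (z := u) (c := 1) (N := N) hu (by
    intro U' T hzU hUX hTX
    have hV : vs G ⊆ (vs G ∪ X) ∪ U' := fun v hv =>
      Finset.mem_union_left _ (Finset.mem_union_left _ hv)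
    have hUT : Disjoint U' T := Finset.disjoint_of_subset_right hTX hUX
    have h0 := h T (((vs G ∪ X) ∪ U') \ (U' ∪ T)) hTX (by
      intro v hv
      rw [Finset.mem_sdiff] at hv
      rw [Finset.mem_sdiff, Finset.mem_union, Finset.mem_union, Finset.mem_union]
      exact ⟨Or.inl (Or.inr hv.1), fun h' => h'.elim
        (fun h'' => Finset.disjoint_left.1 hUX h'' hv.1) hv.2⟩) (by
      rw [Finset.disjoint_left]
      intro v hv hvT
      exact (Finset.mem_sdiff.1 hv).2 (Finset.mem_union_right _ hvT)) (by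
      intro hv
      exact (Finset.mem_sdiff.1 hv).2 (Finset.mem_union_left _ hzU))
    rw [ed_compl hV hUT] at h0
    omega)
  have hinj : ∀ i < N, ∀ j < N, en i = en j → i = j := by
    intro i hi j hj hij
    have h6 := h2 (en i) (h1 i hi)
    rw [Finset.card_le_one] at h6
    exact h6 i (Finset.mem_filter.2 ⟨Finset.mem_range.2 hi, rfl⟩) j
      (Finset.mem_filter.2 ⟨Finset.mem_range.2 hj, hij.symm⟩)
  have hex : ∀ y, ∃ i, (∃ k < N, en k = y) → i < N ∧ en i = y := by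
    intro y
    by_cases hy : ∃ k < N, en k = y
    · obtain ⟨k, hk, hk'⟩ := hy
      exact ⟨k, fun _ => ⟨hk, hk'⟩⟩
    · exact ⟨0, fun h' => absurd h' hy⟩
  choose g hg using hex
  have hY : ∀ y ∈ (Finset.range N).image en, g y < N ∧ en (g y) = y := by
    intro y hy
    obtain ⟨k, hk, hk'⟩ := Finset.mem_image.1 hy
    exact hg y ⟨k, Finset.mem_range.1 hk, hk'⟩
  have hYX : (Finset.range N).image en ⊆ X := by
    intro y hy
    obtain ⟨h6, h7⟩ := hY y hy
    rw [← h7]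
    exact h1 _ h6
  refine ⟨(Finset.range N).image en, fun y => P (g y), hYX, ?_, ?_, ?_, ?_⟩
  · rw [Finset.card_image_of_injOn, Finset.card_range]
    intro i hi j hj hij
    exact hinj i (Finset.mem_range.1 (Finset.mem_coe.1 hi)) j
      (Finset.mem_range.1 (Finset.mem_coe.1 hj)) hij
  · intro y hy
    obtain ⟨h6, h7⟩ := hY y hy
    have h8 := (h4 (g y) h6).symm
    rw [h7] at h8
    exact h8
  · intro y hy f hf
    obtain ⟨h6, h7⟩ := hY y hy
    have h8 := h3 (g y) h6 f hf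
    refine ⟨h8.1, fun x hx hfx => ?_⟩
    rw [h8.2 x (hYX hx) hfx, h7]
  · intro x hx y hy hxy
    obtain ⟨h6, h7⟩ := hY x hx
    obtain ⟨h8, h9⟩ := hY y hy
    refine h5 _ h6 _ h8 (fun h' => hxy ?_)
    rw [← h7, ← h9, h']

private theorem fanp_cross {G : Gr Q} {F : Set ℕ} {U : Finset ℕ} {y u : ℕ} (h : G.Conn F y u)
    (hy : y ∈ U) (hu : u ∉ U) : ∃ f ∈ F, ∃ p q, p ∈ U ∧ q ∉ U ∧ G.Inc f p ∧ G.Inc f q := by
  induction h with
  | refl => exact absurd hy hu
  | @tail b c _ hbc ih =>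
    by_cases hb : b ∈ U
    · obtain ⟨f, hf, h | h⟩ := hbc
      · exact ⟨f, hf, b, c, hb, hu, Or.inl h.1.symm, Or.inr h.2.symm⟩
      · exact ⟨f, hf, b, c, hb, hu, Or.inr h.2.symm, Or.inl h.1.symm⟩
    · exact ih hb

theorem fan_count {G : Gr Q} {Y : Finset ℕ} {P : ℕ → Set ℕ} {u : ℕ}
    (hc : ∀ y ∈ Y, G.Conn (P y) y u)
    (hP : ∀ y ∈ Y, ∀ f ∈ P y, f ∈ G.E ∧ ∀ x ∈ Y, G.Inc f x → x = y)
    (hd : ∀ x ∈ Y, ∀ y ∈ Y, x ≠ y → Disjoint (P x) (P y))
    {U T : Finset ℕ} (hT : T ⊆ Y) (hUT : Disjoint U T) (hu : u ∉ U) :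
    (U ∩ Y).card ≤ ed G U T := by
  classical
  have hex : ∀ y, ∃ f, y ∈ U ∩ Y → f ∈ P y ∧ f ∈ ebd G U T := by
    intro y
    by_cases hy : y ∈ U ∩ Y
    · obtain ⟨hyU, hyY⟩ := Finset.mem_inter.1 hy
      obtain ⟨f, hf, p, q, hp, hq, h1, h2⟩ := fanp_cross (hc y hyY) hyU hu
      refine ⟨f, fun _ => ⟨hf, mem_ebd.2 ⟨(hP y hyY f hf).1, lv_iff.2 ⟨p, q, hp, hq, ?_, h1, h2⟩⟩⟩⟩
      intro hqT
      have h3 := (hP y hyY f hf).2 q (hT hqT) h2
      rw [h3] at hq
      exact hq hyU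
    · exact ⟨0, fun h' => absurd h' hy⟩
  choose g hg using hex
  unfold ed
  apply Finset.card_le_card_of_injOn g
  · intro y hy
    exact (hg y hy).2
  · intro x hx y hy hxy
    by_contra hne
    have h1 := (hg x hx).1
    have h2 := (hg y hy).1
    rw [← hxy] at h2
    exact Set.disjoint_left.1 (hd x (Finset.mem_inter.1 hx).2 y (Finset.mem_inter.1 hy).2 hne) h1 h2

end Pool.Agent.W2411si
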