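import Pool.Agent.W_2411c4_h26.Zs

/-! `F` is connected (section 3.2).

Proof. Suppose `x, y ∈ B` are not connected in `F`; `B1 := {v ∈ B, FC G B t ∅ x v}`, `B2 := B \ B1`,
`y ∈ B2`. `fan` with `X := B2`, `u := x` gives `T`, `U`. No `v ∈ B1` is in `U`: otherwise `FC.cross`
for the connection of `v` and `x` in `F - B2`: the vertices on it are in `B1`, so it is a connection
`FC G B t B2 v x` (prove: `FC G B t ∅ x v → FC G B t B2 x v`, by induction), hence
`cm0 t ≤ ed G U T` (`T ⊆ B2`), a contradiction. Let `Z v` be the sets of `exists_Z` and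
`W := U ∪ T.biUnion Z`. `y ∈ W`, `x ∉ W` (`B ∩ Z v = {v}`). An edge from `p ∈ W` to `q ∉ W`: if
`p ∈ U`, it is in `ebd G U T` (`q ∉ T` because `T ⊆ W`); if `p ∈ Z v`, `v ∈ T`, it is in
`ebd G (Z v) (FN G B t v)`, because `FN G B t v ⊆ B2 ⊆ W`. So `M ≤ G.d W = ed G W ∅ ≤ ed G U T +
T.card * cm1 t ≤ cm0 t + cm0 t * cm1 t < M`. -/

set_option autoImplicit false

namespace Pool.Agent.W2411si

open Pool.Agent.W2411c4

variable {Q : Type}

open Gr

theorem F_conn {G : Gr Q} {B : Finset ℕ} {t M : ℕ} (hSF : SF G B t) (ht : 1 ≤ t) (hB : Bk G B M)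
    (hM : cM0 t ≤ M) (hM' : cm0 t + cm0 t * cm1 t < M) :
    ∀ x ∈ B, ∀ y ∈ B, FC G B t ∅ x y := by
  classical
  intro x hx y hy
  by_contra hn
  let B2 : Finset ℕ := B.filter fun v => ¬ FC G B t ∅ x v
  have memB2 : ∀ v, v ∈ B2 ↔ v ∈ B ∧ ¬ FC G B t ∅ x v := by simp [B2]
  have hy2 : y ∈ B2 := (memB2 y).2 ⟨hy, hn⟩
  have hx2 : x ∉ B2 := fun h => ((memB2 x).1 h).2 Relation.ReflTransGen.refl
  have hB2B : B2 ⊆ B := Finset.filter_subset _ _
  obtain ⟨T, U, hT, hXU, hUT, hxU, hlt⟩ := fan (G := G) hSF ht hB2B hx hx2 (fun w hw =>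
    hB.lam (hB2B hw) hx (fun h => hx2 (h ▸ hw)) hM)
  have hFC : ∀ v, FC G B t ∅ x v → FC G B t B2 x v := by
    intro v hv
    induction hv with
    | refl => exact Relation.ReflTransGen.refl
    | @tail b c hab hbc ih =>
      refine Relation.ReflTransGen.tail ih ⟨hbc.1, ?_, ?_⟩
      · intro h
        exact ((memB2 b).1 h).2 hab
      · intro h
        exact ((memB2 c).1 h).2 (hab.tail hbc)
  have hB1 : ∀ v ∈ B, v ∈ U → v ∈ B2 := by
    intro v hv hvU
    refine (memB2 v).2 ⟨hv, fun hc => ?_⟩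
    have h1 := FC.cross (hFC v hc).symm hvU hxU (hT.trans hB2B) hT
    omega
  have hZ : ∀ v, ∃ Z : Finset ℕ, v ∈ B → v ∈ Z ∧ B ∩ Z = {v} ∧ ed G Z (FN G B t v) ≤ cm1 t := by
    intro v
    by_cases hv : v ∈ B
    · obtain ⟨-, Z, h⟩ := exists_Z hSF ht hB hM hv
      exact ⟨Z, fun _ => h⟩
    · exact ⟨∅, fun h => absurd h hv⟩
  choose Z hZ using hZ
  let W : Finset ℕ := U ∪ T.biUnion Z
  have hTW : T ⊆ W := by
    intro v hv
    exact Finset.mem_union_right _ (Finset.mem_biUnion.2 ⟨v, hv, (hZ v (hB2B (hT hv))).1⟩)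
  have hB2W : B2 ⊆ W := by
    intro v hv
    by_cases hvT : v ∈ T
    · exact hTW hvT
    · exact Finset.mem_union_left _ (hXU (Finset.mem_sdiff.2 ⟨hv, hvT⟩))
  have hxW : x ∉ W := by
    intro h
    rcases Finset.mem_union.1 h with h | h
    · exact hxU h
    · obtain ⟨v, hv, hxv⟩ := Finset.mem_biUnion.1 h
      have h1 : x ∈ B ∩ Z v := Finset.mem_inter.2 ⟨hx, hxv⟩
      rw [(hZ v (hB2B (hT hv))).2.1, Finset.mem_singleton] at h1
      exact hx2 (h1 ▸ hT hv)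
  have h1 : M ≤ G.d W := hB y hy x hx (fun h => hx2 (h ▸ hy2)) W (hB2W hy2) hxW
  have hFN : ∀ v ∈ T, FN G B t v ⊆ W := by
    intro v hv w hw
    apply hB2W
    have hF := mem_FN.1 hw
    refine (memB2 w).2 ⟨hF.2.1, fun hc => ?_⟩
    have hF' : Fa G B t w v ∧ w ∉ (∅ : Finset ℕ) ∧ v ∉ (∅ : Finset ℕ) :=
      ⟨hF.symm, by simp, by simp⟩
    exact ((memB2 v).1 (hT hv)).2 (Relation.ReflTransGen.tail hc hF')
  have h2 : ed G W ∅ ≤ ∑ i ∈ Finset.insertNone T,
      ed G (i.elim U Z) (i.elim T fun v => FN G B t v) := by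
    apply ebd_union
    intro e _ hlv
    obtain ⟨p, q, hp, hq, -, hep, heq⟩ := lv_iff.1 hlv
    rcases Finset.mem_union.1 hp with h | h
    · refine ⟨none, by simp, lv_iff.2 ⟨p, q, h, ?_, ?_, hep, heq⟩⟩
      · exact fun h' => hq (Finset.mem_union_left _ h')
      · exact fun h' => hq (hTW h')
    · obtain ⟨v, hv, hpv⟩ := Finset.mem_biUnion.1 h
      refine ⟨some v, by simpa using hv, lv_iff.2 ⟨p, q, hpv, ?_, ?_, hep, heq⟩⟩
      · exact fun h' => hq (Finset.mem_union_right _ (Finset.mem_biUnion.2 ⟨v, hv, h'⟩))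
      · exact fun h' => hq (hFN v hv h')
  rw [Finset.sum_insertNone] at h2
  have h3 : ∑ v ∈ T, ed G (Z v) (FN G B t v) ≤ T.card * cm1 t := by
    rw [← smul_eq_mul, ← Finset.sum_const]
    exact Finset.sum_le_sum fun v hv => (hZ v (hB2B (hT hv))).2.2
  have h4 : T.card * cm1 t ≤ cm0 t * cm1 t := Nat.mul_le_mul_right _ (by omega)
  rw [ed_empty] at h2
  simp only [Option.elim_none, Option.elim_some] at h2
  omega

end Pool.Agent.W2411si
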