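import Pool.Agent.W_2411c4_h26.Cuts
import Pool.Agent.W_895653_h19.MengerB

/-! Menger's theorem with sinks `S` of capacity `c`, which cannot be passed.

Proof of `flow_cap`: apply `Pool.Agent.W895653.menger_thm` to the digraph with vertex set
`{e // e ∈ G.E} ⊕ ({b // b ∈ S} × Fin c)`; arcs: `inl e → inl f` iff `e` has no end in `S` and `e`, `f`
have a common end; `inl e → inr (b, i)` iff `b` is an end of `e`; no arcs from `inr`; sources `inl e`
with `z` an end of `e`, sinks all `inr (b, i)`.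
Separators: let `Σ` be a set of fewer than `N` nodes which meets all paths, `R` the set of nodes
reachable from a source outside `Σ`, `U := {z} ∪ {v ∉ S, v is an end of some e in R without ends in
S}` (a finite set), `T := {b ∈ S, all (b, i) ∈ Σ}`. Then `z ∈ U`, `U` is disjoint from `S`, and every
edge of `ebd G U T` is in `Σ`, so `c * T.card + ed G U T ≤ Σ.card < N`, a contradiction.
Reading off: the path number `i` is `inl e_0, ..., inl e_m, inr (b, j)`; `P i` is the set of these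
edges; only the last edge has an end in `S`, and this is exactly one, namely `b` (it has a common end
with an edge without ends in `S`, or the end `z`). (See `W_2411c4_h59/Link.lean` for a similar use of
`menger_thm`.) -/

set_option autoImplicit false

namespace Pool.Agent.W2411si

open Pool.Agent.W2411c4

variable {Q : Type}

open Gr

theorem flow_cap {G : Gr Q} {S : Finset ℕ} {z c N : ℕ} (hz : z ∉ S)
    (h : ∀ U T : Finset ℕ, z ∈ U → Disjoint U S → T ⊆ S → N ≤ c * T.card + ed G U T) :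
    ∃ (P : ℕ → Set ℕ) (en : ℕ → ℕ), (∀ i < N, en i ∈ S) ∧
      (∀ b ∈ S, ((Finset.range N).filter fun i => en i = b).card ≤ c) ∧
      (∀ i < N, ∀ f ∈ P i, f ∈ G.E ∧ ∀ s ∈ S, G.Inc f s → s = en i) ∧
      (∀ i < N, G.Conn (P i) z (en i)) ∧
      (∀ i < N, ∀ j < N, i ≠ j → Disjoint (P i) (P j)) := by
  classical
  let V : Type := {e // e ∈ G.E} ⊕ ({b // b ∈ S} × Fin c)
  let fr : ℕ → Prop := fun e => ∀ s ∈ S, ¬ G.Inc e s
  let D : V → V → Prop := fun x y => match x, y with
    | .inl e, .inl f => fr e.1 ∧ ∃ v, G.Inc e.1 v ∧ G.Inc f.1 v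
    | .inl e, .inr b => G.Inc e.1 b.1.1
    | .inr _, _ => False
  let A : Finset V := Finset.univ.filter fun x => ∃ e, x = .inl e ∧ G.Inc e.1 z
  let B : Finset V := Finset.univ.filter fun x => ∃ b, x = .inr b
  have memA : ∀ x : V, x ∈ A ↔ ∃ e, x = .inl e ∧ G.Inc e.1 z := by simp [A]
  have memB : ∀ x : V, x ∈ B ↔ ∃ b, x = .inr b := by simp [B]
  have hM : Nonempty (Pool.Agent.W895653.Lk D A B N) := by
    apply Pool.Agent.W895653.menger_thm
    intro Sg hSg
    by_contra hcon
    let R : V → Prop := fun e => ∃ a ∈ A, a ∉ Sg ∧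
      Relation.ReflTransGen (fun x y => D x y ∧ y ∉ Sg) a e
    let U : Finset ℕ := insert z ((vs G).filter fun v => v ∉ S ∧
      ∃ e : {e // e ∈ G.E}, R (.inl e) ∧ fr e.1 ∧ G.Inc e.1 v)
    let T : Finset ℕ := S.filter fun b => ∀ (hb : b ∈ S) (i : Fin c), (.inr (⟨b, hb⟩, i) : V) ∈ Sg
    have hvs : ∀ e ∈ G.E, ∀ v, G.Inc e v → v ∈ vs G := by
      intro e he v hv
      rcases hv with rfl | rfl
      · exact Finset.mem_union_left _ (Finset.mem_image_of_mem _ he)
      · exact Finset.mem_union_right _ (Finset.mem_image_of_mem _ he)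
    have hUS : Disjoint U S := by
      rw [Finset.disjoint_left]
      intro v hv hvS
      rcases Finset.mem_insert.1 hv with rfl | hv
      · exact hz hvS
      · exact (Finset.mem_filter.1 hv).2.1 hvS
    have hbd : ∀ e ∈ ebd G U T, ∃ he : e ∈ G.E, (.inl ⟨e, he⟩ : V) ∈ Sg := by
      intro e he
      obtain ⟨heE, hlv⟩ := mem_ebd.1 he
      obtain ⟨p, q, hpU, hqU, hqT, hep, heq⟩ := lv_iff.1 hlv
      refine ⟨heE, ?_⟩
      by_contra heS
      have hpq : p ≠ q := fun hpq => hqU (hpq ▸ hpU)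
      have hR : R (.inl ⟨e, heE⟩) := by
        rcases Finset.mem_insert.1 hpU with rfl | hp
        · exact ⟨_, (memA _).2 ⟨⟨e, heE⟩, rfl, hep⟩, heS, Relation.ReflTransGen.refl⟩
        · obtain ⟨-, -, e', ⟨a, haA, haS, hr⟩, hf, hi⟩ := Finset.mem_filter.1 hp
          exact ⟨a, haA, haS, hr.tail ⟨⟨hf, p, hi, hep⟩, heS⟩⟩
      by_cases hqS : q ∈ S
      · have : ∃ i : Fin c, (.inr (⟨q, hqS⟩, i) : V) ∉ Sg := by
          by_contra hno
          push Not at hno
          exact hqT (Finset.mem_filter.2 ⟨hqS, fun _ i => hno i⟩)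
        obtain ⟨i, hi⟩ := this
        obtain ⟨a, haA, haS, hr⟩ := hR
        exact hcon ⟨a, haA, haS, .inr (⟨q, hqS⟩, i), (memB _).2 ⟨_, rfl⟩, hi,
          hr.tail ⟨heq, hi⟩⟩
      · apply hqU
        refine Finset.mem_insert_of_mem (Finset.mem_filter.2 ⟨hvs e heE q heq, hqS,
          ⟨e, heE⟩, hR, ?_, heq⟩)
        intro s hs hes
        have hpS : p ∉ S := fun h' => Finset.disjoint_left.1 hUS hpU h'
        have : s = p ∨ s = q := by
          unfold Gr.Inc at hep heq hes
          rcases hep with rfl | rfl <;> rcases heq with rfl | rfl <;> rcases hes with rfl | rfl <;>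
            first | tauto | exact absurd rfl hpq
        rcases this with rfl | rfl
        · exact hpS hs
        · exact hqS hs
    have hcard : ed G U T + T.card * c ≤ Sg.card := by
      let g : V → ℕ ⊕ (ℕ × Fin c) := Sum.map (fun e => e.1) (fun x => (x.1.1, x.2))
      have h1 : (ebd G U T).disjSum (T ×ˢ (Finset.univ : Finset (Fin c))) ⊆ Sg.image g := by
        intro x hx
        rw [Finset.mem_disjSum] at hx
        rcases hx with ⟨e, he, rfl⟩ | ⟨⟨b, i⟩, hb, rfl⟩
        · obtain ⟨heE, hes⟩ := hbd e he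
          exact Finset.mem_image.2 ⟨_, hes, rfl⟩
        · obtain ⟨hbS, hb'⟩ := Finset.mem_filter.1 (Finset.mem_product.1 hb).1
          exact Finset.mem_image.2 ⟨_, hb' hbS i, rfl⟩
      have h2 := (Finset.card_le_card h1).trans Finset.card_image_le
      rw [Finset.card_disjSum, Finset.card_product, Finset.card_univ, Fintype.card_fin] at h2
      exact h2
    have h3 := h U T (Finset.mem_insert_self _ _) hUS (Finset.filter_subset _ _)
    rw [mul_comm] at h3
    omega
  obtain ⟨L⟩ := hM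
  -- the shape of the paths
  have hnr : ∀ j n, n < L.len j → ∃ e, L.p j n = .inl e := by
    intro j n hn
    have h1 := L.step j n hn
    cases h2 : L.p j n with
    | inl e => exact ⟨e, rfl⟩
    | inr b => rw [h2] at h1; exact absurd h1 (by simp [D])
  have hst : ∀ j, ∃ b, L.p j (L.len j) = .inr b := fun j => (memB _).1 (L.stop j)
  choose bb hbb using hst
  have hpos : ∀ j, 0 < L.len j := by
    intro j
    rcases Nat.eq_zero_or_pos (L.len j) with h0 | h0
    · obtain ⟨e, he, _⟩ := (memA _).1 (L.start j)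
      have h1 := hbb j
      rw [h0, he] at h1
      cases h1
    · exact h0
  let en : ℕ → ℕ := fun i => if hi : i < N then (bb ⟨i, hi⟩).1.1 else 0
  let P : ℕ → Set ℕ := fun i => {f | ∃ hi : i < N, ∃ n, n < L.len ⟨i, hi⟩ ∧
    ∃ hf : f ∈ G.E, L.p ⟨i, hi⟩ n = .inl ⟨f, hf⟩}
  have hen : ∀ i (hi : i < N), en i = (bb ⟨i, hi⟩).1.1 := fun i hi => by simp only [en, dif_pos hi]
  refine ⟨P, en, ?_, ?_, ?_, ?_, ?_⟩
  · intro i hi
    rw [hen i hi]
    exact (bb ⟨i, hi⟩).1.2
  · intro b hb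
    let g : ℕ → ℕ := fun i => if hi : i < N then (bb ⟨i, hi⟩).2.1 else 0
    have h1 : ((Finset.range N).filter fun i => en i = b).card ≤ (Finset.range c).card := by
      refine Finset.card_le_card_of_injOn g ?_ ?_
      · intro i hi
        have hi' := Finset.mem_range.1 (Finset.mem_filter.1 hi).1
        simp only [g, dif_pos hi', Finset.coe_range, Set.mem_Iio]
        exact (bb ⟨i, hi'⟩).2.2
      · intro i hi j hj hij
        obtain ⟨hi1, hi2⟩ := Finset.mem_filter.1 hi
        obtain ⟨hj1, hj2⟩ := Finset.mem_filter.1 hj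
        have hi' := Finset.mem_range.1 hi1
        have hj' := Finset.mem_range.1 hj1
        simp only [g, dif_pos hi', dif_pos hj'] at hij
        have h2 : bb ⟨i, hi'⟩ = bb ⟨j, hj'⟩ := by
          refine Prod.ext (Subtype.ext ?_) (Fin.ext hij)
          rw [← hen i hi', ← hen j hj', hi2, hj2]
        have h3 : L.p ⟨i, hi'⟩ (L.len ⟨i, hi'⟩) = L.p ⟨j, hj'⟩ (L.len ⟨j, hj'⟩) := by
          rw [hbb, hbb, h2]
        have h4 := (L.inj _ _ _ _ le_rfl le_rfl h3).1
        exact congrArg Fin.val h4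
    rwa [Finset.card_range] at h1
  · rintro i hi f ⟨hi', n, hn, hf, hp⟩
    refine ⟨hf, ?_⟩
    intro s hs hfs
    have h1 := L.step ⟨i, hi'⟩ n hn
    rw [hp] at h1
    rcases Nat.lt_or_ge (n + 1) (L.len ⟨i, hi'⟩) with h2 | h2
    · obtain ⟨e, he⟩ := hnr ⟨i, hi'⟩ (n + 1) h2
      rw [he] at h1
      exact absurd hfs (h1.1 s hs)
    · have h3 : n + 1 = L.len ⟨i, hi'⟩ := by omega
      rw [h3, hbb] at h1
      have h4 : G.Inc f (bb ⟨i, hi'⟩).1.1 := h1
      have h5 : ∃ v, v ∉ S ∧ G.Inc f v := by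
        rcases Nat.eq_zero_or_pos n with h0 | h0
        · subst h0
          obtain ⟨e, he, hez⟩ := (memA _).1 (L.start ⟨i, hi'⟩)
          rw [hp] at he
          have h6 := Sum.inl.inj he
          exact ⟨z, hz, by rw [← h6] at hez; exact hez⟩
        · obtain ⟨m, rfl⟩ : ∃ m, n = m + 1 := ⟨n - 1, by omega⟩
          have h6 := L.step ⟨i, hi'⟩ m (by omega)
          obtain ⟨e, he⟩ := hnr ⟨i, hi'⟩ m (by omega)
          rw [he, hp] at h6
          obtain ⟨h7, v, h8, h9⟩ := h6
          exact ⟨v, fun hv => h7 v hv h8, h9⟩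
      obtain ⟨v, hvS, hfv⟩ := h5
      rw [hen i hi]
      have h6 : v ≠ (bb ⟨i, hi'⟩).1.1 := fun h' => hvS (h' ▸ (bb ⟨i, hi'⟩).1.2)
      have h7 : s ≠ v := fun h' => hvS (h' ▸ hs)
      generalize (bb ⟨i, hi'⟩).1.1 = w at h4 h6 ⊢
      unfold Gr.Inc at hfs h4 hfv
      rcases hfs with rfl | rfl <;> rcases h4 with rfl | rfl <;> rcases hfv with rfl | rfl <;>
        first | rfl | exact absurd rfl h6 | exact absurd rfl h7
  · intro i hi
    have h1 : ∀ n, n < L.len ⟨i, hi⟩ → ∀ (e : {e // e ∈ G.E}), L.p ⟨i, hi⟩ n = .inl e →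
        ∀ x, G.Inc e.1 x → G.Conn (P i) z x := by
      intro n
      induction n with
      | zero =>
        intro hn e he x hx
        obtain ⟨e', he', hez⟩ := (memA _).1 (L.start ⟨i, hi⟩)
        rw [he] at he'
        have h6 := Sum.inl.inj he'
        rw [← h6] at hez
        exact conn_edge (e := e.1) ⟨hi, 0, hn, e.2, he⟩ hez hx
      | succ n ih =>
        intro hn e he x hx
        obtain ⟨e', he'⟩ := hnr ⟨i, hi⟩ n (by omega)
        have h6 := L.step ⟨i, hi⟩ n (by omega)
        rw [he, he'] at h6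
        obtain ⟨h7, v, h8, h9⟩ := h6
        exact (ih (by omega) e' he' v h8).trans (conn_edge (e := e.1) ⟨hi, n + 1, hn, e.2, he⟩ h9 hx)
    obtain ⟨m, hm⟩ : ∃ m, L.len ⟨i, hi⟩ = m + 1 := ⟨L.len ⟨i, hi⟩ - 1, by have := hpos ⟨i, hi⟩; omega⟩
    obtain ⟨e, he⟩ := hnr ⟨i, hi⟩ m (by omega)
    have h2 := L.step ⟨i, hi⟩ m (by omega)
    rw [← hm, he, hbb] at h2
    rw [hen i hi]
    exact h1 m (by omega) e he _ h2
  · intro i hi j hj hij
    rw [Set.disjoint_left]
    rintro f ⟨hi', n, hn, hf, hp⟩ ⟨hj', n', hn', hf', hp'⟩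
    have h1 : L.p ⟨i, hi'⟩ n = L.p ⟨j, hj'⟩ n' := by rw [hp, hp']
    exact hij (congrArg Fin.val (L.inj _ _ _ _ hn.le hn'.le h1).1)

end Pool.Agent.W2411si
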