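import Pool.Agent.W_2411c4_h26.Slab2

/-! The levels of a closed graph with hubs `b 0, ..., b N`. -/

set_option autoImplicit false

namespace Pool.Agent.W2411si

open Pool.Agent.W2411c4

variable {Q : Type}

open Gr

/-- `L i` (`1 ≤ i ≤ N`) is a best set which contains exactly the hubs `b j` with `j < i` -/
structure Lev (G : Gr Q) (V0 : Finset ℕ) (N : ℕ) (b : ℕ → ℕ) where
  L : ℕ → Finset ℕ
  zero : L 0 = ∅
  last : L (N + 1) = V0
  sub : ∀ i, i ≤ N + 1 → L i ⊆ V0
  pat : ∀ i, i ≤ N + 1 → ∀ j, j ≤ N → (b j ∈ L i ↔ j < i)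
  best : ∀ i, i ≤ N + 1 → ∀ U : Finset ℕ, U ⊆ V0 → (∀ j, j ≤ N → (b j ∈ U ↔ j < i)) →
    G.d (L i) ≤ G.d U
  mono : ∀ i, i ≤ N → L i ⊆ L (i + 1)

/-- Proof: for `1 ≤ i ≤ N` choose among the sets `U ⊆ V0` with the pattern `b j ∈ U ↔ j < i` (for
instance the set of these hubs; `hinj`) one with least `G.d U`, and among these one with least
cardinality. `L 0 := ∅`, `L (N + 1) := V0` (both have `G.d = 0`, `d V0 = 0` as `V0` is closed). Monotone
for `1 ≤ i < N`: `L i ∩ L (i + 1)` has the pattern `i`, `L i ∪ L (i + 1)` the pattern `i + 1`; `d_sub`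
and the least cardinality of `L i` give `L i ∩ L (i + 1) = L i`. -/
theorem exists_lev {G : Gr Q} {V0 : Finset ℕ} (hc : Closed G V0) {N : ℕ} {b : ℕ → ℕ}
    (hb : ∀ j, j ≤ N → b j ∈ V0) (hinj : ∀ i j, i ≤ N → j ≤ N → b i = b j → i = j) :
    Nonempty (Lev G V0 N b) := by
  classical
  -- the candidates
  let Cd : ℕ → Finset (Finset ℕ) := fun i =>
    V0.powerset.filter (fun U => ∀ j, j ≤ N → (b j ∈ U ↔ j < i))
  have hCd : ∀ i U, U ∈ Cd i ↔ U ⊆ V0 ∧ ∀ j, j ≤ N → (b j ∈ U ↔ j < i) := by
    intro i U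
    simp only [Cd, Finset.mem_filter, Finset.mem_powerset]
  have hne : ∀ i, (Cd i).Nonempty := by
    intro i
    refine ⟨((Finset.range (N + 1)).filter (fun k => k < i)).image b, (hCd _ _).2 ⟨?_, ?_⟩⟩
    · intro v hv
      rw [Finset.mem_image] at hv
      obtain ⟨k, hk, rfl⟩ := hv
      rw [Finset.mem_filter, Finset.mem_range] at hk
      exact hb k (by omega)
    · intro j hj
      rw [Finset.mem_image]
      constructor
      · rintro ⟨k, hk, hkj⟩
        rw [Finset.mem_filter, Finset.mem_range] at hk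
        have h1 := hinj k j (by omega) hj hkj
        omega
      · intro hji
        exact ⟨j, Finset.mem_filter.2 ⟨Finset.mem_range.2 (by omega), hji⟩, rfl⟩
  have hmin : ∀ i, ∃ M ∈ Cd i, ∀ U ∈ Cd i,
      G.d M * (V0.card + 1) + M.card ≤ G.d U * (V0.card + 1) + U.card := fun i =>
    Finset.exists_min_image (Cd i) (fun U => G.d U * (V0.card + 1) + U.card) (hne i)
  choose M hM1 hM2 using hmin
  have hcardM : ∀ i, ∀ U ∈ Cd i, U.card ≤ V0.card := fun i U hU =>
    Finset.card_le_card ((hCd i U).1 hU).1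
  have hMbest : ∀ i, ∀ U ∈ Cd i, G.d (M i) ≤ G.d U := by
    intro i U hU
    by_contra hlt
    rw [not_le] at hlt
    have h1 := hM2 i U hU
    have h2 := hcardM i U hU
    have h3 : (G.d U + 1) * (V0.card + 1) ≤ G.d (M i) * (V0.card + 1) :=
      Nat.mul_le_mul_right _ hlt
    rw [add_mul, one_mul] at h3
    omega
  have hMcard : ∀ i, ∀ U ∈ Cd i, G.d U ≤ G.d (M i) → (M i).card ≤ U.card := by
    intro i U hU hle
    have h1 := hM2 i U hU
    have h2 := hMbest i U hU
    have h3 : G.d U = G.d (M i) := le_antisymm hle h2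
    rw [h3] at h1
    omega
  have hd0 : G.d ∅ = 0 := by
    unfold Gr.d Gr.bd
    rw [Finset.card_eq_zero, Finset.filter_eq_empty_iff]
    intro e _ hcr
    unfold Gr.Cross at hcr
    simp at hcr
  have hdV : G.d V0 = 0 := by
    have h1 := d_compl hc (Finset.Subset.refl V0)
    rw [Finset.sdiff_self] at h1
    omega
  have hMmono : ∀ i, M i ⊆ M (i + 1) := by
    intro i
    have h1 := (hCd _ _).1 (hM1 i)
    have h2 := (hCd _ _).1 (hM1 (i + 1))
    have hA : M i ∩ M (i + 1) ∈ Cd i := by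
      refine (hCd _ _).2 ⟨Finset.inter_subset_left.trans h1.1, fun j hj => ?_⟩
      rw [Finset.mem_inter, h1.2 j hj, h2.2 j hj]
      omega
    have hB : M i ∪ M (i + 1) ∈ Cd (i + 1) := by
      refine (hCd _ _).2 ⟨Finset.union_subset h1.1 h2.1, fun j hj => ?_⟩
      rw [Finset.mem_union, h1.2 j hj, h2.2 j hj]
      omega
    have h3 := d_sub G (M i) (M (i + 1))
    have h4 := hMbest (i + 1) _ hB
    have h5 := hMcard i _ hA (by omega)
    have h6 := Finset.eq_of_subset_of_card_le Finset.inter_subset_left h5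
    rw [← h6]
    exact Finset.inter_subset_right
  refine ⟨{
    L := fun i => if i = 0 then ∅ else if i = N + 1 then V0 else M i
    zero := by simp
    last := by simp
    sub := ?_
    pat := ?_
    best := ?_
    mono := ?_ }⟩
  · intro i _
    by_cases h0 : i = 0
    · simp [h0]
    · by_cases h1 : i = N + 1
      · simp [h1]
      · simp only [h0, h1, if_false]
        exact ((hCd _ _).1 (hM1 i)).1
  · intro i hi j hj
    by_cases h0 : i = 0
    · simp [h0]
    · by_cases h1 : i = N + 1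
      · have h2 := hb j hj
        simp only [h1, Nat.succ_ne_zero, if_false, if_true, h2, true_iff]
        omega
      · simp only [h0, h1, if_false]
        exact ((hCd _ _).1 (hM1 i)).2 j hj
  · intro i hi U hU hp
    by_cases h0 : i = 0
    · simp only [h0, if_true, hd0]
      exact Nat.zero_le _
    · by_cases h1 : i = N + 1
      · simp only [h1, Nat.succ_ne_zero, if_false, if_true, hdV]
        exact Nat.zero_le _
      · simp only [h0, h1, if_false]
        exact hMbest i U ((hCd _ _).2 ⟨hU, hp⟩)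
  · intro i hi
    by_cases h0 : i = 0
    · simp [h0]
    · have h1 : i ≠ N + 1 := by omega
      by_cases h2 : i = N
      · have h3 : i + 1 = N + 1 := by omega
        simp only [h0, h1, h3, Nat.succ_ne_zero, if_false, if_true]
        exact ((hCd _ _).1 (hM1 i)).1
      · have h3 : i + 1 ≠ N + 1 := by omega
        simp only [h0, h1, h3, Nat.succ_ne_zero, if_false]
        exact hMmono i

/-- Proof: `slab` with the hub `b i`; a set between `L i` and `L (i + 1)` has the pattern `i` if it does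
not contain `b i`, otherwise the pattern `i + 1`. -/
theorem Lev.slab {G : Gr Q} {V0 : Finset ℕ} (hc : Closed G V0) {N : ℕ} {b : ℕ → ℕ}
    (v : Lev G V0 N b) {i : ℕ} (hi : i ≤ N) : Nonempty (Slab G (v.L i) (v.L (i + 1)) (b i)) := by
  have hi1 : i ≤ N + 1 := by omega
  have hi2 : i + 1 ≤ N + 1 := by omega
  have h1 : b i ∈ v.L (i + 1) := (v.pat (i + 1) hi2 i hi).2 (by omega)
  have h2 : b i ∉ v.L i := fun h => absurd ((v.pat i hi1 i hi).1 h) (by omega)
  refine Pool.Agent.W2411si.slab hc (v.sub (i + 1) hi2) (v.mono i hi)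
    (Finset.mem_sdiff.2 ⟨h1, h2⟩) ?_ ?_
  · intro U hLU hUL hbU
    refine v.best i hi1 U (hUL.trans (v.sub (i + 1) hi2)) ?_
    intro j hj
    constructor
    · intro hjU
      have h3 := (v.pat (i + 1) hi2 j hj).1 (hUL hjU)
      have h4 : j ≠ i := fun h => hbU (h ▸ hjU)
      omega
    · intro hji
      exact hLU ((v.pat i hi1 j hj).2 hji)
  · intro U hLU hUL hbU
    refine v.best (i + 1) hi2 U (hUL.trans (v.sub (i + 1) hi2)) ?_
    intro j hj
    constructor
    · intro hjU
      exact (v.pat (i + 1) hi2 j hj).1 (hUL hjU)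
    · intro hji
      by_cases h4 : j = i
      · rw [h4]
        exact hbU
      · exact hLU ((v.pat i hi1 j hj).2 (by omega))

theorem levels_g_sum (G : Gr Q) (X : Finset ℕ) (x : ℕ) :
    (G.E.filter fun e => G.Cross X e ∧ ¬ G.Inc e x).card =
      ∑ e ∈ G.E, if G.Cross X e ∧ ¬ G.Inc e x then 1 else 0 := by
  rw [Finset.card_filter]

theorem levels_sub1 (G : Gr Q) {A B : Finset ℕ} {x : ℕ} (hA : x ∉ A) (hB : x ∉ B) :
    G.d (A ∩ B) + (G.E.filter fun e => G.Cross (A ∪ B) e ∧ ¬ G.Inc e x).card ≤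
      (G.E.filter fun e => G.Cross A e ∧ ¬ G.Inc e x).card + G.d B := by
  simp only [d_eq_sum, levels_g_sum, ← Finset.sum_add_distrib]
  apply Finset.sum_le_sum
  intro e _
  unfold Gr.Cross
  by_cases h0 : G.Inc e x
  · simp only [h0, not_true_eq_false, and_false, if_false, add_zero, zero_add]
    simp only [Finset.mem_inter]
    rcases h0 with h | h
    · rw [h] at hA hB
      by_cases h3 : G.b e ∈ A <;> by_cases h4 : G.b e ∈ B <;> simp [hA, hB, h3, h4]
    · rw [h] at hA hB
      by_cases h3 : G.a e ∈ A <;> by_cases h4 : G.a e ∈ B <;> simp [hA, hB, h3, h4]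
  · simp only [h0, not_false_eq_true, and_true]
    simp only [Finset.mem_inter, Finset.mem_union]
    by_cases h1 : G.a e ∈ A <;> by_cases h2 : G.a e ∈ B <;> by_cases h3 : G.b e ∈ A <;>
      by_cases h4 : G.b e ∈ B <;> simp [h1, h2, h3, h4]

theorem levels_sub2 (G : Gr Q) {A B : Finset ℕ} {x : ℕ} (hA : x ∉ A) (hB : x ∈ B) :
    (G.E.filter fun e => G.Cross (A ∩ B) e ∧ ¬ G.Inc e x).card + G.d (A ∪ B) ≤
      (G.E.filter fun e => G.Cross A e ∧ ¬ G.Inc e x).card + G.d B := by
  simp only [d_eq_sum, levels_g_sum, ← Finset.sum_add_distrib]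
  apply Finset.sum_le_sum
  intro e _
  unfold Gr.Cross
  by_cases h0 : G.Inc e x
  · simp only [h0, not_true_eq_false, and_false, if_false, add_zero, zero_add]
    simp only [Finset.mem_union]
    rcases h0 with h | h
    · rw [h] at hA hB
      by_cases h3 : G.b e ∈ A <;> by_cases h4 : G.b e ∈ B <;> simp [hA, hB, h3, h4]
    · rw [h] at hA hB
      by_cases h3 : G.a e ∈ A <;> by_cases h4 : G.a e ∈ B <;> simp [hA, hB, h3, h4]
  · simp only [h0, not_false_eq_true, and_true]
    simp only [Finset.mem_inter, Finset.mem_union]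
    by_cases h1 : G.a e ∈ A <;> by_cases h2 : G.a e ∈ B <;> by_cases h3 : G.b e ∈ A <;>
      by_cases h4 : G.b e ∈ B <;> simp [h1, h2, h3, h4]

/-- If `V` contains exactly the hubs `b j` with `j < i`, then there is such a set `V'` between `L i` and
`L (i + 1)` with at most as many edges which cross it and are not incident with `b i`.
Proof: `V' := (V ∪ L i) ∩ L (i + 1)`. For a set `X` let `g X` be the number of edges which cross `X` and
are not incident with `b i`. `g` is submodular and posimodular in the cases needed: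
`g (V ∩ L i) + ...`. First `d (V ∩ L i) + g (V ∪ L i) ≤ g V + d (L i)` (edges: case distinction; use
`b i ∉ V`, `b i ∉ L i`, so an edge at `b i` which crosses `V ∩ L i` also crosses `L i`), and
`d (L i) ≤ d (V ∩ L i)`, so `g (V ∪ L i) ≤ g V`. Then `g (V1 ∩ L (i+1)) + d (V1 ∪ L (i+1)) ≤ g V1 +
d (L (i+1))` for `V1 := V ∪ L i` (an edge at `b i` which crosses `V1 ∪ L (i+1)` crosses `L (i+1)`,
because `b i ∈ L (i+1)`), and `d (L (i+1)) ≤ d (V1 ∪ L (i+1))`. -/
theorem Lev.squeeze {G : Gr Q} {V0 : Finset ℕ} {N : ℕ} {b : ℕ → ℕ}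
    (v : Lev G V0 N b) {i : ℕ} (hi : i ≤ N) {V : Finset ℕ} (hV : V ⊆ V0)
    (hp : ∀ j, j ≤ N → (b j ∈ V ↔ j < i)) :
    ∃ V' : Finset ℕ, v.L i ⊆ V' ∧ V' ⊆ v.L (i + 1) ∧ b i ∉ V' ∧
      (G.E.filter fun e => G.Cross V' e ∧ ¬ G.Inc e (b i)).card ≤
        (G.E.filter fun e => G.Cross V e ∧ ¬ G.Inc e (b i)).card := by
  classical
  have hi1 : i ≤ N + 1 := by omega
  have hi2 : i + 1 ≤ N + 1 := by omega
  have hbV : b i ∉ V := fun h => absurd ((hp i hi).1 h) (by omega)
  have hbL : b i ∉ v.L i := fun h => absurd ((v.pat i hi1 i hi).1 h) (by omega)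
  have hbL' : b i ∈ v.L (i + 1) := (v.pat (i + 1) hi2 i hi).2 (by omega)
  refine ⟨(V ∪ v.L i) ∩ v.L (i + 1), ?_, Finset.inter_subset_right, ?_, ?_⟩
  · exact Finset.subset_inter Finset.subset_union_right (v.mono i hi)
  · intro h
    rcases Finset.mem_union.1 (Finset.mem_inter.1 h).1 with h | h
    · exact hbV h
    · exact hbL h
  · have h1 := levels_sub1 G hbV hbL
    have h2 : G.d (v.L i) ≤ G.d (V ∩ v.L i) := by
      refine v.best i hi1 _ (Finset.inter_subset_left.trans hV) ?_
      intro j hj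
      rw [Finset.mem_inter, hp j hj, v.pat i hi1 j hj]
      omega
    have h3 := levels_sub2 G (A := V ∪ v.L i) (B := v.L (i + 1)) (x := b i)
      (fun h => (Finset.mem_union.1 h).elim hbV hbL) hbL'
    have h4 : G.d (v.L (i + 1)) ≤ G.d ((V ∪ v.L i) ∪ v.L (i + 1)) := by
      refine v.best (i + 1) hi2 _ (Finset.union_subset (Finset.union_subset hV (v.sub i hi1))
        (v.sub (i + 1) hi2)) ?_
      intro j hj
      rw [Finset.mem_union, Finset.mem_union, hp j hj, v.pat i hi1 j hj,
        v.pat (i + 1) hi2 j hj]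
      omega
    omega

end Pool.Agent.W2411si
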