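import Pool.Agent.W_2411c4_h26.SgDef

/-! The segment between two cut hubs of a path.

Proof of `mk_sg`: `X i := v.V (l + i) \ A'`, `b i := p.b (l + i)`. `hubs`: `B ∩ V (l+n+1)` is
`{p.b 1, ..., p.b (l+n)}`, `B ∩ V l` is `{p.b 1, ..., p.b (l-1)}` (`v.int`), and `p.b l ∈ A'` if
`l ≥ 1`; use `hmem`, `p.inj`. Orders: an edge from `V (l+i) \ A'` to the complement of
`(V (l+i) \ A') ∪ insert (b i) A'` goes from `V (l+i)` to the complement of
`V (l+i) ∪ insert (b i) A` (its outer end is not in `A'`, hence not in `V (l+i)`), so `v.ord` gives `ord`;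
`ord0`: `V 0 = ∅` if `l = 0`, otherwise `v.ord l` with `p.b l ∈ A'`; `ord1`: `v.ord1` if `l + n = p.n`,
otherwise `v.ord (l + n + 1)` with `p.b (l + n + 1) ∈ A'`. -/

set_option autoImplicit false

namespace Pool.Agent.W2411si

open Pool.Agent.W2411c4

variable {Q : Type}

open Gr

private theorem mksg_ed {G : Gr Q} {V A' T T' : Finset ℕ} {m : ℕ} (hA : A' ⊆ T') (hT : T ⊆ T')
    (h : ed G V T ≤ m) : ed G (V \ A') T' ≤ m := by
  refine le_trans (Finset.card_le_card ?_) h
  intro e he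
  rw [mem_ebd, lv_iff] at he ⊢
  obtain ⟨heE, x, y, hx, hy, hyT, hex, hey⟩ := he
  refine ⟨heE, x, y, (Finset.mem_sdiff.1 hx).1, ?_, fun h' => hyT (hT h'), hex, hey⟩
  intro hyV
  exact hy (Finset.mem_sdiff.2 ⟨hyV, fun h' => hyT (hA h')⟩)

theorem mk_sg {G : Gr Q} {B A A' : Finset ℕ} {t Θ : ℕ} (hAA : A ⊆ A') (hA'B : A' ⊆ B)
    {p : Pth B A (FN G B t)} (v : NV G B A t p) {l n : ℕ} (hn : l + n ≤ p.n)
    (hl : l = 0 ∨ p.b l ∈ A') (hr : l + n = p.n ∨ p.b (l + n + 1) ∈ A')
    (hmem : ∀ k, l < k → k ≤ l + n → p.b k ∉ A')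
    (hw : ∀ k, l < k → k < l + n → ¬ Wk G B Θ (p.b k) (p.b (k + 1))) :
    ∃ s : Sg G B A' (ck t) Θ, s.R = (v.V (l + n + 1) \ v.V l) \ A' := by
  have hin : ∀ k i, 1 ≤ k → k < i → i ≤ p.n + 1 → p.b k ∈ v.V i := by
    intro k i h1 h2 h3
    have h4 : p.b k ∈ B ∩ v.V i := by
      rw [v.int i h3]
      exact Finset.mem_image_of_mem _ (Finset.mem_Icc.2 ⟨h1, by omega⟩)
    exact (Finset.mem_inter.1 h4).2
  have hB : ∀ k, 1 ≤ k → k ≤ p.n → p.b k ∈ B := fun k h1 h2 =>
    (Finset.mem_sdiff.1 (p.mem k h1 h2)).1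
  have hout : ∀ k i, 1 ≤ k → k ≤ p.n → i ≤ k → p.b k ∉ v.V i := by
    intro k i h1 h2 h3 h4
    have h5 : p.b k ∈ B ∩ v.V i := Finset.mem_inter.2 ⟨hB k h1 h2, h4⟩
    rw [v.int i (by omega)] at h5
    obtain ⟨j, hj, hjk⟩ := Finset.mem_image.1 h5
    rw [Finset.mem_Icc] at hj
    have h6 := p.inj j k hj.1 (by omega) h1 h2 hjk
    omega
  refine ⟨{
    n := n
    b := fun i => p.b (l + i)
    X := fun i => v.V (l + i) \ A'
    mono := ?_
    disA := ?_
    b_in := ?_
    b_out := ?_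
    hubs := ?_
    ord := ?_
    ord0 := ?_
    ord1 := ?_
    strong := ?_ }, ?_⟩
  · intro i hi
    exact Finset.sdiff_subset_sdiff (v.mono (l + i) (by omega)) (Finset.Subset.refl _)
  · intro i _
    exact Finset.sdiff_disjoint
  · intro i h1 h2
    exact Finset.mem_sdiff.2 ⟨hin (l + i) (l + (i + 1)) (by omega) (by omega) (by omega),
      hmem (l + i) (by omega) (by omega)⟩
  · intro i h1 h2 h3
    exact hout (l + i) (l + i) (by omega) (by omega) le_rfl (Finset.mem_sdiff.1 h3).1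
  · ext x
    simp only [Finset.mem_inter, Finset.mem_sdiff, Finset.mem_image, Finset.mem_Icc]
    constructor
    · rintro ⟨hxB, ⟨hxV, hxA⟩, hxn⟩
      have hxl : x ∉ v.V (l + 0) := fun h' => hxn ⟨h', hxA⟩
      have h5 : x ∈ B ∩ v.V (l + (n + 1)) := Finset.mem_inter.2 ⟨hxB, hxV⟩
      rw [v.int (l + (n + 1)) (by omega)] at h5
      obtain ⟨k, hk, rfl⟩ := Finset.mem_image.1 h5
      rw [Finset.mem_Icc] at hk
      have hkl : l < k := by
        by_contra hlt
        rcases Nat.lt_or_ge k l with h6 | h6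
        · exact hxl (hin k (l + 0) hk.1 (by omega) (by omega))
        · have h7 : k = l := by omega
          rcases hl with h8 | h8
          · omega
          · exact hxA (h7 ▸ h8)
      exact ⟨k - l, ⟨by omega, by omega⟩, by congr 1; omega⟩
    · rintro ⟨i, ⟨h1, h2⟩, rfl⟩
      refine ⟨hB (l + i) (by omega) (by omega), ⟨hin (l + i) (l + (n + 1)) (by omega) (by omega)
        (by omega), hmem (l + i) (by omega) (by omega)⟩, ?_⟩
      rintro ⟨h3, _⟩
      exact hout (l + i) (l + 0) (by omega) (by omega) (by omega) h3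
  · intro i h1 h2
    exact mksg_ed (Finset.subset_insert _ _) (Finset.insert_subset_insert _ hAA)
      (v.ord (l + i) (by omega) (by omega))
  · rcases Nat.eq_zero_or_pos l with h0 | h0
    · subst h0
      have h1 : v.V (0 + 0) \ A' = ∅ := by
        rw [Nat.add_zero, v.zero, Finset.empty_sdiff]
      rw [h1, ed_emptyset]
      exact Nat.zero_le _
    · have hl' : p.b l ∈ A' := by
        rcases hl with h1 | h1
        · omega
        · exact h1
      exact mksg_ed (Finset.Subset.refl _) (Finset.insert_subset hl' hAA)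
        (v.ord (l + 0) (by omega) (by omega))
  · rcases Nat.lt_or_ge (l + n) p.n with h0 | h0
    · have hr' : p.b (l + n + 1) ∈ A' := by
        rcases hr with h1 | h1
        · omega
        · exact h1
      exact mksg_ed (Finset.Subset.refl _) (Finset.insert_subset hr' hAA)
        (v.ord (l + n + 1) (by omega) (by omega))
    · have h1 : l + (n + 1) = p.n + 1 := by omega
      rw [h1]
      exact mksg_ed (Finset.Subset.refl _) hAA v.ord1
  · intro i h1 h2
    exact hw (l + i) (by omega) (by omega)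
  · unfold Sg.R
    ext x
    simp only [Finset.mem_sdiff]
    have h1 : l + (n + 1) = l + n + 1 := rfl
    have h2 : l + 0 = l := rfl
    rw [h1, h2]
    tauto

end Pool.Agent.W2411si
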