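import Pool.Agent.W_2411c4_h26.Cuts

/-! Minimal sets of least order and uncrossing. -/

set_option autoImplicit false

namespace Pool.Agent.W2411si

open Pool.Agent.W2411c4

variable {Q : Type}

open Gr

/-- `X` has the least order `ed G _ T` among the sets with the same trace on `B`, and the least
cardinality among these -/
def Mnl (G : Gr Q) (B T X : Finset ℕ) : Prop :=
  ∀ U : Finset ℕ, B ∩ U = B ∩ X → ed G X T ≤ ed G U T ∧ (ed G U T ≤ ed G X T → X.card ≤ U.card)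

theorem exists_mnl {G : Gr Q} {B P T : Finset ℕ} {k : ℕ}
    (h : ∃ U : Finset ℕ, B ∩ U = P ∧ ed G U T ≤ k) :
    ∃ X : Finset ℕ, B ∩ X = P ∧ ed G X T ≤ k ∧ Mnl G B T X := by
  classical
  obtain ⟨U0, hU0, hk⟩ := h
  have h1 : ∃ n, ∃ U : Finset ℕ, B ∩ U = P ∧ ed G U T = n := ⟨_, U0, hU0, rfl⟩
  obtain ⟨U1, hU1, hn1⟩ := Nat.find_spec h1
  have h2 : ∃ n, ∃ U : Finset ℕ, B ∩ U = P ∧ ed G U T ≤ Nat.find h1 ∧ U.card = n :=
    ⟨_, U1, hU1, hn1.le, rfl⟩
  obtain ⟨X, hX, hXn, hXc⟩ := Nat.find_spec h2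
  have hmin : ∀ U : Finset ℕ, B ∩ U = P → Nat.find h1 ≤ ed G U T := fun U hU =>
    Nat.find_min' h1 ⟨U, hU, rfl⟩
  refine ⟨X, hX, hXn.trans ((hmin U0 hU0).trans hk), ?_⟩
  intro U hU
  rw [hX] at hU
  refine ⟨hXn.trans (hmin U hU), fun hle => ?_⟩
  rw [hXc]
  exact Nat.find_min' h2 ⟨U, hU, hle.trans hXn, rfl⟩

theorem mnl_le {G : Gr Q} {B X Y T T' : Finset ℕ} (hX : Mnl G B T X) (hY : Mnl G B T' Y)
    (hXY : B ∩ X ⊆ Y) (hT' : T' ⊆ B) (hT : T ⊆ Y ∪ T') : X ⊆ Y := by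
  classical
  have h1 := hX (X ∩ Y) (by
    ext v
    simp only [Finset.mem_inter]
    constructor
    · tauto
    · rintro ⟨h1, h2⟩
      exact ⟨h1, h2, hXY (Finset.mem_inter.2 ⟨h1, h2⟩)⟩)
  have h2 := hY (X ∪ Y) (by
    ext v
    simp only [Finset.mem_inter, Finset.mem_union]
    constructor
    · rintro ⟨h1, h2 | h2⟩
      · exact ⟨h1, hXY (Finset.mem_inter.2 ⟨h1, h2⟩)⟩
      · exact ⟨h1, h2⟩
    · tauto)
  have h3 : ed G (X ∩ Y) T + ed G (X ∪ Y) T' ≤ ed G X T + ed G Y T' := by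
    apply ed_sub
    · intro v h1 h2
      simp only [Finset.mem_union, Finset.mem_inter] at h1 h2 ⊢
      rcases h1 with h1 | h1
      · rcases h2 with h2 | h2
        · exact Or.inl ⟨h1, h2⟩
        · exact Or.inl ⟨h1, hXY (Finset.mem_inter.2 ⟨hT' h2, h1⟩)⟩
      · exact Or.inr h1
    · intro v h1
      simp only [Finset.mem_union] at h1 ⊢
      rcases h1 with h1 | h1
      · rcases Finset.mem_union.1 (hT h1) with h2 | h2
        · exact Or.inl (Or.inr h2)
        · exact Or.inr h2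
      · exact Or.inr h1
  have h4 := h1.2 (by omega)
  have h5 : X ∩ Y = X := Finset.eq_of_subset_of_card_le Finset.inter_subset_left h4
  rw [← h5]
  exact Finset.inter_subset_right

theorem mnl_disj {G : Gr Q} {B X Y A : Finset ℕ} (hX : Mnl G B A X) (hY : Mnl G B A Y)
    (hXA : Disjoint X A) (hYA : Disjoint Y A) (hXY : Disjoint (B ∩ X) Y) : Disjoint X Y := by
  classical
  have hXY' : ∀ v, v ∈ B → v ∈ X → v ∉ Y := fun v h1 h2 h3 =>
    Finset.disjoint_left.1 hXY (Finset.mem_inter.2 ⟨h1, h2⟩) h3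
  have h1 := hX (X \ Y) (by
    ext v
    simp only [Finset.mem_inter, Finset.mem_sdiff]
    have := hXY' v
    tauto)
  have h2 := hY (Y \ X) (by
    ext v
    simp only [Finset.mem_inter, Finset.mem_sdiff]
    have := hXY' v
    tauto)
  have h3 := ed_pos (G := G) hXA hYA
  have h4 := h1.2 (by omega)
  have h5 : X \ Y = X := Finset.eq_of_subset_of_card_le Finset.sdiff_subset h4
  rw [← h5]
  exact Finset.sdiff_disjoint

end Pool.Agent.W2411si
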