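import Pool.Agent.W_2411c4_h26.MkSg

/-! The segments of a path, avoiding a finite set `D0`.

Proof of `path_segs`. The layers `E k := v.V (k + 1) \ v.V k`, `k = 0, ..., p.n` are disjoint; `p.b k` is
in the layer `k`. By `hwk` there is at most one weak position `w` (`1 ≤ w < p.n`). Let `C` consist of
`p.b w`, `p.b (w + 1)` (if there is a weak position) and all `p.b k`, `1 ≤ k ≤ p.n`, such that `D0`
meets `E k` or `E (k - 1)`: at most `2 * K + 2` elements (an element of `D0` is in at most one layer).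
Let `L := (Finset.range p.n).filter (fun l => (l = 0 ∨ p.b l ∈ C) ∧ p.b (l + 1) ∉ C)`, of cardinality
at most `2 * K + 3` (`l ↦ p.b l` is injective on `L \ {0}` with values in `C`). For `l ∈ L` let `n l ≥ 1`
be the least `n ≥ 1` with `l + n = p.n` or `p.b (l + n + 1) ∈ C`; `mk_sg` for `l`, `n l` gives a segment
with region `(V (l+n+1) \ V l) \ A'`, contained in the layers `l, ..., l + n`. It is disjoint from `D0`:
an element of `D0` in the layer `k` puts `p.b k` and `p.b (k + 1)` in `C`; take `k + 1 = l + 1` if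
`k = l`. For `l < l'` in `L` we have `l' ≥ l + n l + 1` (as `p.b l' ∈ C`), so the regions are disjoint
(`v.mono`). Every `p.b k ∉ C` is in the region of the greatest `l < k` with `l = 0` or `p.b l ∈ C`.
Enumerate `L` (for instance by `L.toList` or `Finset.equivFin`) and fill up with `Sg.triv`. -/

set_option autoImplicit false

namespace Pool.Agent.W2411si

open Pool.Agent.W2411c4

variable {Q : Type}

open Gr

theorem pathsegs_mono {n : ℕ} {V : ℕ → Finset ℕ} (hm : ∀ i, i ≤ n → V i ⊆ V (i + 1)) {i j : ℕ}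
    (hij : i ≤ j) (hj : j ≤ n + 1) : V i ⊆ V j := by
  induction j, hij using Nat.le_induction with
  | base => exact Finset.Subset.refl _
  | succ j hij ih => exact (ih (by omega)).trans (hm j (by omega))

/-- the layer of an element -/
theorem pathsegs_layer {V : ℕ → Finset ℕ} {l m x : ℕ} (hlm : l ≤ m)
    (h1 : x ∈ V (m + 1)) (h0 : x ∉ V l) : ∃ k, l ≤ k ∧ k ≤ m ∧ x ∈ V (k + 1) ∧ x ∉ V k := by
  induction m, hlm using Nat.le_induction with
  | base => exact ⟨l, le_rfl, le_rfl, h1, h0⟩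
  | succ m hlm ih =>
    by_cases h : x ∈ V (m + 1)
    · obtain ⟨k, h2, h3, h4⟩ := ih h
      exact ⟨k, h2, by omega, h4⟩
    · exact ⟨m + 1, by omega, le_rfl, h1, h⟩

theorem pathsegs_lam {n : ℕ} {V : ℕ → Finset ℕ} (hm : ∀ i, i ≤ n → V i ⊆ V (i + 1)) {k x : ℕ}
    (hk : k ≤ n) (h1 : x ∈ V (k + 1)) (h0 : x ∉ V k) : sInf {i | x ∈ V (i + 1)} = k := by
  have h2 : sInf {i | x ∈ V (i + 1)} ≤ k := Nat.sInf_le h1
  have h3 : x ∈ V (sInf {i | x ∈ V (i + 1)} + 1) :=
    Nat.sInf_mem (⟨k, h1⟩ : ({i | x ∈ V (i + 1)} : Set ℕ).Nonempty)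
  by_contra h
  exact h0 (pathsegs_mono hm (i := sInf {i | x ∈ V (i + 1)} + 1) (j := k) (by omega) (by omega) h3)

/-- the end of the segment which starts at `l` -/
theorem pathsegs_end {n l : ℕ} {D : Finset ℕ} (hl : l < n) (h1 : l + 1 ∉ D) :
    ∃ m, 1 ≤ m ∧ l + m ≤ n ∧ (∀ k, l < k → k ≤ l + m → k ∉ D) ∧ (l + m = n ∨ l + m + 1 ∈ D) := by
  classical
  have hex : ∃ m, 1 ≤ m ∧ (l + m = n ∨ l + m + 1 ∈ D) := ⟨n - l, by omega, Or.inl (by omega)⟩
  obtain ⟨m, hm⟩ : ∃ m, m = Nat.find hex := ⟨_, rfl⟩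
  have h2 := Nat.find_spec hex
  rw [← hm] at h2
  have h3 : m ≤ n - l := by
    rw [hm]
    exact Nat.find_min' hex ⟨by omega, Or.inl (by omega)⟩
  refine ⟨m, h2.1, by omega, ?_, h2.2⟩
  intro k hk1 hk2
  by_cases hk : k = l + 1
  · rw [hk]
    exact h1
  · intro hkD
    have h4 : k - l - 1 < Nat.find hex := by omega
    apply Nat.find_min hex h4
    refine ⟨by omega, Or.inr ?_⟩
    have e : l + (k - l - 1) + 1 = k := by omega
    rw [e]
    exact hkD

theorem path_segs {G : Gr Q} {B A : Finset ℕ} {t Θ K : ℕ} (hAB : A ⊆ B)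
    {p : Pth B A (FN G B t)} (v : NV G B A t p) {D0 : Finset ℕ} (hD0 : D0.card ≤ K)
    (hwk : ∀ i j, 1 ≤ i → i < j → j < p.n → Wk G B Θ (p.b i) (p.b (i + 1)) →
      Wk G B Θ (p.b j) (p.b (j + 1)) → False) :
    ∃ C ⊆ (Finset.Icc 1 p.n).image p.b, C.card ≤ 2 * K + 2 ∧
      ∀ A' : Finset ℕ, A ⊆ A' → A' ⊆ B → A' ∩ (Finset.Icc 1 p.n).image p.b = C →
        ∃ s : Fin (2 * K + 3) → Sg G B A' (ck t) Θ,
          (∀ i j, i ≠ j → Disjoint (s i).R (s j).R) ∧
          (∀ i, (s i).R ⊆ v.V (p.n + 1)) ∧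
          (∀ i, Disjoint (s i).R D0) ∧
          ∀ k, 1 ≤ k → k ≤ p.n → p.b k ∉ C → ∃ i, p.b k ∈ (s i).R := by
  classical
  -- the weak position
  obtain ⟨W, hWc, hW⟩ : ∃ W : Finset ℕ, W.card ≤ 2 ∧ ∀ k, 1 ≤ k → k < p.n →
      Wk G B Θ (p.b k) (p.b (k + 1)) → k ∈ W := by
    by_cases h : ∃ w, 1 ≤ w ∧ w < p.n ∧ Wk G B Θ (p.b w) (p.b (w + 1))
    · obtain ⟨w, hw1, hw2, hw3⟩ := h
      refine ⟨{w}, by rw [Finset.card_singleton]; omega, ?_⟩
      intro k hk1 hk2 hk3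
      rw [Finset.mem_singleton]
      rcases lt_trichotomy k w with h | h | h
      · exact absurd (hwk k w hk1 h hw2 hk3 hw3) id
      · exact h
      · exact absurd (hwk w k hw1 h hk2 hw3 hk3) id
    · push Not at h
      refine ⟨∅, by rw [Finset.card_empty]; omega, ?_⟩
      intro k hk1 hk2 hk3
      exact absurd hk3 (h k hk1 hk2)
  obtain ⟨la, hla⟩ : ∃ la : ℕ → ℕ, ∀ x, la x = sInf {i | x ∈ v.V (i + 1)} := ⟨_, fun _ => rfl⟩
  obtain ⟨D, hD⟩ : ∃ D : Finset ℕ, D = Finset.Icc 1 p.n ∩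
      (W ∪ (D0.image la ∪ D0.image (fun x => la x + 1))) := ⟨_, rfl⟩
  have hDI : D ⊆ Finset.Icc 1 p.n := by
    rw [hD]
    exact Finset.inter_subset_left
  have hDW : ∀ k, 1 ≤ k → k < p.n → Wk G B Θ (p.b k) (p.b (k + 1)) → k ∈ D := by
    intro k h1 h2 h3
    rw [hD, Finset.mem_inter, Finset.mem_Icc]
    exact ⟨⟨h1, h2.le⟩, Finset.mem_union_left _ (hW k h1 h2 h3)⟩
  have hD1 : ∀ x ∈ D0, ∀ k, 1 ≤ k → k ≤ p.n → x ∈ v.V (k + 1) → x ∉ v.V k → k ∈ D := by
    intro x hx k h1 h2 h3 h4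
    rw [hD, Finset.mem_inter, Finset.mem_Icc]
    refine ⟨⟨h1, h2⟩, Finset.mem_union_right _ (Finset.mem_union_left _ ?_)⟩
    rw [Finset.mem_image]
    exact ⟨x, hx, by rw [hla]; exact pathsegs_lam v.mono h2 h3 h4⟩
  have hD2 : ∀ x ∈ D0, ∀ k, k + 1 ≤ p.n → x ∈ v.V (k + 1) → x ∉ v.V k → k + 1 ∈ D := by
    intro x hx k h2 h3 h4
    rw [hD, Finset.mem_inter, Finset.mem_Icc]
    refine ⟨⟨by omega, h2⟩, Finset.mem_union_right _ (Finset.mem_union_right _ ?_)⟩
    rw [Finset.mem_image]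
    exact ⟨x, hx, by rw [hla, pathsegs_lam v.mono (by omega) h3 h4]⟩
  have hDc : D.card ≤ 2 * K + 2 := by
    have h1 : D.card ≤ (W ∪ (D0.image la ∪ D0.image (fun x => la x + 1))).card := by
      rw [hD]
      exact Finset.card_le_card Finset.inter_subset_right
    have h2 := Finset.card_union_le W (D0.image la ∪ D0.image (fun x => la x + 1))
    have h3 := Finset.card_union_le (D0.image la) (D0.image (fun x => la x + 1))
    have h4 : (D0.image la).card ≤ D0.card := Finset.card_image_le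
    have h5 : (D0.image (fun x => la x + 1)).card ≤ D0.card := Finset.card_image_le
    omega
  refine ⟨D.image p.b, Finset.image_subset_image hDI, Finset.card_image_le.trans hDc, ?_⟩
  intro A' hAA hA'B hA'
  have hmemA : ∀ k, 1 ≤ k → k ≤ p.n → (p.b k ∈ A' ↔ k ∈ D) := by
    intro k h1 h2
    have h3 : p.b k ∈ (Finset.Icc 1 p.n).image p.b :=
      Finset.mem_image_of_mem _ (Finset.mem_Icc.2 ⟨h1, h2⟩)
    constructor
    · intro h4
      have h5 : p.b k ∈ D.image p.b := by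
        rw [← hA']
        exact Finset.mem_inter.2 ⟨h4, h3⟩
      obtain ⟨j, hj, hjk⟩ := Finset.mem_image.1 h5
      have h6 := Finset.mem_Icc.1 (hDI hj)
      have h7 := p.inj j k h6.1 h6.2 h1 h2 hjk
      rw [← h7]
      exact hj
    · intro h4
      have h5 : p.b k ∈ D.image p.b := Finset.mem_image_of_mem _ h4
      rw [← hA'] at h5
      exact (Finset.mem_inter.1 h5).1
  obtain ⟨L, hL⟩ : ∃ L : Finset ℕ, L = (Finset.range p.n).filter
      (fun l => (l = 0 ∨ l ∈ D) ∧ l + 1 ∉ D) := ⟨_, rfl⟩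
  have hLm : ∀ l, l ∈ L ↔ l < p.n ∧ (l = 0 ∨ l ∈ D) ∧ l + 1 ∉ D := by
    intro l
    rw [hL, Finset.mem_filter, Finset.mem_range]
  have hLc : L.card ≤ 2 * K + 3 := by
    have h1 : L ⊆ insert 0 D := by
      intro l hl
      have h2 := ((hLm l).1 hl).2.1
      rw [Finset.mem_insert]
      exact h2
    have h2 := (Finset.card_le_card h1).trans (Finset.card_insert_le _ _)
    omega
  have hseg : ∀ l : ℕ, ∃ (s : Sg G B A' (ck t) Θ) (m : ℕ), (l ∉ L → s.R = ∅) ∧
      (l ∈ L → (1 ≤ m ∧ l + m ≤ p.n ∧ (∀ k, l < k → k ≤ l + m → k ∉ D) ∧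
        (l + m = p.n ∨ l + m + 1 ∈ D)) ∧ s.R = (v.V (l + m + 1) \ v.V l) \ A') := by
    intro l
    by_cases hl : l ∈ L
    · have h1 := (hLm l).1 hl
      obtain ⟨m, hm1, hm2, hm3, hm4⟩ := pathsegs_end h1.1 h1.2.2
      have hmk := mk_sg (Θ := Θ) hAA hA'B v hm2
        (h1.2.1.imp id (fun h => by
          have h5 := Finset.mem_Icc.1 (hDI h)
          exact (hmemA l h5.1 h5.2).2 h))
        (hm4.imp id (fun h => by
          have h5 := Finset.mem_Icc.1 (hDI h)
          exact (hmemA _ h5.1 h5.2).2 h))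
        (fun k hk1 hk2 h => hm3 k hk1 hk2 ((hmemA k (by omega) (by omega)).1 h))
        (fun k hk1 hk2 h => hm3 k hk1 hk2.le (hDW k (by omega) (by omega) h))
      obtain ⟨s, hs⟩ := hmk
      exact ⟨s, m, fun h => absurd hl h, fun _ => ⟨⟨hm1, hm2, hm3, hm4⟩, hs⟩⟩
    · exact ⟨Sg.triv G B A' (ck t) Θ, 0, fun _ => Sg.triv_R _ _ _ _ _, fun h => absurd h hl⟩
  choose s m hs0 hs1 using hseg
  obtain ⟨L', hLL', hL'c⟩ := Infinite.exists_superset_card_eq L (2 * K + 3) hLc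
  obtain ⟨f⟩ : Nonempty (Fin (2 * K + 3) ≃ L') := ⟨(Finset.equivFinOfCardEq hL'c).symm⟩
  have hfin : Function.Injective (fun i => (f i : ℕ)) := fun i j h => f.injective (Subtype.ext h)
  -- disjointness for `l < l'`
  have hdis : ∀ l ∈ L, ∀ l' ∈ L, l < l' → Disjoint (s l).R (s l').R := by
    intro l hl l' hl' hlt
    obtain ⟨⟨h1, h2, h3, h4⟩, h5⟩ := hs1 l hl
    obtain ⟨⟨h1', h2', h3', h4'⟩, h5'⟩ := hs1 l' hl'
    have h6 := (hLm l').1 hl'
    have h7 : l' ∈ D := h6.2.1.resolve_left (by omega)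
    have h8 : l + m l + 1 ≤ l' := by
      by_contra hc
      exact h3 l' hlt (by omega) h7
    rw [h5, h5', Finset.disjoint_left]
    intro x hx hx'
    have h9 := (Finset.mem_sdiff.1 (Finset.mem_sdiff.1 hx).1).1
    have h10 := (Finset.mem_sdiff.1 (Finset.mem_sdiff.1 hx').1).2
    exact h10 (pathsegs_mono v.mono h8 (by omega) h9)
  refine ⟨fun i => s (f i), ?_, ?_, ?_, ?_⟩
  · intro i j hij
    by_cases h1 : (f i : ℕ) ∈ L
    · by_cases h2 : (f j : ℕ) ∈ L
      · have h3 : (f i : ℕ) ≠ (f j : ℕ) := fun h => hij (hfin h)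
        rcases lt_or_gt_of_ne h3 with h4 | h4
        · exact hdis _ h1 _ h2 h4
        · exact (hdis _ h2 _ h1 h4).symm
      · rw [hs0 _ h2]
        exact Finset.disjoint_empty_right _
    · rw [hs0 _ h1]
      exact Finset.disjoint_empty_left _
  · intro i
    by_cases h1 : (f i : ℕ) ∈ L
    · obtain ⟨⟨h2, h3, h4, h5⟩, h6⟩ := hs1 _ h1
      rw [h6]
      intro x hx
      exact pathsegs_mono v.mono (by omega) le_rfl
        (Finset.mem_sdiff.1 (Finset.mem_sdiff.1 hx).1).1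
    · rw [hs0 _ h1]
      exact Finset.empty_subset _
  · intro i
    by_cases h1 : (f i : ℕ) ∈ L
    · obtain ⟨⟨h2, h3, h4, h5⟩, h6⟩ := hs1 _ h1
      rw [h6, Finset.disjoint_left]
      intro x hx hxD
      have h7 := Finset.mem_sdiff.1 (Finset.mem_sdiff.1 hx).1
      obtain ⟨k, hk1, hk2, hk3, hk4⟩ := pathsegs_layer (V := v.V)
        (l := (f i : ℕ)) (m := (f i : ℕ) + m (f i)) (by omega) h7.1 h7.2
      by_cases hk : k = (f i : ℕ)
      · have h8 := hD2 x hxD k (by omega) hk3 hk4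
        rw [hk] at h8
        exact h4 _ (by omega) (by omega) h8
      · exact h4 k (by omega) hk2 (hD1 x hxD k (by omega) (by omega) hk3 hk4)
    · rw [hs0 _ h1]
      exact Finset.disjoint_empty_left _
  · intro k hk1 hk2 hkC
    have hkD : k ∉ D := fun h => hkC (Finset.mem_image_of_mem _ h)
    -- the greatest `l < k` with `l = 0` or `l ∈ D`
    obtain ⟨l, hlk, hl0, hmax⟩ : ∃ l, l < k ∧ (l = 0 ∨ l ∈ D) ∧ ∀ j, l < j → j < k → j ∉ D := by
      have h1 : ((Finset.range k).filter (fun l => l = 0 ∨ l ∈ D)).Nonempty :=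
        ⟨0, Finset.mem_filter.2 ⟨Finset.mem_range.2 (by omega), Or.inl rfl⟩⟩
      obtain ⟨l, hl, hlm⟩ := Finset.exists_max_image _ id h1
      rw [Finset.mem_filter, Finset.mem_range] at hl
      refine ⟨l, hl.1, hl.2, ?_⟩
      intro j hj1 hj2 hjD
      have h2 := hlm j (Finset.mem_filter.2 ⟨Finset.mem_range.2 hj2, Or.inr hjD⟩)
      simp only [id] at h2
      omega
    have hlL : l ∈ L := by
      rw [hLm]
      refine ⟨by omega, hl0, ?_⟩
      by_cases h1 : l + 1 = k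
      · rw [h1]
        exact hkD
      · exact hmax _ (by omega) (by omega)
    obtain ⟨⟨h2, h3, h4, h5⟩, h6⟩ := hs1 _ hlL
    have hkm : k ≤ l + m l := by
      by_contra hc
      rcases h5 with h5 | h5
      · omega
      · by_cases h7 : l + m l + 1 = k
        · rw [h7] at h5
          exact hkD h5
        · exact hmax _ (by omega) (by omega) h5
    refine ⟨f.symm ⟨l, hLL' hlL⟩, ?_⟩
    have e1 : ((f (f.symm ⟨l, hLL' hlL⟩) : L') : ℕ) = l := by
      rw [Equiv.apply_symm_apply]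
    have e2 : s (f (f.symm ⟨l, hLL' hlL⟩) : L') = s l := by rw [e1]
    change p.b k ∈ (s (f (f.symm ⟨l, hLL' hlL⟩) : L')).R
    rw [e2, h6, Finset.mem_sdiff, Finset.mem_sdiff]
    have hbB : p.b k ∈ B := (Finset.mem_sdiff.1 (p.mem k hk1 hk2)).1
    refine ⟨⟨?_, ?_⟩, ?_⟩
    · have h7 : p.b k ∈ B ∩ v.V (k + 1) := by
        rw [v.int (k + 1) (by omega)]
        exact Finset.mem_image_of_mem _ (Finset.mem_Icc.2 ⟨hk1, by omega⟩)
      exact pathsegs_mono v.mono (by omega) (by omega) (Finset.mem_inter.1 h7).2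
    · intro h7
      have h8 : p.b k ∈ B ∩ v.V k :=
        Finset.mem_inter.2 ⟨hbB, pathsegs_mono v.mono (by omega) (by omega) h7⟩
      rw [v.int k (by omega)] at h8
      obtain ⟨j, hj, hjk⟩ := Finset.mem_image.1 h8
      rw [Finset.mem_Icc] at hj
      have h9 := p.inj j k hj.1 (by omega) hk1 hk2 hjk
      omega
    · intro h7
      exact hkD ((hmemA k hk1 hk2).1 h7)

end Pool.Agent.W2411si
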