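import Mathlib

/-! Decomposition of the part of degree 2 of a connected graph into paths (pure combinatorics).

Proof. Generalise: for `W ⊆ B \ A` such that all neighbours of vertices of `W` are in `W ∪ A` and every
`x ∈ W` is connected to some element of `A` by a chain with all vertices but the last in `W`, there
are `r ≤ ((A ×ˢ W).filter (fun p => p.2 ∈ N p.1)).card` paths covering exactly `W`, pairwise disjoint.
Induction on `W.card`. If `W` is nonempty there are `a ∈ A`, `v ∈ W` with `v ∈ N a`. Among all `k ≥ 1`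
and sequences `b 0 = a, b 1 = v, ..., b k` with `b (i+1) ∈ N (b i)`, `b 1, ..., b k ∈ W` different,
choose one with the greatest `k` (`k ≤ W.card`). `N (b k)` has two elements, one is `b (k-1)`, let `w`
be the other. `w` is not `b j` for `1 ≤ j < k - 1` (then `N (b j)` would contain the three elements
`b (j-1)`, `b (j+1)`, `b k`), and by maximality `w ∉ W`; so `w ∈ A`, put `n := k`, `b (n+1) := w`. Apply
the induction hypothesis to `W` without `b 1, ..., b n` (their neighbours are among `b 0, ..., b (n+1)`,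
so the remaining vertices have no neighbour among them); the pair `(a, v)` is no longer counted.
Finally `((A ×ˢ (B \ A)).filter ...).card ≤ A.card * D`; fill up with paths with `n = 0`
(`b 0 = b 1 ∈ A`). -/

set_option autoImplicit false

namespace Pool.Agent.W2411si

/-- a path with inner vertices `b 1, ..., b n` in `B \ A` of degree 2 and both ends in `A` (`n = 0` is
allowed and means nothing) -/
structure Pth (B A : Finset ℕ) (N : ℕ → Finset ℕ) where
  n : ℕ
  b : ℕ → ℕ
  left : b 0 ∈ A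
  right : b (n + 1) ∈ A
  mem : ∀ i, 1 ≤ i → i ≤ n → b i ∈ B \ A
  inj : ∀ i j, 1 ≤ i → i ≤ n → 1 ≤ j → j ≤ n → b i = b j → i = j
  nb : ∀ i, 1 ≤ i → i ≤ n → N (b i) = {b (i - 1), b (i + 1)}

/-- the vertices of two paths are different -/
private def paths_disj {B A : Finset ℕ} {N : ℕ → Finset ℕ} (p q : Pth B A N) : Prop :=
  ∀ k l, 1 ≤ k → k ≤ p.n → 1 ≤ l → l ≤ q.n → p.b k ≠ q.b l

/-- a partial path in `W` -/
private def paths_Q (W : Finset ℕ) (N : ℕ → Finset ℕ) (a v : ℕ) (k : ℕ) (b : ℕ → ℕ) : Prop :=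
  b 0 = a ∧ b 1 = v ∧ (∀ i, 1 ≤ i → i ≤ k → b i ∈ W) ∧
    (∀ i j, 1 ≤ i → i ≤ k → 1 ≤ j → j ≤ k → b i = b j → i = j) ∧
    ∀ i, i < k → b (i + 1) ∈ N (b i)

private theorem paths_Q_card {W : Finset ℕ} {N : ℕ → Finset ℕ} {a v k : ℕ} {b : ℕ → ℕ}
    (h : paths_Q W N a v k b) : k ≤ W.card := by
  obtain ⟨_, _, h3, h4, _⟩ := h
  have h5 : ((Finset.Icc 1 k).image b).card = k := by
    rw [Finset.card_image_of_injOn]
    · simp
    · intro i hi j hj hij
      rw [Finset.mem_coe, Finset.mem_Icc] at hi hj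
      exact h4 i j hi.1 hi.2 hj.1 hj.2 hij
  rw [← h5]
  apply Finset.card_le_card
  intro x hx
  obtain ⟨i, hi, rfl⟩ := Finset.mem_image.1 hx
  rw [Finset.mem_Icc] at hi
  exact h3 i hi.1 hi.2

private theorem paths_max {W : Finset ℕ} {N : ℕ → Finset ℕ} {a v : ℕ} (hv : v ∈ W)
    (hav : v ∈ N a) :
    ∃ k b, 1 ≤ k ∧ paths_Q W N a v k b ∧ ∀ b', ¬ paths_Q W N a v (k + 1) b' := by
  classical
  have h0 : ∃ b, paths_Q W N a v (0 + 1) b := by
    refine ⟨fun i => if i = 0 then a else v, rfl, rfl, ?_, ?_, ?_⟩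
    · intro i h1 h2
      have : i ≠ 0 := by omega
      simp only [this, if_false]
      exact hv
    · intro i j _ _ _ _ _
      omega
    · intro i hi
      have : i = 0 := by omega
      subst this
      exact hav
  have h1 : ∃ m, ¬ ∃ b, paths_Q W N a v (m + 1) b := by
    refine ⟨W.card, ?_⟩
    rintro ⟨b, hb⟩
    have := paths_Q_card hb
    omega
  have h2 := Nat.find_spec h1
  have h3 : Nat.find h1 ≠ 0 := by
    intro h
    rw [h] at h2
    exact h2 h0
  obtain ⟨m, hm⟩ := Nat.exists_eq_succ_of_ne_zero h3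
  have h4 : ∃ b, paths_Q W N a v (m + 1) b := by
    by_contra h
    have := Nat.find_min' h1 h
    omega
  obtain ⟨b, hb⟩ := h4
  refine ⟨m + 1, b, by omega, hb, ?_⟩
  intro b' hb'
  apply h2
  rw [hm]
  exact ⟨b', hb'⟩

private theorem paths_card_two {S : Finset ℕ} (hS : S.card = 2) {x y : ℕ} (hx : x ∈ S) (hy : y ∈ S)
    (hxy : x ≠ y) : S = {x, y} := by
  symm
  apply Finset.eq_of_subset_of_card_le
  · intro z hz
    rw [Finset.mem_insert, Finset.mem_singleton] at hz
    rcases hz with rfl | rfl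
    · exact hx
    · exact hy
  · rw [hS, Finset.card_pair hxy]

/-- one path -/
private theorem paths_one {B A : Finset ℕ} {N : ℕ → Finset ℕ} (hAB : A ⊆ B)
    (hsym : ∀ x ∈ B, ∀ y ∈ N x, x ∈ N y) (hirr : ∀ x ∈ B, x ∉ N x)
    (hdeg : ∀ x ∈ B \ A, (N x).card = 2) {W : Finset ℕ} (hW : W ⊆ B \ A)
    (hN : ∀ x ∈ W, N x ⊆ W ∪ A) {a v : ℕ} (ha : a ∈ A) (hv : v ∈ W) (hav : v ∈ N a) :
    ∃ p : Pth B A N, 1 ≤ p.n ∧ p.b 1 = v ∧ (∀ i, 1 ≤ i → i ≤ p.n → p.b i ∈ W) := by
  obtain ⟨k, b, hk, ⟨hb0, hb1, hbW, hinj, hst⟩, hmax⟩ := paths_max hv hav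
  have hWB : ∀ x ∈ W, x ∈ B := fun x hx => (Finset.mem_sdiff.1 (hW hx)).1
  have hWA : ∀ x ∈ W, x ∉ A := fun x hx => (Finset.mem_sdiff.1 (hW hx)).2
  have hbB : ∀ i, i ≤ k → b i ∈ B := by
    intro i hi
    rcases Nat.eq_zero_or_pos i with rfl | h
    · rw [hb0]
      exact hAB ha
    · exact hWB _ (hbW i h hi)
  -- the vertices are different
  have hdiff : ∀ i j, i < j → j ≤ k → b i ≠ b j := by
    intro i j hij hj h
    rcases Nat.eq_zero_or_pos i with rfl | hi
    · rw [hb0] at h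
      exact hWA _ (hbW j (by omega) hj) (h ▸ ha)
    · have := hinj i j hi (by omega) (by omega) hj h
      omega
  have hback : ∀ i, i < k → b i ∈ N (b (i + 1)) := fun i hi =>
    hsym _ (hbB i (by omega)) _ (hst i hi)
  have hk2 : (N (b k)).card = 2 := hdeg _ (hW (hbW k hk le_rfl))
  have hkm : b (k - 1) ∈ N (b k) := by
    have h := hback (k - 1) (by omega)
    rwa [show k - 1 + 1 = k by omega] at h
  obtain ⟨w, hw, hwne⟩ : ∃ w ∈ N (b k), w ≠ b (k - 1) :=
    Finset.exists_mem_ne (by omega) _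
  have hwW : w ∉ W := by
    intro hwW
    by_cases hj : ∃ j, 1 ≤ j ∧ j ≤ k ∧ b j = w
    · obtain ⟨j, hj1, hj2, hj3⟩ := hj
      have hjk : j ≠ k := by
        rintro rfl
        rw [← hj3] at hw
        exact hirr _ (hbB j le_rfl) hw
      have hjk1 : j ≠ k - 1 := by
        rintro rfl
        exact hwne hj3.symm
      have h3 : b k ∈ N (b j) := by
        rw [hj3]
        exact hsym _ (hbB k le_rfl) _ hw
      have h4 : b (j + 1) ∈ N (b j) := hst j (by omega)
      have h5 : b (j - 1) ∈ N (b j) := by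
        have h := hback (j - 1) (by omega)
        rwa [show j - 1 + 1 = j by omega] at h
      have h6 := paths_card_two (hdeg _ (hW (hbW j hj1 hj2))) h5 h4
        (hdiff (j - 1) (j + 1) (by omega) (by omega))
      rw [h6, Finset.mem_insert, Finset.mem_singleton] at h3
      rcases h3 with h3 | h3
      · exact hdiff (j - 1) k (by omega) le_rfl h3.symm
      · exact hdiff (j + 1) k (by omega) le_rfl h3.symm
    · apply hmax (fun i => if i ≤ k then b i else w)
      refine ⟨?_, ?_, ?_, ?_, ?_⟩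
      · simp only [Nat.zero_le, if_true]
        exact hb0
      · simp only [hk, if_true]
        exact hb1
      · intro i h1 h2
        by_cases h : i ≤ k
        · simp only [h, if_true]
          exact hbW i h1 h
        · simp only [h, if_false]
          exact hwW
      · intro i j hi1 hi2 hj1 hj2 hij
        by_cases h : i ≤ k <;> by_cases h' : j ≤ k
        · simp only [h, h', if_true] at hij
          exact hinj i j hi1 h hj1 h' hij
        · simp only [h, h', if_true, if_false] at hij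
          exact absurd ⟨i, hi1, h, hij⟩ hj
        · simp only [h, h', if_true, if_false] at hij
          exact absurd ⟨j, hj1, h', hij.symm⟩ hj
        · omega
      · intro i hi
        by_cases h : i + 1 ≤ k
        · have h' : i ≤ k := by omega
          simp only [h, h', if_true]
          exact hst i (by omega)
        · have h' : i ≤ k := by omega
          have h'' : i = k := by omega
          simp only [h, h', if_true, if_false]
          rw [h'']
          exact hw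
  have hwA : w ∈ A := by
    rcases Finset.mem_union.1 (hN _ (hbW k hk le_rfl) hw) with h | h
    · exact absurd h hwW
    · exact h
  refine ⟨⟨k, fun i => if i ≤ k then b i else w, ?_, ?_, ?_, ?_, ?_⟩, hk, ?_, ?_⟩
  · simp only [Nat.zero_le, if_true]
    rw [hb0]
    exact ha
  · simp only [show ¬ k + 1 ≤ k by omega, if_false]
    exact hwA
  · intro i h1 h2
    simp only [h2, if_true]
    exact hW (hbW i h1 h2)
  · intro i j hi1 hi2 hj1 hj2 hij
    simp only [hi2, hj2, if_true] at hij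
    exact hinj i j hi1 hi2 hj1 hj2 hij
  · intro i h1 h2
    simp only [h2, if_true, show i - 1 ≤ k by omega]
    by_cases h : i + 1 ≤ k
    · simp only [h, if_true]
      refine paths_card_two (hdeg _ (hW (hbW i h1 h2))) ?_ (hst i (by omega))
        (hdiff (i - 1) (i + 1) (by omega) h)
      have h' := hback (i - 1) (by omega)
      rwa [show i - 1 + 1 = i by omega] at h'
    · have hik : i = k := by omega
      simp only [h, if_false]
      rw [hik]
      exact paths_card_two hk2 hkm hw hwne.symm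
  · simp only [hk, if_true]
    exact hb1
  · intro i h1 h2
    simp only at h2
    simp only [h2, if_true]
    exact hbW i h1 h2

private theorem paths_main {B A : Finset ℕ} {N : ℕ → Finset ℕ} (hAB : A ⊆ B)
    (hsym : ∀ x ∈ B, ∀ y ∈ N x, x ∈ N y) (hirr : ∀ x ∈ B, x ∉ N x)
    (hdeg : ∀ x ∈ B \ A, (N x).card = 2)
    (hC : ∀ U ⊆ B \ A, U.Nonempty → ∃ x ∈ U, ∃ y ∈ N x, y ∉ U) :
    ∀ (m : ℕ) (W : Finset ℕ), W.card = m → W ⊆ B \ A → (∀ x ∈ W, N x ⊆ W ∪ A) →
      ∃ L : List (Pth B A N), L.length ≤ ((A ×ˢ W).filter (fun p => p.2 ∈ N p.1)).card ∧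
        L.Pairwise paths_disj ∧ (∀ p ∈ L, ∀ k, 1 ≤ k → k ≤ p.n → p.b k ∈ W) ∧
        ∀ x ∈ W, ∃ p ∈ L, ∃ k, 1 ≤ k ∧ k ≤ p.n ∧ p.b k = x := by
  intro m
  induction m using Nat.strong_induction_on with
  | _ m ih =>
  intro W hm hW hN
  rcases W.eq_empty_or_nonempty with rfl | hne
  · exact ⟨[], Nat.zero_le _, List.Pairwise.nil, fun p hp => absurd hp List.not_mem_nil,
      fun x hx => absurd hx (Finset.notMem_empty x)⟩
  obtain ⟨v, hv, a, hav, haW⟩ := hC W hW hne
  have hWB : ∀ x ∈ W, x ∈ B := fun x hx => (Finset.mem_sdiff.1 (hW hx)).1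
  have hWA : ∀ x ∈ W, x ∉ A := fun x hx => (Finset.mem_sdiff.1 (hW hx)).2
  have ha : a ∈ A := by
    rcases Finset.mem_union.1 (hN v hv hav) with h | h
    · exact absurd h haW
    · exact h
  have hva : v ∈ N a := hsym v (hWB v hv) a hav
  obtain ⟨p, hp1, hpv, hpW⟩ := paths_one hAB hsym hirr hdeg hW hN ha hv hva
  set R : Finset ℕ := (Finset.Icc 1 p.n).image p.b with hR
  have hmemR : ∀ x, x ∈ R ↔ ∃ i, 1 ≤ i ∧ i ≤ p.n ∧ p.b i = x := by
    intro x
    rw [hR, Finset.mem_image]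
    constructor
    · rintro ⟨i, hi, h⟩
      rw [Finset.mem_Icc] at hi
      exact ⟨i, hi.1, hi.2, h⟩
    · rintro ⟨i, h1, h2, h⟩
      exact ⟨i, Finset.mem_Icc.2 ⟨h1, h2⟩, h⟩
  have hvR : v ∈ R := (hmemR v).2 ⟨1, le_rfl, hp1, hpv⟩
  have hsub : W \ R ⊆ W := Finset.sdiff_subset
  have hcard : (W \ R).card < m := by
    rw [← hm]
    apply Finset.card_lt_card
    refine ⟨hsub, fun h => ?_⟩
    exact (Finset.mem_sdiff.1 (h hv)).2 hvR
  have hN' : ∀ x ∈ W \ R, N x ⊆ (W \ R) ∪ A := by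
    intro x hx y hy
    obtain ⟨hxW, hxR⟩ := Finset.mem_sdiff.1 hx
    rcases Finset.mem_union.1 (hN x hxW hy) with h | h
    · by_cases hyR : y ∈ R
      · exfalso
        obtain ⟨i, hi1, hi2, hi3⟩ := (hmemR y).1 hyR
        have hxy : x ∈ N y := hsym x (hWB x hxW) y hy
        rw [← hi3, p.nb i hi1 hi2, Finset.mem_insert, Finset.mem_singleton] at hxy
        rcases hxy with hxy | hxy
        · by_cases h0 : i = 1
          · rw [h0] at hxy
            exact hWA x hxW (hxy ▸ p.left)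
          · exact hxR ((hmemR x).2 ⟨i - 1, by omega, by omega, hxy.symm⟩)
        · by_cases h0 : i = p.n
          · rw [h0] at hxy
            exact hWA x hxW (hxy ▸ p.right)
          · exact hxR ((hmemR x).2 ⟨i + 1, by omega, by omega, hxy.symm⟩)
      · exact Finset.mem_union_left _ (Finset.mem_sdiff.2 ⟨h, hyR⟩)
    · exact Finset.mem_union_right _ h
  obtain ⟨L, hL1, hL2, hL3, hL4⟩ := ih _ hcard (W \ R) rfl (hsub.trans hW) hN'
  refine ⟨p :: L, ?_, ?_, ?_, ?_⟩
  · rw [List.length_cons]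
    refine (Nat.succ_le_succ hL1).trans ?_
    apply Finset.card_lt_card
    refine ⟨?_, ?_⟩
    · intro q hq
      rw [Finset.mem_filter, Finset.mem_product] at hq ⊢
      exact ⟨⟨hq.1.1, hsub hq.1.2⟩, hq.2⟩
    · intro h
      have h1 : (a, v) ∈ (A ×ˢ W).filter (fun p => p.2 ∈ N p.1) := by
        rw [Finset.mem_filter, Finset.mem_product]
        exact ⟨⟨ha, hv⟩, hva⟩
      have h2 := h h1
      rw [Finset.mem_filter, Finset.mem_product] at h2
      exact (Finset.mem_sdiff.1 h2.1.2).2 hvR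
  · rw [List.pairwise_cons]
    refine ⟨?_, hL2⟩
    intro q hq k l hk1 hk2 hl1 hl2 h
    have h1 := hL3 q hq l hl1 hl2
    exact (Finset.mem_sdiff.1 h1).2 ((hmemR _).2 ⟨k, hk1, hk2, h⟩)
  · intro q hq k hk1 hk2
    rcases List.mem_cons.1 hq with rfl | hq
    · exact hpW k hk1 hk2
    · exact hsub (hL3 q hq k hk1 hk2)
  · intro x hx
    by_cases hxR : x ∈ R
    · obtain ⟨i, h1, h2, h3⟩ := (hmemR x).1 hxR
      exact ⟨p, List.mem_cons_self, i, h1, h2, h3⟩
    · obtain ⟨q, hq, k, h⟩ := hL4 x (Finset.mem_sdiff.2 ⟨hx, hxR⟩)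
      exact ⟨q, List.mem_cons_of_mem _ hq, k, h⟩

theorem exists_paths {B A : Finset ℕ} {N : ℕ → Finset ℕ} {D : ℕ} (hAB : A ⊆ B)
    (hNB : ∀ x ∈ B, N x ⊆ B) (hsym : ∀ x ∈ B, ∀ y ∈ N x, x ∈ N y) (hirr : ∀ x ∈ B, x ∉ N x)
    (hdeg : ∀ x ∈ B \ A, (N x).card = 2) (hD : ∀ x ∈ A, (N x).card ≤ D)
    (hconn : ∀ x ∈ B, ∀ y ∈ B, Relation.ReflTransGen (fun p q => q ∈ N p) x y)
    (hne : A.Nonempty) :
    ∃ s : Fin (A.card * D) → Pth B A N,
      (∀ i j, i ≠ j → ∀ k l, 1 ≤ k → k ≤ (s i).n → 1 ≤ l → l ≤ (s j).n → (s i).b k ≠ (s j).b l) ∧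
      ∀ x ∈ B \ A, ∃ i k, 1 ≤ k ∧ k ≤ (s i).n ∧ (s i).b k = x := by
  classical
  obtain ⟨a0, ha0⟩ := hne
  have hC : ∀ U ⊆ B \ A, U.Nonempty → ∃ x ∈ U, ∃ y ∈ N x, y ∉ U := by
    intro U hU hUne
    obtain ⟨x0, hx0⟩ := hUne
    by_contra hcon
    push Not at hcon
    have h1 : ∀ y, Relation.ReflTransGen (fun p q => q ∈ N p) x0 y → y ∈ U := by
      intro y hy
      induction hy with
      | refl => exact hx0
      | tail _ h ih => exact hcon _ ih _ h
    have h2 := h1 a0 (hconn x0 (Finset.mem_sdiff.1 (hU hx0)).1 a0 (hAB ha0))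
    exact (Finset.mem_sdiff.1 (hU h2)).2 ha0
  have hN : ∀ x ∈ B \ A, N x ⊆ (B \ A) ∪ A := by
    intro x hx y hy
    have h := hNB x (Finset.mem_sdiff.1 hx).1 hy
    by_cases hyA : y ∈ A
    · exact Finset.mem_union_right _ hyA
    · exact Finset.mem_union_left _ (Finset.mem_sdiff.2 ⟨h, hyA⟩)
  obtain ⟨L, hL1, hL2, _, hL4⟩ := paths_main hAB hsym hirr hdeg hC _ (B \ A) rfl
    (Finset.Subset.refl _) hN
  have hcard : ((A ×ˢ (B \ A)).filter (fun p => p.2 ∈ N p.1)).card ≤ A.card * D := by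
    have h1 : ((A ×ˢ (B \ A)).filter (fun p => p.2 ∈ N p.1)).card ≤
        (A.sigma (fun x => N x)).card := by
      refine Finset.card_le_card_of_injOn (fun p => (⟨p.1, p.2⟩ : Σ _ : ℕ, ℕ)) ?_ ?_
      · intro p hp
        have hp' := Finset.mem_filter.1 (Finset.mem_coe.1 hp)
        rw [Finset.mem_product] at hp'
        exact Finset.mem_coe.2 (Finset.mem_sigma.2 ⟨hp'.1.1, hp'.2⟩)
      · rintro ⟨p1, p2⟩ _ ⟨q1, q2⟩ _ h
        simp only [Sigma.mk.injEq, heq_eq_eq] at h
        rw [h.1, h.2]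
    refine h1.trans ?_
    rw [Finset.card_sigma]
    exact Finset.sum_le_card_nsmul _ _ _ hD
  have hlen : L.length ≤ A.card * D := hL1.trans hcard
  let p0 : Pth B A N := ⟨0, fun _ => a0, ha0, ha0, fun i h1 h2 => absurd h1 (by omega),
    fun i j h1 h2 => absurd h1 (by omega), fun i h1 h2 => absurd h1 (by omega)⟩
  refine ⟨fun i => if h : (i : ℕ) < L.length then L[(i : ℕ)] else p0, ?_, ?_⟩
  · intro i j hij k l hk1 hk2 hl1 hl2
    by_cases hi : (i : ℕ) < L.length
    · by_cases hj : (j : ℕ) < L.length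
      · simp only [hi, hj, dif_pos] at hk2 hl2 ⊢
        have hij' : (i : ℕ) ≠ (j : ℕ) := fun h => hij (Fin.ext h)
        rcases Nat.lt_or_gt_of_ne hij' with hlt | hlt
        · exact List.pairwise_iff_getElem.1 hL2 _ _ hi hj hlt k l hk1 hk2 hl1 hl2
        · exact (List.pairwise_iff_getElem.1 hL2 _ _ hj hi hlt l k hl1 hl2 hk1 hk2).symm
      · simp only [hj, dif_neg, not_false_eq_true] at hl2
        have : l ≤ 0 := hl2
        omega
    · simp only [hi, dif_neg, not_false_eq_true] at hk2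
      have : k ≤ 0 := hk2
      omega
  · intro x hx
    obtain ⟨p, hp, k, hk1, hk2, hk3⟩ := hL4 x hx
    obtain ⟨i, hi, rfl⟩ := List.mem_iff_getElem.1 hp
    refine ⟨⟨i, by omega⟩, k, hk1, ?_, ?_⟩
    · simp only [hi, dif_pos]
      exact hk2
    · simp only [hi, dif_pos]
      exact hk3

end Pool.Agent.W2411si
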