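import Pool.Agent.W_2411c4_h26.Zs

/-! The region lemma (section 3.4 in cut form).

Proof. For `k = 1, 2` apply `fan` with `X := P`, `u := c_k`: `T_k ⊆ P`, `P \ T_k ⊆ U_k`, `c_k ∉ U_k`.
If `FC G B t P c_k v`, then `v ∉ U_k` (otherwise `FC.cross`, with `FC.symm`, gives
`cm0 t ≤ ed G U_k T_k`). Hence `U_1 ∩ U_2` contains no `v ∈ B \ P`. Let `Z y` be the sets of
`exists_Z` and `U := (U_1 ∩ U_2) ∪ (T_1 ∪ T_2).biUnion Z`. `B ∩ U = P`. Let `e` be an edge from
`p ∈ U` to `q ∉ U`, `q ∉ N`. If `p ∈ U_1 ∩ U_2`: `q ∉ U_k` for some `k`, and `q ∉ T_k` (as `T_k ⊆ U`), so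
`e` is in `ebd G U_k T_k`. If `p ∈ Z y` with `y ∈ T_1 ∪ T_2 ⊆ P`: `q ∉ FN G B t y ⊆ P ∪ N` (`P ⊆ U`),
`q ∉ Z y`, so `e` is in `ebd G (Z y) (FN G B t y)`. Altogether
`ed G U N ≤ ed G U_1 T_1 + ed G U_2 T_2 + (T_1 ∪ T_2).card * cm1 t ≤ ck t`. -/

set_option autoImplicit false

namespace Pool.Agent.W2411si

open Pool.Agent.W2411c4

variable {Q : Type}

open Gr

theorem region {G : Gr Q} {B : Finset ℕ} {t M : ℕ} (hSF : SF G B t) (ht : 1 ≤ t) (hB : Bk G B M)
    (hM : cM0 t ≤ M) {P N : Finset ℕ} (hP : P ⊆ B) {c1 c2 : ℕ} (h1 : c1 ∈ B \ P) (h2 : c2 ∈ B \ P)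
    (hcov : ∀ v ∈ B \ P, FC G B t P c1 v ∨ FC G B t P c2 v)
    (hN : ∀ y ∈ P, FN G B t y ⊆ P ∪ N) :
    ∃ U : Finset ℕ, B ∩ U = P ∧ ed G U N ≤ ck t := by
  classical
  obtain ⟨h1B, h1P⟩ := Finset.mem_sdiff.1 h1
  obtain ⟨h2B, h2P⟩ := Finset.mem_sdiff.1 h2
  obtain ⟨T1, U1, hT1P, hPU1, _, hc1U, hcard1⟩ := fan (X := P) (u := c1) hSF ht hP h1B h1P
    fun x hx => hB.lam (hP hx) h1B (fun h => h1P (h ▸ hx)) hM
  obtain ⟨T2, U2, hT2P, hPU2, _, hc2U, hcard2⟩ := fan (X := P) (u := c2) hSF ht hP h2B h2P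
    fun x hx => hB.lam (hP hx) h2B (fun h => h2P (h ▸ hx)) hM
  have hn1 : ∀ v, FC G B t P c1 v → v ∉ U1 := by
    intro v hv hvU
    have := hv.symm.cross hvU hc1U (hT1P.trans hP) hT1P
    omega
  have hn2 : ∀ v, FC G B t P c2 v → v ∉ U2 := by
    intro v hv hvU
    have := hv.symm.cross hvU hc2U (hT2P.trans hP) hT2P
    omega
  have hZ : ∀ y, ∃ Z : Finset ℕ, y ∈ B → (y ∈ Z ∧ B ∩ Z = {y} ∧
      ed G Z (FN G B t y) ≤ cm1 t) := by
    intro y
    by_cases hy : y ∈ B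
    · obtain ⟨_, Z, h⟩ := exists_Z hSF ht hB hM hy
      exact ⟨Z, fun _ => h⟩
    · exact ⟨∅, fun h => absurd h hy⟩
  choose Z hZ using hZ
  have hTP : T1 ∪ T2 ⊆ P := Finset.union_subset hT1P hT2P
  set U : Finset ℕ := (U1 ∩ U2) ∪ (T1 ∪ T2).biUnion Z with hU
  have hTU : T1 ∪ T2 ⊆ U := by
    intro y hy
    rw [hU, Finset.mem_union, Finset.mem_biUnion]
    exact Or.inr ⟨y, hy, (hZ y (hP (hTP hy))).1⟩
  have hPU : P ⊆ U := by
    intro v hv
    by_cases h : v ∈ T1 ∪ T2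
    · exact hTU h
    · rw [Finset.mem_union, not_or] at h
      rw [hU, Finset.mem_union]
      exact Or.inl (Finset.mem_inter.2 ⟨hPU1 (Finset.mem_sdiff.2 ⟨hv, h.1⟩),
        hPU2 (Finset.mem_sdiff.2 ⟨hv, h.2⟩)⟩)
  refine ⟨U, ?_, ?_⟩
  · ext v
    rw [Finset.mem_inter]
    constructor
    · rintro ⟨hvB, hvU⟩
      rw [hU, Finset.mem_union, Finset.mem_biUnion] at hvU
      rcases hvU with hvU | ⟨y, hy, hvZ⟩
      · by_contra hvP
        rw [Finset.mem_inter] at hvU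
        rcases hcov v (Finset.mem_sdiff.2 ⟨hvB, hvP⟩) with h | h
        · exact hn1 v h hvU.1
        · exact hn2 v h hvU.2
      · have h := (hZ y (hP (hTP hy))).2.1
        have h' : v ∈ B ∩ Z y := Finset.mem_inter.2 ⟨hvB, hvZ⟩
        rw [h, Finset.mem_singleton] at h'
        rw [h']
        exact hTP hy
    · intro hv
      exact ⟨hP hv, hPU hv⟩
  · have hsub : ebd G U N ⊆ (ebd G U1 T1 ∪ ebd G U2 T2) ∪
        (T1 ∪ T2).biUnion (fun y => ebd G (Z y) (FN G B t y)) := by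
      intro e he
      rw [mem_ebd, lv_iff] at he
      obtain ⟨heE, p, q, hp, hq, hqN, hep, heq⟩ := he
      rw [Finset.mem_union, Finset.mem_union, Finset.mem_biUnion]
      have hqT : q ∉ T1 ∪ T2 := fun h => hq (hTU h)
      rw [Finset.mem_union, not_or] at hqT
      have hq' := hq
      rw [hU, Finset.mem_union, not_or, Finset.mem_inter, not_and_or] at hq'
      rw [hU, Finset.mem_union, Finset.mem_biUnion] at hp
      rcases hp with hp | ⟨y, hy, hpZ⟩
      · rw [Finset.mem_inter] at hp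
        left
        rcases hq'.1 with h | h
        · left
          rw [mem_ebd, lv_iff]
          exact ⟨heE, p, q, hp.1, h, hqT.1, hep, heq⟩
        · right
          rw [mem_ebd, lv_iff]
          exact ⟨heE, p, q, hp.2, h, hqT.2, hep, heq⟩
      · right
        refine ⟨y, hy, ?_⟩
        rw [mem_ebd, lv_iff]
        refine ⟨heE, p, q, hpZ, ?_, ?_, hep, heq⟩
        · intro h
          exact hq'.2 (Finset.mem_biUnion.2 ⟨y, hy, h⟩)
        · intro h
          rcases Finset.mem_union.1 (hN y (hTP hy) h) with h' | h'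
          · exact hq (hPU h')
          · exact hqN h'
    have h3 : ed G U N ≤ (ed G U1 T1 + ed G U2 T2) +
        ((T1 ∪ T2).biUnion (fun y => ebd G (Z y) (FN G B t y))).card := by
      refine (Finset.card_le_card hsub).trans ((Finset.card_union_le _ _).trans ?_)
      exact Nat.add_le_add_right (Finset.card_union_le _ _) _
    have h4 : ((T1 ∪ T2).biUnion (fun y => ebd G (Z y) (FN G B t y))).card ≤
        (T1 ∪ T2).card * cm1 t := by
      refine Finset.card_biUnion_le_card_mul _ _ _ ?_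
      intro y hy
      exact (hZ y (hP (hTP hy))).2.2
    have h5 : (T1 ∪ T2).card ≤ 2 * cm0 t := by
      have := Finset.card_union_le T1 T2
      omega
    have h6 := Nat.mul_le_mul_right (cm1 t) h5
    have h7 : 2 * cm0 t * cm1 t = 2 * (cm0 t * cm1 t) := by ring
    rw [h7] at h6
    unfold ck
    omega

end Pool.Agent.W2411si
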