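import Pool.Agent.W_2411c4_h26.Weak

/-! Segments. -/

set_option autoImplicit false

namespace Pool.Agent.W2411si

open Pool.Agent.W2411c4

variable {Q : Type}

open Gr

/-- A segment: hubs `b 1, ..., b n`, nested sets `X 0 ⊆ ... ⊆ X (n + 1)`; its region is
`X (n + 1) \ X 0`. -/
structure Sg (G : Gr Q) (B A : Finset ℕ) (m Θ : ℕ) where
  n : ℕ
  b : ℕ → ℕ
  X : ℕ → Finset ℕ
  mono : ∀ i, i ≤ n → X i ⊆ X (i + 1)
  disA : ∀ i, i ≤ n + 1 → Disjoint (X i) A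
  b_in : ∀ i, 1 ≤ i → i ≤ n → b i ∈ X (i + 1)
  b_out : ∀ i, 1 ≤ i → i ≤ n → b i ∉ X i
  hubs : B ∩ (X (n + 1) \ X 0) = (Finset.Icc 1 n).image b
  ord : ∀ i, 1 ≤ i → i ≤ n → ed G (X i) (insert (b i) A) ≤ m
  ord0 : ed G (X 0) A ≤ m
  ord1 : ed G (X (n + 1)) A ≤ m
  strong : ∀ i, 1 ≤ i → i < n → ¬ Wk G B Θ (b i) (b (i + 1))

/-- the region of a segment -/
def Sg.R {G : Gr Q} {B A : Finset ℕ} {m Θ : ℕ} (s : Sg G B A m Θ) : Finset ℕ :=
  s.X (s.n + 1) \ s.X 0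

theorem ed_emptyset {G : Gr Q} {T : Finset ℕ} : ed G ∅ T = 0 := by
  unfold ed ebd Lv
  rw [Finset.card_eq_zero, Finset.filter_eq_empty_iff]
  intro e _
  simp

/-- the empty segment -/
def Sg.triv (G : Gr Q) (B A : Finset ℕ) (m Θ : ℕ) : Sg G B A m Θ where
  n := 0
  b := fun _ => 0
  X := fun _ => ∅
  mono := fun _ _ => Finset.Subset.refl _
  disA := fun _ _ => Finset.disjoint_empty_left _
  b_in := fun i h1 h2 => by omega
  b_out := fun i h1 h2 => by omega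
  hubs := by simp
  ord := fun i h1 h2 => by omega
  ord0 := by rw [ed_emptyset]; exact Nat.zero_le _
  ord1 := by rw [ed_emptyset]; exact Nat.zero_le _
  strong := fun i h1 h2 => by omega

theorem Sg.triv_R (G : Gr Q) (B A : Finset ℕ) (m Θ : ℕ) : (Sg.triv G B A m Θ).R = ∅ := by
  simp [Sg.R, Sg.triv]

end Pool.Agent.W2411si
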