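import Pool.Agent.W_2411c4_h26.SgDef

/-! Consequences for the region of a segment. -/

set_option autoImplicit false

namespace Pool.Agent.W2411si

open Pool.Agent.W2411c4

variable {Q : Type}

open Gr

/-- edges between `L` and `R \ L`, not counting those at `T` -/
def eb (G : Gr Q) (R L T : Finset ℕ) : ℕ :=
  (G.E.filter fun e => (G.a e ∈ L ∧ G.b e ∈ R \ L ∧ G.b e ∉ T) ∨
    (G.b e ∈ L ∧ G.a e ∈ R \ L ∧ G.a e ∉ T)).card

namespace Sg

variable {G : Gr Q} {B A : Finset ℕ} {m Θ : ℕ} (s : Sg G B A m Θ)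

theorem X_mono {i j : ℕ} (hij : i ≤ j) (hj : j ≤ s.n + 1) : s.X i ⊆ s.X j := by
  induction hij with
  | refl => exact Finset.Subset.refl _
  | @step k hk ih => exact (ih (by omega)).trans (s.mono k (by omega))

theorem R_disjA : Disjoint s.R A := by
  rw [Finset.disjoint_left]
  intro v hv hvA
  exact Finset.disjoint_left.1 (s.disA (s.n + 1) le_rfl) (Finset.mem_sdiff.1 hv).1 hvA

theorem b_R {i : ℕ} (h1 : 1 ≤ i) (h2 : i ≤ s.n) : s.b i ∈ s.R :=
  Finset.mem_sdiff.2 ⟨s.X_mono (by omega) le_rfl (s.b_in i h1 h2),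
    fun h => s.b_out i h1 h2 (s.X_mono (by omega) (by omega) h)⟩

theorem b_B {i : ℕ} (h1 : 1 ≤ i) (h2 : i ≤ s.n) : s.b i ∈ B := by
  have h3 : s.b i ∈ (Finset.Icc 1 s.n).image s.b :=
    Finset.mem_image_of_mem _ (Finset.mem_Icc.2 ⟨h1, h2⟩)
  rw [← s.hubs] at h3
  exact (Finset.mem_inter.1 h3).1

theorem mem_X_iff {i j : ℕ} (_hi : 1 ≤ i) (hi' : i ≤ s.n + 1) (hj : 1 ≤ j) (hj' : j ≤ s.n) :
    s.b j ∈ s.X i ↔ j < i := by
  constructor
  · intro h
    by_contra hcon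
    exact s.b_out j hj hj' (s.X_mono (by omega) (by omega) h)
  · intro h
    exact s.X_mono (by omega) hi' (s.b_in j hj hj')

theorem b_inj {i j : ℕ} (hi : 1 ≤ i) (hi' : i ≤ s.n) (hj : 1 ≤ j) (hj' : j ≤ s.n)
    (h : s.b i = s.b j) : i = j := by
  by_contra hne
  rcases Nat.lt_or_gt_of_ne hne with h1 | h1
  · exact s.b_out j hj hj' (h ▸ (s.mem_X_iff (i := j) hj (by omega) hi hi').2 h1)
  · exact s.b_out i hi hi' (h ▸ (s.mem_X_iff (i := i) hi (by omega) hj hj').2 h1)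

/-- the region has a small boundary in `G - A` -/
theorem ed_R : ed G s.R A ≤ 2 * m := by
  classical
  have h0 := s.ord0
  have h1 := s.ord1
  have h2 : ebd G s.R A ⊆ ebd G (s.X 0) A ∪ ebd G (s.X (s.n + 1)) A := by
    intro e he
    rw [mem_ebd, lv_iff] at he
    obtain ⟨heE, p, q, hp, hq, hqA, hep, heq⟩ := he
    have hp' := Finset.mem_sdiff.1 hp
    rw [Finset.mem_union, mem_ebd, mem_ebd, lv_iff, lv_iff]
    by_cases hq0 : q ∈ s.X 0
    · exact Or.inl ⟨heE, q, p, hq0, hp'.2, fun h =>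
        Finset.disjoint_left.1 s.R_disjA hp h, heq, hep⟩
    · refine Or.inr ⟨heE, p, q, hp'.1, ?_, hqA, hep, heq⟩
      intro h
      exact hq (Finset.mem_sdiff.2 ⟨h, hq0⟩)
  have h3 := Finset.card_le_card h2
  have h4 := Finset.card_union_le (ebd G (s.X 0) A) (ebd G (s.X (s.n + 1)) A)
  unfold ed at *
  omega

/-- few edges pass a hub inside the region -/
theorem eb_le {i : ℕ} (h1 : 1 ≤ i) (h2 : i ≤ s.n) : eb G s.R (s.X i \ s.X 0) {s.b i} ≤ m := by
  classical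
  refine le_trans (Finset.card_le_card ?_) (s.ord i h1 h2)
  intro e he
  rw [Finset.mem_filter] at he
  rw [mem_ebd, lv_iff]
  refine ⟨he.1, ?_⟩
  have key : ∀ p q, p ∈ s.X i \ s.X 0 → q ∈ s.R \ (s.X i \ s.X 0) → q ∉ ({s.b i} : Finset ℕ) →
      p ∈ s.X i ∧ q ∉ s.X i ∧ q ∉ insert (s.b i) A := by
    intro p q hp hq hqb
    rw [Finset.mem_sdiff] at hp hq
    refine ⟨hp.1, fun h => hq.2 (Finset.mem_sdiff.2 ⟨h, (Finset.mem_sdiff.1 hq.1).2⟩), ?_⟩
    rw [Finset.mem_insert, not_or]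
    rw [Finset.mem_singleton] at hqb
    exact ⟨hqb, fun h => Finset.disjoint_left.1 s.R_disjA hq.1 h⟩
  rcases he.2 with ⟨h3, h4, h5⟩ | ⟨h3, h4, h5⟩
  · obtain ⟨k1, k2, k3⟩ := key _ _ h3 h4 h5
    exact ⟨_, _, k1, k2, k3, Or.inl rfl, Or.inr rfl⟩
  · obtain ⟨k1, k2, k3⟩ := key _ _ h3 h4 h5
    exact ⟨_, _, k1, k2, k3, Or.inr rfl, Or.inl rfl⟩

/-- many edges between consecutive hubs inside the region -/
theorem eb_ge (hAB : A ⊆ B) {i : ℕ} (h1 : 1 ≤ i) (h2 : i < s.n) {L : Finset ℕ} (hL : L ⊆ s.R)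
    (hb : ∀ j, 1 ≤ j → j ≤ s.n → (s.b j ∈ L ↔ j ≤ i)) : Θ ≤ eb G s.R L ∅ + 2 * m := by
  classical
  have h3 := s.strong i h1 h2
  have hbi := s.b_R h1 h2.le
  have hbB := s.b_B h1 h2.le
  have hRB : ∀ v, v ∈ s.R → v ∈ B → ∃ j, 1 ≤ j ∧ j ≤ s.n ∧ s.b j = v := by
    intro v hv hvB
    have h4 : v ∈ B ∩ (s.X (s.n + 1) \ s.X 0) := Finset.mem_inter.2 ⟨hvB, hv⟩
    rw [s.hubs, Finset.mem_image] at h4
    obtain ⟨j, hj, rfl⟩ := h4
    exact ⟨j, (Finset.mem_Icc.1 hj).1, (Finset.mem_Icc.1 hj).2, rfl⟩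
  let S : Finset ℕ := insert (s.b i) (L \ B)
  have hS : B ∩ S = {s.b i} := by
    ext v
    simp only [S, Finset.mem_inter, Finset.mem_insert, Finset.mem_sdiff, Finset.mem_singleton]
    constructor
    · rintro ⟨hv, rfl | ⟨_, hv'⟩⟩
      · rfl
      · exact absurd hv hv'
    · rintro rfl
      exact ⟨hbB, Or.inl rfl⟩
  have h4 : Θ ≤ ed G S (B \ {s.b i, s.b (i + 1)}) := by
    by_contra hcon
    exact h3 ⟨S, hS, not_le.1 hcon⟩
  have h5 := s.ed_R
  have h6 : ebd G S (B \ {s.b i, s.b (i + 1)}) ⊆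
      (G.E.filter fun e => (G.a e ∈ L ∧ G.b e ∈ s.R \ L ∧ G.b e ∉ (∅ : Finset ℕ)) ∨
        (G.b e ∈ L ∧ G.a e ∈ s.R \ L ∧ G.a e ∉ (∅ : Finset ℕ))) ∪ ebd G s.R A := by
    intro e he
    rw [mem_ebd, lv_iff] at he
    obtain ⟨heE, p, q, hp, hq, hqB, hep, heq⟩ := he
    have hpL : p ∈ L := by
      rcases Finset.mem_insert.1 hp with rfl | h
      · exact (hb i h1 h2.le).2 le_rfl
      · exact (Finset.mem_sdiff.1 h).1
    have hpR := hL hpL
    have hqi : q ≠ s.b i := by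
      rintro rfl
      exact hq (Finset.mem_insert_self _ _)
    have hqq : q ∈ B → q = s.b (i + 1) := by
      intro h
      by_contra hne
      apply hqB
      rw [Finset.mem_sdiff, Finset.mem_insert, Finset.mem_singleton]
      tauto
    have hqL : q ∉ L := by
      intro h
      by_cases hB : q ∈ B
      · have h7 := hqq hB
        rw [h7] at h
        have := (hb (i + 1) (by omega) (by omega)).1 h
        omega
      · exact hq (Finset.mem_insert_of_mem (Finset.mem_sdiff.2 ⟨h, hB⟩))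
    rw [Finset.mem_union]
    by_cases hqR : q ∈ s.R
    · left
      rw [Finset.mem_filter]
      refine ⟨heE, ?_⟩
      rcases hep with rfl | rfl <;> rcases heq with rfl | rfl
      · exact absurd hpL hqL
      · exact Or.inl ⟨hpL, Finset.mem_sdiff.2 ⟨hqR, hqL⟩, Finset.notMem_empty _⟩
      · exact Or.inr ⟨hpL, Finset.mem_sdiff.2 ⟨hqR, hqL⟩, Finset.notMem_empty _⟩
      · exact absurd hpL hqL
    · right
      rw [mem_ebd, lv_iff]
      refine ⟨heE, p, q, hpR, hqR, ?_, hep, heq⟩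
      intro hqA
      by_cases hB : q ∈ B
      · have h7 := hqq hB
        exact hqR (h7 ▸ s.b_R (by omega) (by omega))
      · exact hB (hAB hqA)
  have h7 := Finset.card_le_card h6
  have h8 := Finset.card_union_le (G.E.filter fun e => (G.a e ∈ L ∧ G.b e ∈ s.R \ L ∧
    G.b e ∉ (∅ : Finset ℕ)) ∨ (G.b e ∈ L ∧ G.a e ∈ s.R \ L ∧ G.a e ∉ (∅ : Finset ℕ)))
    (ebd G s.R A)
  unfold ed at *
  unfold eb
  omega

end Sg

end Pool.Agent.W2411si
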