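import Pool.Agent.W_2411c4_h59.Cut
import Pool.Agent.W_895653_h19.MengerB

/-! A slab between two nested best sets `L ⊆ L'`, with one hub `h ∈ L' \ L`: all edges of `bd L` and
`bd L'` are covered by disjoint strands which end at the hub or pass from `L` to `L'` without touching
the hub. -/

set_option autoImplicit false

namespace Pool.Agent.W2411si

open Pool.Agent.W2411c4

variable {Q : Type}

open Gr

instance decInc (G : Gr Q) (e v : ℕ) : Decidable (G.Inc e v) := by unfold Gr.Inc; infer_instance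

/-- the strands of a slab; `thr e f`: the strand from `e ∈ bd L` to `f ∈ bd L'` avoids the hub -/
structure Slab (G : Gr Q) (L L' : Finset ℕ) (h : ℕ) where
  thr : ℕ → ℕ → Prop
  P : ℕ → Set ℕ
  P' : ℕ → Set ℕ
  thr_mem : ∀ e f, thr e f → e ∈ G.bd L ∧ f ∈ G.bd L'
  thr_left : ∀ e f f', thr e f → thr e f' → f = f'
  thr_right : ∀ e e' f, thr e f → thr e' f → e = e'
  thr_eq : ∀ e f, thr e f → P e = P' f
  self : ∀ e ∈ G.bd L, e ∈ P e
  self' : ∀ f ∈ G.bd L', f ∈ P' f
  sub : ∀ e ∈ G.bd L, ∀ g ∈ P e, g ∈ G.E ∧ (g = e ∨ G.Inner (L' \ L) g ∨ thr e g)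
  sub' : ∀ f ∈ G.bd L', ∀ g ∈ P' f, g ∈ G.E ∧ (g = f ∨ G.Inner (L' \ L) g ∨ thr g f)
  conn : ∀ e ∈ G.bd L, (∀ f, ¬ thr e f) → ∀ z, G.Inc e z → G.Conn (P e) z h
  conn' : ∀ f ∈ G.bd L', (∀ e, ¬ thr e f) → ∀ z, G.Inc f z → G.Conn (P' f) z h
  connT : ∀ e f, thr e f → ∀ z w, G.Inc e z → G.Inc f w → G.Conn (P e) z w
  avoid : ∀ e f, thr e f → ∀ g ∈ P e, ¬ G.Inc g h
  disj : ∀ e ∈ G.bd L, ∀ e' ∈ G.bd L, e ≠ e' → Disjoint (P e) (P e')
  disj' : ∀ f ∈ G.bd L', ∀ f' ∈ G.bd L', f ≠ f' → Disjoint (P' f) (P' f')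
  disjT : ∀ e ∈ G.bd L, ∀ f ∈ G.bd L', ¬ thr e f → Disjoint (P e) (P' f)

private theorem slab_walk {G : Gr Q} {F : Set ℕ} {g : ℕ → ℕ} {N : ℕ} (hF : ∀ n ≤ N, g n ∈ F)
    (hs : ∀ n < N, ∃ v, G.Inc (g n) v ∧ G.Inc (g (n + 1)) v) :
    ∀ z, G.Inc (g 0) z → ∀ w, G.Inc (g N) w → G.Conn F z w := by
  induction N with
  | zero =>
    intro z hz w hw
    exact conn_edge (hF 0 le_rfl) hz hw
  | succ N ih =>
    intro z hz w hw
    obtain ⟨v, h1, h2⟩ := hs N (Nat.lt_succ_self N)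
    exact (ih (fun n hn => hF n (by omega)) (fun n hn => hs n (by omega)) z hz v h1).trans
      (conn_edge (hF (N + 1) le_rfl) h2 hw)

private theorem slab_walkT {G : Gr Q} {F : Set ℕ} {g : ℕ → ℕ} {N h : ℕ}
    (hF : ∀ n ≤ N, ¬ G.Inc (g n) h → g n ∈ F) (h0 : ¬ G.Inc (g 0) h)
    (hs : ∀ n < N, ∃ v, v ≠ h ∧ G.Inc (g n) v ∧ G.Inc (g (n + 1)) v) :
    ∀ z, G.Inc (g 0) z → ∀ w, w ≠ h → G.Inc (g N) w → G.Conn F z w := by
  induction N with
  | zero =>
    intro z hz w _ hw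
    exact conn_edge (hF 0 le_rfl h0) hz hw
  | succ N ih =>
    intro z hz w hwh hw
    obtain ⟨v, hv, h1, h2⟩ := hs N (Nat.lt_succ_self N)
    have h3 := ih (fun n hn => hF n (by omega)) (fun n hn => hs n (by omega)) z hz v hv h1
    by_cases hh : G.Inc (g (N + 1)) h
    · have h4 : w = v := by
        unfold Gr.Inc at hh h2 hw
        omega
      rw [h4]
      exact h3
    · exact h3.trans (conn_edge (hF (N + 1) le_rfl hh) h2 hw)

/-- **The slab lemma, case `d L ≤ d L'`.**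
Proof. Let `k := G.d L'`. Digraph: nodes `inl e` for the edges `e ∈ G.E` with an end in `L' \ L` or
crossing both `L` and `L'`, `inr (inl i)` (`i < k - G.d L`, hub sources), `inr (inr i)` (`i < k`, hub
transits). Arcs: `inl e → inl f` iff `e`, `f` have a common end in `(L' \ L) \ {h}`; `inl e → transit`
iff `h` is an end of `e`; `source → inl f`, `transit → inl f` iff `h` is an end of `f`. Starts: `inl e`,
`e ∈ bd L`, and all hub sources (`k` in all); ends: `inl f`, `f ∈ bd L'` (`k` in all). `menger_thm`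
with this `k`: let `S` have fewer than `k` nodes and meet all paths, `R` the nodes reachable from
starts outside `S`; `U := L ∪ {v ∈ L' \ L, v ≠ h, v is an end of an edge in R}`, together with `h` if
some hub source or transit is in `R`. All edges of `bd U` are in `S` (check the three kinds of inner
ends; if a hub edge is reachable then so is a transit, because `S` does not contain all `k` transits).
If `h ∉ U` then `S` also contains the `k - G.d L` hub sources, so `S.card ≥ G.d U + (k - G.d L) ≥ k`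
by `C1`; if `h ∈ U` then `S.card ≥ G.d U ≥ k` by `C2`. As there are `k` starts and `k` ends, all are
used. A path without hub nodes gives `thr e f`, `P e = P' f :=` its edges which are not incident with
`h` (still connected: walk along the path; `e`, `f` are not incident with `h`; if `e = f` crosses both
sets the path is trivial). In a path from `inl e` with a transit, `P e` is the set of the edges before
the first transit; in a path with a transit or a hub source, `P' f` is the set of the edges after the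
last one. -/
theorem slab_le {G : Gr Q} {L L' : Finset ℕ} {h : ℕ} (hLL : L ⊆ L') (hh : h ∈ L' \ L)
    (C1 : ∀ U : Finset ℕ, L ⊆ U → U ⊆ L' → h ∉ U → G.d L ≤ G.d U)
    (C2 : ∀ U : Finset ℕ, L ⊆ U → U ⊆ L' → h ∈ U → G.d L' ≤ G.d U)
    (hle : G.d L ≤ G.d L') : Nonempty (Slab G L L' h) := by
  classical
  obtain ⟨k, hk⟩ : ∃ k, k = G.d L' := ⟨_, rfl⟩
  let V : Type := {e // e ∈ G.E} ⊕ (Fin (k - G.d L) ⊕ Fin k)
  let D : V → V → Prop := fun x y => match x, y with
    | .inl e, .inl f => ∃ v, v ∈ L' \ L ∧ v ≠ h ∧ G.Inc e.1 v ∧ G.Inc f.1 v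
    | .inl e, .inr (.inr _) => G.Inc e.1 h
    | .inr _, .inl f => G.Inc f.1 h
    | .inl _, .inr (.inl _) => False
    | .inr _, .inr _ => False
  let A : Finset V := Finset.univ.filter fun x =>
    (∃ e, x = .inl e ∧ e.1 ∈ G.bd L) ∨ ∃ i, x = .inr (.inl i)
  let B : Finset V := Finset.univ.filter fun x => ∃ e, x = .inl e ∧ e.1 ∈ G.bd L'
  have memA : ∀ x : V, x ∈ A ↔ (∃ e, x = .inl e ∧ e.1 ∈ G.bd L) ∨ ∃ i, x = .inr (.inl i) := by
    simp [A]
  have memB : ∀ x : V, x ∈ B ↔ ∃ e, x = .inl e ∧ e.1 ∈ G.bd L' := by simp [B]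
  have hhL' : h ∈ L' := (Finset.mem_sdiff.1 hh).1
  have hhL : h ∉ L := (Finset.mem_sdiff.1 hh).2
  have hM : Nonempty (Pool.Agent.W895653.Lk D A B k) := by
    apply Pool.Agent.W895653.menger_thm
    intro Sg hSg
    by_contra hcon
    let R : V → Prop := fun x => ∃ a ∈ A, a ∉ Sg ∧
      Relation.ReflTransGen (fun x y => D x y ∧ y ∉ Sg) a x
    have hRA : ∀ x ∈ A, x ∉ Sg → R x := fun x h1 h2 => ⟨x, h1, h2, Relation.ReflTransGen.refl⟩
    have hRs : ∀ x y, R x → D x y → y ∉ Sg → R y := by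
      rintro x y ⟨a, h1, h2, h3⟩ h4 h5
      exact ⟨a, h1, h2, h3.tail ⟨h4, h5⟩⟩
    let W : Finset ℕ := (L' \ L).filter fun v =>
      (v ≠ h ∧ ∃ e : {e // e ∈ G.E}, R (.inl e) ∧ G.Inc e.1 v) ∨ (v = h ∧ ∃ t, R (.inr t))
    have memW : ∀ v, v ∈ W ↔ v ∈ L' \ L ∧
        ((v ≠ h ∧ ∃ e : {e // e ∈ G.E}, R (.inl e) ∧ G.Inc e.1 v) ∨ (v = h ∧ ∃ t, R (.inr t))) := by
      intro v
      simp only [W, Finset.mem_filter]
    obtain ⟨U, hU⟩ : ∃ U : Finset ℕ, U = L ∪ W := ⟨_, rfl⟩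
    have memU : ∀ v, v ∈ U ↔ v ∈ L ∨ v ∈ W := fun v => by rw [hU, Finset.mem_union]
    have hLU : L ⊆ U := fun v hv => (memU v).2 (Or.inl hv)
    have hUL : U ⊆ L' := by
      intro v hv
      rcases (memU v).1 hv with h1 | h1
      · exact hLL h1
      · exact (Finset.mem_sdiff.1 ((memW v).1 h1).1).1
    have hhU : h ∈ U ↔ ∃ t, R (.inr t) := by
      rw [memU, memW]
      constructor
      · rintro (h1 | ⟨-, ⟨h1, -⟩ | ⟨-, h1⟩⟩)
        · exact absurd h1 hhL
        · exact absurd rfl h1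
        · exact h1
      · intro h1
        exact Or.inr ⟨hh, Or.inr ⟨rfl, h1⟩⟩
    have htr : ∃ i : Fin k, (.inr (.inr i) : V) ∉ Sg := by
      by_contra hno
      push Not at hno
      have h1 : (Finset.univ : Finset (Fin k)).image (fun i => (.inr (.inr i) : V)) ⊆ Sg := by
        intro x hx
        obtain ⟨i, -, rfl⟩ := Finset.mem_image.1 hx
        exact hno i
      have h2 := Finset.card_le_card h1
      rw [Finset.card_image_of_injective _ (fun i j hij => by simpa using hij), Finset.card_univ,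
        Fintype.card_fin] at h2
      omega
    have hbd : ∀ e ∈ G.bd U, ∃ he : e ∈ G.E, (.inl ⟨e, he⟩ : V) ∈ Sg := by
      intro e he
      obtain ⟨heE, hcr⟩ := G.mem_bd.1 he
      refine ⟨heE, ?_⟩
      by_contra heS
      obtain ⟨u, v, hu, hv, hue, hve⟩ : ∃ u v, u ∈ U ∧ v ∉ U ∧ G.Inc e u ∧ G.Inc e v := by
        rcases hcr with ⟨h1, h2⟩ | ⟨h1, h2⟩
        · exact ⟨_, _, h1, h2, Or.inl rfl, Or.inr rfl⟩
        · exact ⟨_, _, h2, h1, Or.inr rfl, Or.inl rfl⟩
      have hcross : ∀ X : Finset ℕ, u ∈ X → v ∉ X → G.Cross X e := by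
        intro X h1 h2
        unfold Gr.Inc at hue hve
        unfold Gr.Cross
        rcases hue with rfl | rfl <;> rcases hve with rfl | rfl
        · exact absurd h1 h2
        · exact Or.inl ⟨h1, h2⟩
        · exact Or.inr ⟨h2, h1⟩
        · exact absurd h1 h2
      have hvL : v ∉ L := fun h1 => hv (hLU h1)
      have hR : R (.inl ⟨e, heE⟩) := by
        rcases (memU u).1 hu with h1 | h1
        · exact hRA _ ((memA _).2 (Or.inl ⟨_, rfl, G.mem_bd.2 ⟨heE, hcross L h1 hvL⟩⟩)) heS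
        · obtain ⟨h2, ⟨h3, e', h4, h5⟩ | ⟨h3, t, h4⟩⟩ := (memW u).1 h1
          · exact hRs _ _ h4 ⟨u, h2, h3, h5, hue⟩ heS
          · refine hRs _ _ h4 ?_ heS
            rw [h3] at hue
            exact hue
      by_cases hvL' : v ∈ L'
      · by_cases hvh : v = h
        · obtain ⟨i, hi⟩ := htr
          refine hv (hvh ▸ hhU.2 ⟨.inr i, hRs _ _ hR ?_ hi⟩)
          rw [hvh] at hve
          exact hve
        · exact hv ((memU v).2 (Or.inr ((memW v).2 ⟨Finset.mem_sdiff.2 ⟨hvL', hvL⟩,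
            Or.inl ⟨hvh, _, hR, hve⟩⟩)))
      · obtain ⟨a, h1, h2, h3⟩ := hR
        exact hcon ⟨a, h1, h2, _, (memB _).2 ⟨_, rfl, G.mem_bd.2 ⟨heE, hcross L' (hUL hu) hvL'⟩⟩,
          heS, h3⟩
    by_cases hc : h ∈ U
    · have h1 := C2 U hLU hUL hc
      have h2 : G.bd U ⊆ Sg.image (fun x => match x with | .inl e => e.1 | .inr _ => 0) := by
        intro e he
        obtain ⟨heE, hes⟩ := hbd e he
        exact Finset.mem_image.2 ⟨_, hes, rfl⟩
      have h3 := (Finset.card_le_card h2).trans Finset.card_image_le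
      have h4 : G.d U ≤ Sg.card := h3
      omega
    · have h1 := C1 U hLU hUL hc
      let g : V → ℕ ⊕ Fin (k - G.d L) := fun x => match x with
        | .inl e => .inl e.1
        | .inr (.inl i) => .inr i
        | .inr (.inr _) => .inl 0
      have h2 : (G.bd U).disjSum (Finset.univ : Finset (Fin (k - G.d L))) ⊆ Sg.image g := by
        intro x hx
        rw [Finset.mem_disjSum] at hx
        rcases hx with ⟨e, he, rfl⟩ | ⟨i, -, rfl⟩
        · obtain ⟨heE, hes⟩ := hbd e he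
          exact Finset.mem_image.2 ⟨_, hes, rfl⟩
        · refine Finset.mem_image.2 ⟨.inr (.inl i), ?_, rfl⟩
          by_contra hno
          exact hc (hhU.2 ⟨_, hRA _ ((memA _).2 (Or.inr ⟨i, rfl⟩)) hno⟩)
      have h3 := (Finset.card_le_card h2).trans Finset.card_image_le
      rw [Finset.card_disjSum, Finset.card_univ, Fintype.card_fin] at h3
      have h4 : G.d U = (G.bd U).card := rfl
      omega
  obtain ⟨S⟩ := hM
  -- all starts and all ends are used
  have hcardA : A.card ≤ k := by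
    have h1 : A ⊆ ((G.bd L).attach.image (fun e => (.inl ⟨e.1, (G.mem_bd.1 e.2).1⟩ : V))) ∪
        (Finset.univ : Finset (Fin (k - G.d L))).image (fun i => (.inr (.inl i) : V)) := by
      intro x hx
      rw [Finset.mem_union]
      rcases (memA x).1 hx with ⟨e, rfl, he⟩ | ⟨i, rfl⟩
      · exact Or.inl (Finset.mem_image.2 ⟨⟨e.1, he⟩, Finset.mem_attach _ _, rfl⟩)
      · exact Or.inr (Finset.mem_image.2 ⟨i, Finset.mem_univ _, rfl⟩)
    have h2 := (Finset.card_le_card h1).trans (Finset.card_union_le _ _)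
    have h3 : ((G.bd L).attach.image (fun e => (.inl ⟨e.1, (G.mem_bd.1 e.2).1⟩ : V))).card ≤
        G.d L := by
      refine Finset.card_image_le.trans ?_
      rw [Finset.card_attach]
      exact le_rfl
    have h4 : ((Finset.univ : Finset (Fin (k - G.d L))).image
        (fun i => (.inr (.inl i) : V))).card ≤ k - G.d L := by
      refine Finset.card_image_le.trans ?_
      rw [Finset.card_univ, Fintype.card_fin]
    omega
  have hcardB : B.card ≤ k := by
    have h1 : B ⊆ ((G.bd L').attach.image (fun e => (.inl ⟨e.1, (G.mem_bd.1 e.2).1⟩ : V))) := by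
      intro x hx
      obtain ⟨e, rfl, he⟩ := (memB x).1 hx
      exact Finset.mem_image.2 ⟨⟨e.1, he⟩, Finset.mem_attach _ _, rfl⟩
    refine (Finset.card_le_card h1).trans (Finset.card_image_le.trans ?_)
    rw [Finset.card_attach, hk]
    exact le_rfl
  have hsA : ∀ x ∈ A, ∃ i, S.p i 0 = x := by
    have h1 : (Finset.univ : Finset (Fin k)).image (fun i => S.p i 0) = A := by
      apply Finset.eq_of_subset_of_card_le
      · intro x hx
        obtain ⟨i, -, rfl⟩ := Finset.mem_image.1 hx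
        exact S.start i
      · rw [Finset.card_image_of_injective _ (fun i j hij =>
          (S.inj i 0 j 0 (Nat.zero_le _) (Nat.zero_le _) hij).1), Finset.card_univ,
          Fintype.card_fin]
        exact hcardA
    intro x hx
    rw [← h1] at hx
    obtain ⟨i, -, hi⟩ := Finset.mem_image.1 hx
    exact ⟨i, hi⟩
  have hsB : ∀ x ∈ B, ∃ i, S.p i (S.len i) = x := by
    have h1 : (Finset.univ : Finset (Fin k)).image (fun i => S.p i (S.len i)) = B := by
      apply Finset.eq_of_subset_of_card_le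
      · intro x hx
        obtain ⟨i, -, rfl⟩ := Finset.mem_image.1 hx
        exact S.stop i
      · rw [Finset.card_image_of_injective _ (fun i j hij =>
          (S.inj i _ j _ le_rfl le_rfl hij).1), Finset.card_univ, Fintype.card_fin]
        exact hcardB
    intro x hx
    rw [← h1] at hx
    obtain ⟨i, -, hi⟩ := Finset.mem_image.1 hx
    exact ⟨i, hi⟩
  -- node number `n` of the path `i` is the edge `g`
  let nd : Fin k → ℕ → ℕ → Prop := fun i n g => ∃ hg : g ∈ G.E, S.p i n = .inl ⟨g, hg⟩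
  have nd_fun : ∀ i n g g', nd i n g → nd i n g' → g = g' := by
    rintro i n g g' ⟨h1, h2⟩ ⟨h3, h4⟩
    rw [h2] at h4
    exact congrArg Subtype.val (Sum.inl.inj h4)
  have nd_inj : ∀ i n j m g, n ≤ S.len i → m ≤ S.len j → nd i n g → nd j m g → i = j ∧ n = m := by
    rintro i n j m g hn hm ⟨h1, h2⟩ ⟨h3, h4⟩
    exact S.inj i n j m hn hm (h2.trans h4.symm)
  have nd_or : ∀ i n, (∃ g, nd i n g) ∨ ∃ t, S.p i n = .inr t := by
    intro i n
    rcases hx : S.p i n with e | t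
    · exact Or.inl ⟨e.1, e.2, hx⟩
    · exact Or.inr ⟨t, rfl⟩
  have nd_not : ∀ i n, (∃ g, nd i n g) → ¬ ∃ t, S.p i n = .inr t := by
    rintro i n ⟨g, h1, h2⟩ ⟨t, h3⟩
    rw [h2] at h3
    cases h3
  have stepEE : ∀ i n g g', n < S.len i → nd i n g → nd i (n + 1) g' →
      ∃ v, v ∈ L' \ L ∧ v ≠ h ∧ G.Inc g v ∧ G.Inc g' v := by
    rintro i n g g' hn ⟨h1, h2⟩ ⟨h3, h4⟩
    have h5 := S.step i n hn
    rw [h2, h4] at h5
    exact h5
  have stepET : ∀ i n g, n < S.len i → nd i n g → (∃ t, S.p i (n + 1) = .inr t) → G.Inc g h := by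
    rintro i n g hn ⟨h1, h2⟩ ⟨t, h3⟩
    have h5 := S.step i n hn
    rw [h2, h3] at h5
    rcases t with t | t
    · exact h5.elim
    · exact h5
  have stepTE : ∀ i n, n < S.len i → (∃ t, S.p i n = .inr t) →
      ∃ g, nd i (n + 1) g ∧ G.Inc g h := by
    rintro i n hn ⟨t, h3⟩
    have h5 := S.step i n hn
    rcases nd_or i (n + 1) with ⟨g, h6, h7⟩ | ⟨t', h6⟩
    · rw [h3, h7] at h5
      exact ⟨g, ⟨h6, h7⟩, h5⟩
    · rw [h3, h6] at h5
      exact h5.elim
  have ndL : ∀ e ∈ G.bd L, ∃ i, nd i 0 e := by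
    intro e he
    have heE := (G.mem_bd.1 he).1
    obtain ⟨i, hi⟩ := hsA (.inl ⟨e, heE⟩) ((memA _).2 (Or.inl ⟨_, rfl, he⟩))
    exact ⟨i, heE, hi⟩
  have ndL' : ∀ f ∈ G.bd L', ∃ i, nd i (S.len i) f := by
    intro f hf
    have hfE := (G.mem_bd.1 hf).1
    obtain ⟨i, hi⟩ := hsB (.inl ⟨f, hfE⟩) ((memB _).2 ⟨_, rfl, hf⟩)
    exact ⟨i, hfE, hi⟩
  have ndE : ∀ i, ∃ f ∈ G.bd L', nd i (S.len i) f := by
    intro i
    obtain ⟨f, h1, h2⟩ := (memB _).1 (S.stop i)
    exact ⟨f.1, h2, f.2, h1⟩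
  have ndS : ∀ i e, nd i 0 e → e ∈ G.bd L := by
    rintro i e ⟨h1, h2⟩
    rcases (memA _).1 (S.start i) with ⟨e', h3, h4⟩ | ⟨j, h3⟩
    · rw [h2] at h3
      have : e = e'.1 := congrArg Subtype.val (Sum.inl.inj h3)
      rw [this]
      exact h4
    · rw [h2] at h3
      cases h3
  have ndE' : ∀ i f, nd i (S.len i) f → f ∈ G.bd L' := by
    intro i f hf
    obtain ⟨f', h1, h2⟩ := ndE i
    rw [nd_fun i _ f f' hf h2]
    exact h1
  -- positions of boundary edges
  have pos0 : ∀ i n g, n ≤ S.len i → nd i n g → g ∈ G.bd L → n = 0 := by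
    intro i n g hn hg hb
    obtain ⟨j, hj⟩ := ndL g hb
    exact (nd_inj i n j 0 g hn (Nat.zero_le _) hg hj).2
  have posl : ∀ i n g, n ≤ S.len i → nd i n g → g ∈ G.bd L' → n = S.len i := by
    intro i n g hn hg hb
    obtain ⟨j, hj⟩ := ndL' g hb
    obtain ⟨h1, h2⟩ := nd_inj i n j (S.len j) g hn le_rfl hg hj
    rw [h2, h1]
  have ndgE : ∀ i n g, nd i n g → g ∈ G.E := fun i n g h1 => h1.1
  -- an edge with an end in the slab
  have tri : ∀ g ∈ G.E, ∀ v, v ∈ L' \ L → G.Inc g v →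
      G.Inner (L' \ L) g ∨ g ∈ G.bd L ∨ g ∈ G.bd L' := by
    intro g hg v hv hgv
    rw [G.mem_bd, G.mem_bd]
    unfold Gr.Inner Gr.Cross
    rw [Finset.mem_sdiff] at hv ⊢
    rw [Finset.mem_sdiff]
    have i1 : G.a g ∈ L → G.a g ∈ L' := fun h' => hLL h'
    have i2 : G.b g ∈ L → G.b g ∈ L' := fun h' => hLL h'
    rcases hgv with rfl | rfl <;> tauto
  have incA : ∀ i e, nd i 0 e → G.Inc e h → 0 < S.len i ∧ ∃ t, S.p i 1 = .inr t := by
    intro i e he heh
    have hb := ndS i e he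
    have hlen : 0 < S.len i := by
      by_contra h0
      have h0 : S.len i = 0 := by omega
      have h1 : nd i (S.len i) e := by rw [h0]; exact he
      have h2 := ndE' i e h1
      rw [G.mem_bd] at hb h2
      unfold Gr.Cross at hb h2
      unfold Gr.Inc at heh
      have i1 : G.a e ∈ L → G.a e ∈ L' := fun h' => hLL h'
      have i2 : G.b e ∈ L → G.b e ∈ L' := fun h' => hLL h'
      rcases heh with rfl | rfl <;> tauto
    refine ⟨hlen, ?_⟩
    rcases nd_or i 1 with ⟨g, hg⟩ | h1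
    · exfalso
      obtain ⟨v, hv, hvh, h1, h2⟩ := stepEE i 0 e g hlen he hg
      rw [G.mem_bd] at hb
      unfold Gr.Cross at hb
      unfold Gr.Inc at heh h1
      rw [Finset.mem_sdiff] at hv
      rcases heh with h3 | h3 <;> rcases h1 with h4 | h4
      · exact hvh (h4.trans h3.symm)
      · rw [← h3, ← h4] at hb
        tauto
      · rw [← h3, ← h4] at hb
        tauto
      · exact hvh (h4.trans h3.symm)
    · exact h1
  have incB : ∀ i f, nd i (S.len i) f → G.Inc f h →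
      ∃ n, n + 1 = S.len i ∧ ∃ t, S.p i n = .inr t := by
    intro i f hf hfh
    have hb := ndE' i f hf
    have hlen : 0 < S.len i := by
      by_contra h0
      have h0 : S.len i = 0 := by omega
      have h1 : nd i 0 f := by rw [h0] at hf; exact hf
      have h2 := ndS i f h1
      rw [G.mem_bd] at hb h2
      unfold Gr.Cross at hb h2
      unfold Gr.Inc at hfh
      have i1 : G.a f ∈ L → G.a f ∈ L' := fun h' => hLL h'
      have i2 : G.b f ∈ L → G.b f ∈ L' := fun h' => hLL h'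
      rcases hfh with rfl | rfl <;> tauto
    obtain ⟨n, hn⟩ : ∃ n, n + 1 = S.len i := ⟨S.len i - 1, by omega⟩
    refine ⟨n, hn, ?_⟩
    rcases nd_or i n with ⟨g, hg⟩ | h1
    · exfalso
      have hf' : nd i (n + 1) f := by rw [hn]; exact hf
      obtain ⟨v, hv, hvh, h1, h2⟩ := stepEE i n g f (by omega) hg hf'
      rw [G.mem_bd] at hb
      unfold Gr.Cross at hb
      unfold Gr.Inc at hfh h2
      rw [Finset.mem_sdiff] at hv
      rcases hfh with h3 | h3 <;> rcases h2 with h4 | h4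
      · exact hvh (h4.trans h3.symm)
      · rw [← h3, ← h4] at hb
        tauto
      · rw [← h3, ← h4] at hb
        tauto
      · exact hvh (h4.trans h3.symm)
    · exact h1
  let Hb : Fin k → Prop := fun i => ∃ n ≤ S.len i, ∃ t, S.p i n = .inr t
  let thr : ℕ → ℕ → Prop := fun e f => ∃ i, nd i 0 e ∧ nd i (S.len i) f ∧ ¬ Hb i
  let P : ℕ → Set ℕ := fun e => {g | ∃ i n, nd i 0 e ∧ n ≤ S.len i ∧ nd i n g ∧
    (∀ m ≤ n, ∃ g', nd i m g') ∧ (Hb i ∨ ¬ G.Inc g h)}
  let P' : ℕ → Set ℕ := fun f => {g | ∃ i n, nd i (S.len i) f ∧ n ≤ S.len i ∧ nd i n g ∧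
    (∀ m, n ≤ m → m ≤ S.len i → ∃ g', nd i m g') ∧ (Hb i ∨ ¬ G.Inc g h)}
  have noHb : ∀ i, ¬ Hb i → ∀ n ≤ S.len i, ∃ g, nd i n g := by
    intro i hi n hn
    rcases nd_or i n with h1 | h1
    · exact h1
    · exact absurd ⟨n, hn, h1⟩ hi
  have noInc : ∀ i e, nd i 0 e → ¬ Hb i → ¬ G.Inc e h := by
    intro i e he hi heh
    obtain ⟨h1, h2⟩ := incA i e he heh
    exact hi ⟨1, h1, h2⟩
  have noInc' : ∀ i f, nd i (S.len i) f → ¬ Hb i → ¬ G.Inc f h := by
    intro i f hf hi hfh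
    obtain ⟨n, h1, h2⟩ := incB i f hf hfh
    exact hi ⟨n, by omega, h2⟩
  refine ⟨⟨thr, P, P', ?_, ?_, ?_, ?_, ?_, ?_, ?_, ?_, ?_, ?_, ?_, ?_, ?_, ?_, ?_⟩⟩
  · -- thr_mem
    rintro e f ⟨i, h1, h2, h3⟩
    exact ⟨ndS i e h1, ndE' i f h2⟩
  · -- thr_left
    rintro e f f' ⟨i, h1, h2, h3⟩ ⟨j, h1', h2', h3'⟩
    obtain ⟨rfl, -⟩ := nd_inj i 0 j 0 e (Nat.zero_le _) (Nat.zero_le _) h1 h1'
    exact nd_fun i _ f f' h2 h2'
  · -- thr_right
    rintro e e' f ⟨i, h1, h2, h3⟩ ⟨j, h1', h2', h3'⟩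
    obtain ⟨rfl, -⟩ := nd_inj i _ j _ f le_rfl le_rfl h2 h2'
    exact nd_fun i _ e e' h1 h1'
  · -- thr_eq
    rintro e f ⟨i, h1, h2, h3⟩
    ext g
    constructor
    · rintro ⟨j, n, a1, a2, a3, a4, a5⟩
      obtain ⟨rfl, -⟩ := nd_inj i 0 j 0 e (Nat.zero_le _) (Nat.zero_le _) h1 a1
      exact ⟨i, n, h2, a2, a3, fun m _ hm => noHb i h3 m hm, a5⟩
    · rintro ⟨j, n, a1, a2, a3, a4, a5⟩
      obtain ⟨rfl, -⟩ := nd_inj i _ j _ f le_rfl le_rfl h2 a1
      exact ⟨i, n, h1, a2, a3, fun m hm => noHb i h3 m (hm.trans a2), a5⟩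
  · -- self
    intro e he
    obtain ⟨i, hi⟩ := ndL e he
    refine ⟨i, 0, hi, Nat.zero_le _, hi, fun m hm => ?_, ?_⟩
    · rw [Nat.le_zero.1 hm]
      exact ⟨e, hi⟩
    · by_cases hb : Hb i
      · exact Or.inl hb
      · exact Or.inr (noInc i e hi hb)
  · -- self'
    intro f hf
    obtain ⟨i, hi⟩ := ndL' f hf
    refine ⟨i, S.len i, hi, le_rfl, hi, fun m hm1 hm2 => ?_, ?_⟩
    · rw [le_antisymm hm2 hm1]
      exact ⟨f, hi⟩
    · by_cases hb : Hb i
      · exact Or.inl hb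
      · exact Or.inr (noInc' i f hi hb)
  · -- sub
    rintro e he g ⟨i, n, a1, a2, a3, a4, a5⟩
    refine ⟨a3.1, ?_⟩
    rcases Nat.eq_zero_or_pos n with h0 | h0
    · left
      rw [h0] at a3
      exact nd_fun i 0 g e a3 a1
    · right
      obtain ⟨m, rfl⟩ : ∃ m, n = m + 1 := ⟨n - 1, by omega⟩
      obtain ⟨g', hg'⟩ := a4 m (by omega)
      obtain ⟨v, hv, hvh, h1, h2⟩ := stepEE i m g' g (by omega) hg' a3
      rcases tri g a3.1 v hv h2 with h3 | h3 | h3
      · exact Or.inl h3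
      · have := pos0 i _ g a2 a3 h3
        omega
      · right
        have h4 := posl i _ g a2 a3 h3
        refine ⟨i, a1, h4 ▸ a3, ?_⟩
        rintro ⟨l, hl, t, ht⟩
        exact nd_not i l (a4 l (by omega)) ⟨t, ht⟩
  · -- sub'
    rintro f hf g ⟨i, n, a1, a2, a3, a4, a5⟩
    refine ⟨a3.1, ?_⟩
    rcases Nat.lt_or_ge n (S.len i) with h0 | h0
    · right
      obtain ⟨g', hg'⟩ := a4 (n + 1) (by omega) h0
      obtain ⟨v, hv, hvh, h1, h2⟩ := stepEE i n g g' h0 a3 hg'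
      rcases tri g a3.1 v hv h1 with h3 | h3 | h3
      · exact Or.inl h3
      · right
        have h4 := pos0 i _ g a2 a3 h3
        refine ⟨i, h4 ▸ a3, a1, ?_⟩
        rintro ⟨l, hl, t, ht⟩
        exact nd_not i l (a4 l (by omega) hl) ⟨t, ht⟩
      · have := posl i _ g a2 a3 h3
        omega
    · left
      have : n = S.len i := le_antisymm a2 h0
      rw [this] at a3
      exact nd_fun i _ g f a3 a1
  · -- conn
    intro e he hno z hz
    obtain ⟨i, hi⟩ := ndL e he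
    have hb : Hb i := by
      by_contra hb
      obtain ⟨f, hf, hf'⟩ := ndE i
      exact hno f ⟨i, hi, hf', hb⟩
    have hex : ∃ n, n ≤ S.len i ∧ ∃ t, S.p i n = .inr t := hb
    obtain ⟨hn1, hn2⟩ := Nat.find_spec hex
    obtain ⟨n0, hn0⟩ : ∃ n0, n0 = Nat.find hex := ⟨_, rfl⟩
    rw [← hn0] at hn1 hn2
    have hmin : ∀ m < n0, ∃ g, nd i m g := by
      intro m hm
      rcases nd_or i m with h1 | h1
      · exact h1
      · exact absurd ⟨by omega, h1⟩ (Nat.find_min hex (hn0 ▸ hm))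
    have hpos : 0 < n0 := by
      by_contra h0
      have h0 : n0 = 0 := by omega
      rw [h0] at hn2
      exact nd_not i 0 ⟨e, hi⟩ hn2
    obtain ⟨N, rfl⟩ : ∃ N, n0 = N + 1 := ⟨n0 - 1, by omega⟩
    have hch : ∀ m, ∃ g, m ≤ N → nd i m g := by
      intro m
      by_cases hm : m ≤ N
      · obtain ⟨g, hg⟩ := hmin m (by omega)
        exact ⟨g, fun _ => hg⟩
      · exact ⟨0, fun h1 => absurd h1 hm⟩
    choose g hg using hch
    have hg0 : g 0 = e := nd_fun i 0 _ _ (hg 0 (Nat.zero_le _)) hi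
    refine slab_walk (g := g) (N := N) ?_ ?_ z (by rw [hg0]; exact hz) h
      (stepET i N (g N) (by omega) (hg N le_rfl) hn2)
    · intro n hn
      exact ⟨i, n, hi, by omega, hg n hn, fun m hm => ⟨g m, hg m (by omega)⟩, Or.inl hb⟩
    · intro n hn
      obtain ⟨v, -, -, h1, h2⟩ := stepEE i n (g n) (g (n + 1)) (by omega) (hg n (by omega))
        (hg (n + 1) (by omega))
      exact ⟨v, h1, h2⟩
  · -- conn'
    intro f hf hno z hz
    obtain ⟨i, hi⟩ := ndL' f hf
    have hb : Hb i := by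
      by_contra hb
      obtain ⟨e, he⟩ := noHb i hb 0 (Nat.zero_le _)
      exact hno e ⟨i, he, hi, hb⟩
    have hex : ∃ n, n ≤ S.len i ∧ ∃ t, S.p i (S.len i - n) = .inr t := by
      obtain ⟨n, hn, ht⟩ := hb
      refine ⟨S.len i - n, by omega, ?_⟩
      have : S.len i - (S.len i - n) = n := by omega
      rw [this]
      exact ht
    obtain ⟨hn1, hn2⟩ := Nat.find_spec hex
    obtain ⟨n0, hn0⟩ : ∃ n0, n0 = Nat.find hex := ⟨_, rfl⟩
    rw [← hn0] at hn1 hn2
    have hmin : ∀ m < n0, ∃ g, nd i (S.len i - m) g := by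
      intro m hm
      rcases nd_or i (S.len i - m) with h1 | h1
      · exact h1
      · exact absurd ⟨by omega, h1⟩ (Nat.find_min hex (hn0 ▸ hm))
    have hpos : 0 < n0 := by
      by_contra h0
      have h0 : n0 = 0 := by omega
      rw [h0, Nat.sub_zero] at hn2
      exact nd_not i _ ⟨f, hi⟩ hn2
    obtain ⟨N, rfl⟩ : ∃ N, n0 = N + 1 := ⟨n0 - 1, by omega⟩
    have hch : ∀ m, ∃ g, m ≤ N → nd i (S.len i - m) g := by
      intro m
      by_cases hm : m ≤ N
      · obtain ⟨g, hg⟩ := hmin m (by omega)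
        exact ⟨g, fun _ => hg⟩
      · exact ⟨0, fun h1 => absurd h1 hm⟩
    choose g hg using hch
    have hg0 : g 0 = f := nd_fun i _ _ _ (by simpa using hg 0 (Nat.zero_le _)) hi
    have hgN : G.Inc (g N) h := by
      obtain ⟨g', h1, h2⟩ := stepTE i (S.len i - (N + 1)) (by omega) hn2
      have h3 : S.len i - (N + 1) + 1 = S.len i - N := by omega
      rw [h3] at h1
      rw [nd_fun i _ _ _ (hg N le_rfl) h1]
      exact h2
    refine slab_walk (g := g) (N := N) ?_ ?_ z (by rw [hg0]; exact hz) h hgN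
    · intro n hn
      refine ⟨i, S.len i - n, hi, by omega, hg n hn, fun m hm1 hm2 => ?_, Or.inl hb⟩
      have h3 := hg (S.len i - m) (by omega)
      have h4 : S.len i - (S.len i - m) = m := by omega
      rw [h4] at h3
      exact ⟨_, h3⟩
    · intro n hn
      have h3 := hg (n + 1) (by omega)
      have h4 := hg n (by omega)
      have h5 : S.len i - n = (S.len i - (n + 1)) + 1 := by omega
      rw [h5] at h4
      obtain ⟨v, -, -, h1, h2⟩ := stepEE i (S.len i - (n + 1)) _ _ (by omega) h3 h4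
      exact ⟨v, h2, h1⟩
  · -- connT
    rintro e f ⟨i, h1, h2, h3⟩ z w hz hw
    have hch : ∀ m, ∃ g, m ≤ S.len i → nd i m g := by
      intro m
      by_cases hm : m ≤ S.len i
      · obtain ⟨g, hg⟩ := noHb i h3 m hm
        exact ⟨g, fun _ => hg⟩
      · exact ⟨0, fun h1 => absurd h1 hm⟩
    choose g hg using hch
    have hg0 : g 0 = e := nd_fun i 0 _ _ (hg 0 (Nat.zero_le _)) h1
    have hgl : g (S.len i) = f := nd_fun i _ _ _ (hg _ le_rfl) h2
    have hfh := noInc' i f h2 h3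
    refine slab_walkT (g := g) (N := S.len i) (h := h) ?_ ?_ ?_ z (by rw [hg0]; exact hz) w ?_
      (by rw [hgl]; exact hw)
    · intro n hn hi'
      exact ⟨i, n, h1, hn, hg n hn, fun m hm => ⟨g m, hg m (hm.trans hn)⟩, Or.inr hi'⟩
    · rw [hg0]
      exact noInc i e h1 h3
    · intro n hn
      obtain ⟨v, -, h5, h6, h7⟩ := stepEE i n (g n) (g (n + 1)) hn (hg n (by omega))
        (hg (n + 1) (by omega))
      exact ⟨v, h5, h6, h7⟩
    · intro hwh
      rw [hwh] at hw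
      exact hfh hw
  · -- avoid
    rintro e f ⟨i, h1, h2, h3⟩ g ⟨j, n, a1, a2, a3, a4, a5⟩
    obtain ⟨rfl, -⟩ := nd_inj i 0 j 0 e (Nat.zero_le _) (Nat.zero_le _) h1 a1
    rcases a5 with h4 | h4
    · exact absurd h4 h3
    · exact h4
  · -- disj
    intro e he e' he' hne
    rw [Set.disjoint_left]
    rintro g ⟨i, n, a1, a2, a3, a4, a5⟩ ⟨j, m, b1, b2, b3, b4, b5⟩
    obtain ⟨rfl, -⟩ := nd_inj i n j m g a2 b2 a3 b3
    exact hne (nd_fun i 0 e e' a1 b1)
  · -- disj'
    intro f hf f' hf' hne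
    rw [Set.disjoint_left]
    rintro g ⟨i, n, a1, a2, a3, a4, a5⟩ ⟨j, m, b1, b2, b3, b4, b5⟩
    obtain ⟨rfl, -⟩ := nd_inj i n j m g a2 b2 a3 b3
    exact hne (nd_fun i _ f f' a1 b1)
  · -- disjT
    intro e he f hf hno
    rw [Set.disjoint_left]
    rintro g ⟨i, n, a1, a2, a3, a4, a5⟩ ⟨j, m, b1, b2, b3, b4, b5⟩
    obtain ⟨rfl, rfl⟩ := nd_inj i n j m g a2 b2 a3 b3
    refine hno ⟨i, a1, b1, ?_⟩
    rintro ⟨l, hl, t, ht⟩
    rcases le_total l n with h1 | h1
    · exact nd_not i l (a4 l h1) ⟨t, ht⟩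
    · exact nd_not i l (b4 l h1 hl) ⟨t, ht⟩

end Pool.Agent.W2411si
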