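import Pool.Agent.W_2411c4_h26.Slab

/-! The slab lemma in general, and the number of through strands.

`slab`: if `G.d L ≤ G.d L'` this is `slab_le`. Otherwise apply `slab_le` to `V0 \ L'`, `V0 \ L`
(`d_compl`, `bd (V0 \ L) = bd L` etc. by `Closed`; the sets between them are the `V0 \ U`) and exchange
the roles: `thr e f := thr' f e`, `P := P'`, `P' := P` (`Slab.swap`); note
`(V0 \ L) \ (V0 \ L') = L' \ L`.
`thr_card`: each `x ∈ T` gives an edge of `P x.1` which crosses `V` (`connT` from the end of `x.1` in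
`L ⊆ V` to the end of `x.2` outside `L' ⊇ V`, `conn_cross`), not incident with `h` (`avoid`), so it is in
the set; these edges are different (`disj`; `thr_left`). -/

set_option autoImplicit false

namespace Pool.Agent.W2411si

open Pool.Agent.W2411c4

variable {Q : Type}

open Gr

theorem bd_compl {G : Gr Q} {V0 : Finset ℕ} (hV : Closed G V0) {Z : Finset ℕ} (hZ : Z ⊆ V0) :
    G.bd (V0 \ Z) = G.bd Z := by
  classical
  ext e
  rw [G.mem_bd, G.mem_bd]
  constructor
  · rintro ⟨he, hc⟩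
    refine ⟨he, ?_⟩
    have := hV e he
    unfold Gr.Cross at hc ⊢
    simp only [Finset.mem_sdiff] at hc
    tauto
  · rintro ⟨he, hc⟩
    refine ⟨he, ?_⟩
    have := hV e he
    have h1 : G.a e ∈ Z → G.a e ∈ V0 := fun h => hZ h
    have h2 : G.b e ∈ Z → G.b e ∈ V0 := fun h => hZ h
    unfold Gr.Cross at hc ⊢
    simp only [Finset.mem_sdiff]
    tauto

theorem Slab.swap {G : Gr Q} {V0 L L' : Finset ℕ} {h : ℕ} (hc : Closed G V0) (hLV : L' ⊆ V0)
    (hLL : L ⊆ L') (s : Slab G (V0 \ L') (V0 \ L) h) : Nonempty (Slab G L L' h) := by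
  classical
  have hb : G.bd (V0 \ L) = G.bd L := bd_compl hc (hLL.trans hLV)
  have hb' : G.bd (V0 \ L') = G.bd L' := bd_compl hc hLV
  have hd : (V0 \ L) \ (V0 \ L') = L' \ L := by
    ext x
    simp only [Finset.mem_sdiff]
    constructor
    · rintro ⟨⟨h1, h2⟩, h3⟩
      exact ⟨by by_contra h4; exact h3 ⟨h1, h4⟩, h2⟩
    · rintro ⟨h1, h2⟩
      exact ⟨⟨hLV h1, h2⟩, fun h3 => h3.2 h1⟩
  refine ⟨⟨fun e f => s.thr f e, s.P', s.P, ?_, ?_, ?_, ?_, ?_, ?_, ?_, ?_, ?_, ?_, ?_, ?_, ?_, ?_,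
    ?_⟩⟩
  · intro e f hef
    have := s.thr_mem f e hef
    rw [hb, hb'] at this
    exact ⟨this.2, this.1⟩
  · intro e f f' h1 h2
    exact s.thr_right f f' e h1 h2
  · intro e e' f h1 h2
    exact s.thr_left f e e' h1 h2
  · intro e f hef
    exact (s.thr_eq f e hef).symm
  · intro e he
    exact s.self' e (by rw [hb]; exact he)
  · intro f hf
    exact s.self f (by rw [hb']; exact hf)
  · intro e he g hg
    have := s.sub' e (by rw [hb]; exact he) g hg
    rw [hd] at this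
    exact this
  · intro f hf g hg
    have := s.sub f (by rw [hb']; exact hf) g hg
    rw [hd] at this
    exact this
  · intro e he hn z hz
    exact s.conn' e (by rw [hb]; exact he) hn z hz
  · intro f hf hn z hz
    exact s.conn f (by rw [hb']; exact hf) hn z hz
  · intro e f hef z w hz hw
    have := s.connT f e hef w z hw hz
    rw [s.thr_eq f e hef] at this
    exact this.symm
  · intro e f hef g hg
    rw [← s.thr_eq f e hef] at hg
    exact s.avoid f e hef g hg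
  · intro e he e' he' hne
    exact s.disj' e (by rw [hb]; exact he) e' (by rw [hb]; exact he') hne
  · intro f hf f' hf' hne
    exact s.disj f (by rw [hb']; exact hf) f' (by rw [hb']; exact hf') hne
  · intro e he f hf hn
    exact (s.disjT f (by rw [hb']; exact hf) e (by rw [hb]; exact he) hn).symm

theorem slab {G : Gr Q} {V0 L L' : Finset ℕ} {h : ℕ} (hc : Closed G V0) (hLV : L' ⊆ V0)
    (hLL : L ⊆ L') (hh : h ∈ L' \ L)
    (C1 : ∀ U : Finset ℕ, L ⊆ U → U ⊆ L' → h ∉ U → G.d L ≤ G.d U)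
    (C2 : ∀ U : Finset ℕ, L ⊆ U → U ⊆ L' → h ∈ U → G.d L' ≤ G.d U) :
    Nonempty (Slab G L L' h) := by
  classical
  rcases le_total (G.d L) (G.d L') with hle | hle
  · exact slab_le hLL hh C1 C2 hle
  · obtain ⟨hh1, hh2⟩ := Finset.mem_sdiff.1 hh
    have hLV0 : L ⊆ V0 := hLL.trans hLV
    have key : ∀ U : Finset ℕ, V0 \ L' ⊆ U → U ⊆ V0 \ L →
        L ⊆ V0 \ U ∧ V0 \ U ⊆ L' ∧ G.d (V0 \ U) = G.d U := by
      intro U hU1 hU2
      refine ⟨?_, ?_, d_compl hc (hU2.trans Finset.sdiff_subset)⟩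
      · intro x hx
        exact Finset.mem_sdiff.2 ⟨hLV0 hx, fun hxU => (Finset.mem_sdiff.1 (hU2 hxU)).2 hx⟩
      · intro x hx
        obtain ⟨hx1, hx2⟩ := Finset.mem_sdiff.1 hx
        by_contra hx3
        exact hx2 (hU1 (Finset.mem_sdiff.2 ⟨hx1, hx3⟩))
    have hs : Nonempty (Slab G (V0 \ L') (V0 \ L) h) := by
      refine slab_le ?_ ?_ ?_ ?_ ?_
      · intro x hx
        obtain ⟨hx1, hx2⟩ := Finset.mem_sdiff.1 hx
        exact Finset.mem_sdiff.2 ⟨hx1, fun hx3 => hx2 (hLL hx3)⟩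
      · refine Finset.mem_sdiff.2 ⟨Finset.mem_sdiff.2 ⟨hLV hh1, hh2⟩, fun h3 => ?_⟩
        exact (Finset.mem_sdiff.1 h3).2 hh1
      · intro U hU1 hU2 hU3
        obtain ⟨h1, h2, h3⟩ := key U hU1 hU2
        have := C2 (V0 \ U) h1 h2 (Finset.mem_sdiff.2 ⟨hLV hh1, hU3⟩)
        rw [h3] at this
        rw [d_compl hc hLV]
        exact this
      · intro U hU1 hU2 hU3
        obtain ⟨h1, h2, h3⟩ := key U hU1 hU2
        have := C1 (V0 \ U) h1 h2 (fun h4 => (Finset.mem_sdiff.1 h4).2 hU3)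
        rw [h3] at this
        rw [d_compl hc hLV0]
        exact this
      · rw [d_compl hc hLV, d_compl hc hLV0]
        exact hle
    obtain ⟨s⟩ := hs
    exact Slab.swap hc hLV hLL s

theorem thr_card {G : Gr Q} {L L' : Finset ℕ} {h : ℕ} (s : Slab G L L' h) {V : Finset ℕ}
    (hLV : L ⊆ V) (hVL : V ⊆ L') (T : Finset (ℕ × ℕ)) (hT : ∀ x ∈ T, s.thr x.1 x.2) :
    T.card ≤ (G.E.filter fun e => G.Cross V e ∧ ¬ G.Inc e h).card := by
  classical
  have key : ∀ x ∈ T, ∃ g, g ∈ s.P x.1 ∧ g ∈ G.E ∧ G.Cross V g ∧ ¬ G.Inc g h := by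
    intro x hx
    have ht := hT x hx
    obtain ⟨h1, h2⟩ := s.thr_mem _ _ ht
    obtain ⟨z, hz, hzL⟩ : ∃ z, G.Inc x.1 z ∧ z ∈ L := by
      rcases (G.mem_bd.1 h1).2 with h3 | h3
      · exact ⟨_, Or.inl rfl, h3.1⟩
      · exact ⟨_, Or.inr rfl, h3.2⟩
    obtain ⟨w, hw, hwL⟩ : ∃ w, G.Inc x.2 w ∧ w ∉ L' := by
      rcases (G.mem_bd.1 h2).2 with h3 | h3
      · exact ⟨_, Or.inr rfl, h3.2⟩
      · exact ⟨_, Or.inl rfl, h3.1⟩
    obtain ⟨g, hg, hgc⟩ := conn_cross (s.connT _ _ ht z w hz hw) (hLV hzL)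
      (fun h3 => hwL (hVL h3))
    exact ⟨g, hg, (s.sub _ h1 g hg).1, hgc, s.avoid _ _ ht g hg⟩
  choose! g hg using key
  refine Finset.card_le_card_of_injOn g ?_ ?_
  · intro x hx
    have := hg x hx
    simp only [Finset.coe_filter, Set.mem_setOf_eq]
    exact ⟨this.2.1, this.2.2⟩
  · intro x hx y hy hxy
    have hx1 := hT x hx
    have hy1 := hT y hy
    have hxP := (hg x hx).1
    have hyP := (hg y hy).1
    have he : x.1 = y.1 := by
      by_contra hne
      have := s.disj _ (s.thr_mem _ _ hx1).1 _ (s.thr_mem _ _ hy1).1 hne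
      rw [Set.disjoint_left] at this
      apply this hxP
      have hxy' : g x = g y := hxy
      rw [hxy']
      exact hyP
    rw [he] at hx1
    exact Prod.ext he (s.thr_left _ _ _ hx1 hy1)

end Pool.Agent.W2411si
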