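import Pool.Agent.W_2411c4_h26.Flow

/-! Lemma 1, first half: the disjoint paths of a fat star.

Proof: `flow_cap` with `c := t`, `N := t * t`: if `T = S` then `c * T.card = t * t`, otherwise there is
`b ∈ S \ T`, `T ⊆ S.erase b` and `ed G U T ≥ ed G U (S.erase b) ≥ t * t` (`ed_mono`, `Star`). As the
`t * t` paths end in `t` vertices, each used at most `t` times, each is used exactly `t` times. -/

set_option autoImplicit false

namespace Pool.Agent.W2411si

open Pool.Agent.W2411c4

variable {Q : Type}

open Gr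

theorem star_paths {G : Gr Q} {t z : ℕ} {S : Finset ℕ} (h : Star G t z S) :
    ∃ P : ℕ → ℕ → Set ℕ,
      (∀ b ∈ S, ∀ i < t, ∀ f ∈ P b i, f ∈ G.E ∧ ∀ s ∈ S, G.Inc f s → s = b) ∧
      (∀ b ∈ S, ∀ i < t, G.Conn (P b i) z b) ∧
      (∀ b ∈ S, ∀ i < t, ∀ b' ∈ S, ∀ i' < t, (b, i) ≠ (b', i') → Disjoint (P b i) (P b' i')) := by
  classical
  obtain ⟨hz, hcard, hst⟩ := h
  have hcap : ∀ U T : Finset ℕ, z ∈ U → Disjoint U S → T ⊆ S →
      t * t ≤ t * T.card + ed G U T := by
    intro U T hzU hUS hTS
    by_cases hT : T = S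
    · rw [hT, hcard]
      omega
    · obtain ⟨b, hbS, hbT⟩ : ∃ b ∈ S, b ∉ T := by
        by_contra hcon
        push Not at hcon
        exact hT (Finset.Subset.antisymm hTS (fun x hx => hcon x hx))
      have h1 : T ⊆ S.erase b := by
        intro x hx
        rw [Finset.mem_erase]
        exact ⟨fun hxb => hbT (hxb ▸ hx), hTS hx⟩
      have h2 : t * t ≤ ed G U (S.erase b) := by
        refine hst b hbS U ?_ ?_ ?_
        · intro x hx
          rw [Finset.mem_singleton.1 hx]
          exact hzU
        · intro hbU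
          exact Finset.disjoint_left.1 hUS hbU hbS
        · exact Finset.disjoint_of_subset_right (Finset.erase_subset _ _) hUS
      have h3 := ed_mono (G := G) (U := U) h1
      omega
  obtain ⟨P, en, hen, hcnt, hP1, hP2, hP3⟩ := flow_cap hz hcap
  have hsum : ∑ b ∈ S, ((Finset.range (t * t)).filter fun i => en i = b).card = t * t := by
    have h1 := Finset.card_eq_sum_card_fiberwise (f := en) (s := Finset.range (t * t)) (t := S)
      (fun i hi => hen i (Finset.mem_range.1 (by simpa using hi)))
    rw [Finset.card_range] at h1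
    exact h1.symm
  have heq : ∀ b ∈ S, ((Finset.range (t * t)).filter fun i => en i = b).card = t := by
    have h1 : ∑ b ∈ S, ((Finset.range (t * t)).filter fun i => en i = b).card
        = ∑ b ∈ S, t := by
      rw [hsum, Finset.sum_const, hcard, smul_eq_mul]
    exact (Finset.sum_eq_sum_iff_of_le hcnt).1 h1
  have hg : ∀ b, ∃ g : ℕ → ℕ, b ∈ S → (∀ i < t, g i < t * t ∧ en (g i) = b) ∧
      (∀ i < t, ∀ j < t, g i = g j → i = j) := by
    intro b
    by_cases hb : b ∈ S
    · have hc := heq b hb
      refine ⟨fun i => if h : i < t then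
        ((Finset.range (t * t)).filter fun i => en i = b).orderEmbOfFin hc ⟨i, h⟩ else 0,
        fun _ => ⟨?_, ?_⟩⟩
      · intro i hi
        simp only [hi, dif_pos]
        have hm := Finset.orderEmbOfFin_mem
          ((Finset.range (t * t)).filter fun i => en i = b) hc ⟨i, hi⟩
        rw [Finset.mem_filter, Finset.mem_range] at hm
        exact hm
      · intro i hi j hj hij
        simp only [hi, hj, dif_pos] at hij
        have h1 := (((Finset.range (t * t)).filter fun i => en i = b).orderEmbOfFin hc).injective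
          hij
        exact Fin.mk.inj_iff.1 h1
    · exact ⟨fun _ => 0, fun h => absurd h hb⟩
  choose g hg using hg
  refine ⟨fun b i => P (g b i), ?_, ?_, ?_⟩
  · intro b hb i hi f hf
    obtain ⟨h1, h2⟩ := (hg b hb).1 i hi
    have h3 := hP1 (g b i) h1 f hf
    rw [h2] at h3
    exact h3
  · intro b hb i hi
    obtain ⟨h1, h2⟩ := (hg b hb).1 i hi
    have h3 := hP2 (g b i) h1
    rw [h2] at h3
    exact h3
  · intro b hb i hi b' hb' i' hi' hne
    obtain ⟨h1, h2⟩ := (hg b hb).1 i hi
    obtain ⟨h1', h2'⟩ := (hg b' hb').1 i' hi'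
    refine hP3 _ h1 _ h1' ?_
    intro heq'
    have hbb : b = b' := by rw [← h2, ← h2', heq']
    subst hbb
    exact hne (by rw [(hg b hb).2 i hi i' hi' heq'])

end Pool.Agent.W2411si
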