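import Pool.Agent.W_2411c4_h26.PathSegs
import Pool.Agent.W_2411c4_h26.FTwo

/-! The structure theorem.

Proof. `m := ck t`, `M := cM0 t + (cm0 t + cm0 t * cm1 t + 1) + (ck t + 2 * cm1 t + 2 * Th m + 1)`,
`a0 := t * (cm0 t + 5)`, `a := t + a0 + a0 * cm0 t * (2 * K + 2)`, `r := a0 * cm0 t * (2 * K + 3)`.
If `B.card ≤ t` take `A := B` and only `Sg.triv`. Otherwise let `A0` be the set of `exists_A0`,
`p : Fin (A0.card * cm0 t) → Pth B A0 (FN G B t)` the paths of `exists_paths` (`hconn` from `F_conn`,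
`hD` from `exists_Z`, `hsym` from `Fa.symm`), `v P` the nested sets (`exists_nv`), `C P` the sets of
`path_segs` (`hwk` from `weak_unique`). `A := A0 ∪ univ.biUnion C`. As the paths are disjoint and
disjoint from `A0`, `A ∩ (Icc 1 (p P).n).image (p P).b = C P`, so `path_segs` gives the segments
`s P j`; the sets `(v P).V ((p P).n + 1)` are pairwise disjoint by `mnl_disj` (with `A0`). Index the
segments by `Fin r` through `finProdFinEquiv : Fin (a0 * cm0 t) × Fin (2 * K + 3) ≃ Fin r`, using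
`Sg.triv` for `P ≥ A0.card * cm0 t`. -/

set_option autoImplicit false

namespace Pool.Agent.W2411si

open Pool.Agent.W2411c4

variable {Q : Type}

open Gr

private theorem struct_fill {α : Type} (R : α → Finset ℕ) (triv : α) (htriv : R triv = ∅)
    {N N' L : ℕ} (hN : N ≤ N') (s : Fin N → Fin L → α)
    (h1 : ∀ P i j, i ≠ j → Disjoint (R (s P i)) (R (s P j)))
    (h2 : ∀ P P', P ≠ P' → ∀ i j, Disjoint (R (s P i)) (R (s P' j))) :
    ∃ s' : Fin (N' * L) → α, (∀ i j, i ≠ j → Disjoint (R (s' i)) (R (s' j))) ∧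
      (∀ i, s' i = triv ∨ ∃ P k, s' i = s P k) ∧ ∀ P k, ∃ i, s' i = s P k := by
  classical
  refine ⟨fun i => if h : (finProdFinEquiv.symm i).1.val < N then
    s ⟨(finProdFinEquiv.symm i).1.val, h⟩ (finProdFinEquiv.symm i).2 else triv, ?_, ?_, ?_⟩
  · intro i j hij
    have hne : finProdFinEquiv.symm i ≠ finProdFinEquiv.symm j := fun h =>
      hij (finProdFinEquiv.symm.injective h)
    dsimp only
    split_ifs with ha hb hb
    · by_cases hx : (finProdFinEquiv.symm i).1 = (finProdFinEquiv.symm j).1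
      · have hk : (finProdFinEquiv.symm i).2 ≠ (finProdFinEquiv.symm j).2 := fun h =>
          hne (Prod.ext hx h)
        have he : (⟨(finProdFinEquiv.symm i).1.val, ha⟩ : Fin N) =
            ⟨(finProdFinEquiv.symm j).1.val, hb⟩ := by
          apply Fin.ext
          dsimp only
          rw [hx]
        rw [he]
        exact h1 _ _ _ hk
      · apply h2
        intro h
        apply hx
        have := congrArg Fin.val h
        exact Fin.ext this
    · rw [htriv]; exact Finset.disjoint_empty_right _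
    · rw [htriv]; exact Finset.disjoint_empty_left _
    · rw [htriv]; exact Finset.disjoint_empty_left _
  · intro i
    dsimp only
    split_ifs with h
    · exact Or.inr ⟨_, _, rfl⟩
    · exact Or.inl rfl
  · intro P k
    refine ⟨finProdFinEquiv (⟨P.val, P.isLt.trans_le hN⟩, k), ?_⟩
    simp only [Equiv.symm_apply_apply]
    rw [dif_pos P.isLt]

theorem structure_thm (t : ℕ) (ht : 1 ≤ t) (Th : ℕ → ℕ) :
    ∃ m M : ℕ, ∀ K : ℕ, ∃ a r : ℕ, ∀ (G : Gr Q) (B : Finset ℕ), SF G B t → Bk G B M →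
      ∀ D0 : Finset ℕ, D0.card ≤ K →
        ∃ A ⊆ B, A.card ≤ a ∧ ∃ s : Fin r → Sg G B A m (Th m),
          (∀ i j, i ≠ j → Disjoint (s i).R (s j).R) ∧ (∀ i, Disjoint (s i).R D0) ∧
          ∀ x ∈ B \ A, ∃ i, x ∈ (s i).R := by
  classical
  refine ⟨ck t, cM0 t + (cm0 t + cm0 t * cm1 t + 1) + (ck t + 2 * cm1 t + 2 * Th (ck t) + 1), ?_⟩
  intro K
  refine ⟨t + t * (cm0 t + 5) + t * (cm0 t + 5) * cm0 t * (2 * K + 2),
    t * (cm0 t + 5) * cm0 t * (2 * K + 3), ?_⟩
  intro G B hSF hB D0 hD0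
  by_cases hBt : B.card ≤ t
  · refine ⟨B, Finset.Subset.refl _, by omega, fun _ => Sg.triv G B B _ _, ?_, ?_, ?_⟩
    · intro i j _
      rw [Sg.triv_R]
      exact Finset.disjoint_empty_left _
    · intro i
      rw [Sg.triv_R]
      exact Finset.disjoint_empty_left _
    · intro x hx
      rw [Finset.sdiff_self] at hx
      exact absurd hx (Finset.notMem_empty _)
  · rw [not_le] at hBt
    have hM : cM0 t ≤ cM0 t + (cm0 t + cm0 t * cm1 t + 1) +
        (ck t + 2 * cm1 t + 2 * Th (ck t) + 1) := by omega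
    have hM' : cm0 t + cm0 t * cm1 t < cM0 t + (cm0 t + cm0 t * cm1 t + 1) +
        (ck t + 2 * cm1 t + 2 * Th (ck t) + 1) := by omega
    have hM'' : ck t + 2 * cm1 t + 2 * Th (ck t) < cM0 t + (cm0 t + cm0 t * cm1 t + 1) +
        (ck t + 2 * cm1 t + 2 * Th (ck t) + 1) := by omega
    obtain ⟨A0, hA0B, hA0ne, hA0c, hdeg⟩ := exists_A0 hSF ht hB hM hM' hBt
    obtain ⟨p, hdisj, hcov⟩ := exists_paths (N := FN G B t) (D := cm0 t) hA0B
      (fun x _ => FN_sub) (fun x _ y hy => mem_FN.2 (mem_FN.1 hy).symm)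
      (fun x _ => not_mem_FN_self) hdeg (fun x hx => (exists_Z hSF ht hB hM (hA0B hx)).1.le)
      (fun x hx y hy => Relation.ReflTransGen.mono (fun a b h => mem_FN.2 h.1) _ _
        (F_conn hSF ht hB hM hM' x hx y hy)) hA0ne
    have hv : ∀ P, Nonempty (NV G B A0 t (p P)) := fun P =>
      exists_nv hSF ht hB hM hM' hA0B (p P)
    let v : ∀ P, NV G B A0 t (p P) := fun P => Classical.choice (hv P)
    have hps := fun P => path_segs (Θ := Th (ck t)) hA0B (v P) hD0
      (fun i j hi hij hj h1 h2 => weak_unique hSF ht hB hM hM' hM'' hA0B (p P) hi hij hj h1 h2)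
    choose C hCs hCc hC using hps
    have himg : ∀ P x, x ∈ (Finset.Icc 1 (p P).n).image (p P).b →
        ∃ k, 1 ≤ k ∧ k ≤ (p P).n ∧ (p P).b k = x := by
      intro P x hx
      obtain ⟨k, hk, rfl⟩ := Finset.mem_image.1 hx
      exact ⟨k, (Finset.mem_Icc.1 hk).1, (Finset.mem_Icc.1 hk).2, rfl⟩
    have himB : ∀ P x, x ∈ (Finset.Icc 1 (p P).n).image (p P).b → x ∈ B \ A0 := by
      intro P x hx
      obtain ⟨k, h1, h2, rfl⟩ := himg P x hx
      exact (p P).mem k h1 h2
    have himd : ∀ P P' x, x ∈ (Finset.Icc 1 (p P).n).image (p P).b →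
        x ∈ (Finset.Icc 1 (p P').n).image (p P').b → P = P' := by
      intro P P' x hx hx'
      by_contra hne
      obtain ⟨k, h1, h2, h3⟩ := himg P x hx
      obtain ⟨l, h1', h2', h3'⟩ := himg P' x hx'
      exact hdisj P P' hne k l h1 h2 h1' h2' (h3.trans h3'.symm)
    have hAB : A0 ∪ Finset.univ.biUnion C ⊆ B := by
      intro x hx
      rcases Finset.mem_union.1 hx with h | h
      · exact hA0B h
      · obtain ⟨P, _, hP⟩ := Finset.mem_biUnion.1 h
        exact (Finset.mem_sdiff.1 (himB P x (hCs P hP))).1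
    have hinter : ∀ P, (A0 ∪ Finset.univ.biUnion C) ∩ (Finset.Icc 1 (p P).n).image (p P).b = C P := by
      intro P
      ext x
      rw [Finset.mem_inter, Finset.mem_union, Finset.mem_biUnion]
      constructor
      · rintro ⟨h | ⟨P', _, h⟩, hx⟩
        · exact absurd h (Finset.mem_sdiff.1 (himB P x hx)).2
        · rw [himd P P' x hx (hCs P' h)]
          exact h
      · intro h
        exact ⟨Or.inr ⟨P, Finset.mem_univ _, h⟩, hCs P h⟩
    have hseg := fun P => hC P (A0 ∪ Finset.univ.biUnion C) Finset.subset_union_left hAB (hinter P)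
    choose s hs1 hs2 hs3 hs4 using hseg
    have hVd : ∀ P P', P ≠ P' → Disjoint ((v P).V ((p P).n + 1)) ((v P').V ((p P').n + 1)) := by
      intro P P' hne
      have hVi : ∀ P, B ∩ (v P).V ((p P).n + 1) = (Finset.Icc 1 (p P).n).image (p P).b := by
        intro P
        have := (v P).int ((p P).n + 1) le_rfl
        rwa [Nat.add_sub_cancel] at this
      have hVA : ∀ P, Disjoint ((v P).V ((p P).n + 1)) A0 := by
        intro P
        rw [Finset.disjoint_left]
        intro x hx hxA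
        have h1 : x ∈ B ∩ (v P).V ((p P).n + 1) := Finset.mem_inter.2 ⟨hA0B hxA, hx⟩
        rw [hVi P] at h1
        exact (Finset.mem_sdiff.1 (himB P x h1)).2 hxA
      refine mnl_disj (v P).mnl (v P').mnl (hVA P) (hVA P') ?_
      rw [Finset.disjoint_left]
      intro x hx hx'
      have h1 : x ∈ B ∩ (v P').V ((p P').n + 1) :=
        Finset.mem_inter.2 ⟨(Finset.mem_inter.1 hx).1, hx'⟩
      rw [hVi P'] at h1
      rw [hVi P] at hx
      exact hne (himd P P' x hx h1)
    have hN : A0.card * cm0 t ≤ t * (cm0 t + 5) * cm0 t := Nat.mul_le_mul_right _ hA0c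
    obtain ⟨s', h1, h2, h3⟩ := struct_fill (fun u : Sg G B (A0 ∪ Finset.univ.biUnion C) (ck t)
        (Th (ck t)) => u.R) (Sg.triv G B _ _ _) (Sg.triv_R G B _ _ _) hN s hs1
      (fun P P' hne i j => Disjoint.mono (hs2 P i) (hs2 P' j) (hVd P P' hne))
    refine ⟨A0 ∪ Finset.univ.biUnion C, hAB, ?_, s', h1, ?_, ?_⟩
    · have h4 : (A0 ∪ Finset.univ.biUnion C).card ≤ A0.card + (Finset.univ.biUnion C).card :=
        Finset.card_union_le _ _
      have h5 : (Finset.univ.biUnion C).card ≤ (A0.card * cm0 t) * (2 * K + 2) := by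
        refine Finset.card_biUnion_le.trans ?_
        refine (Finset.sum_le_card_nsmul Finset.univ _ (2 * K + 2) fun P _ => hCc P).trans ?_
        rw [Finset.card_univ, Fintype.card_fin, smul_eq_mul]
      have h6 : (A0.card * cm0 t) * (2 * K + 2) ≤ t * (cm0 t + 5) * cm0 t * (2 * K + 2) :=
        Nat.mul_le_mul_right _ hN
      omega
    · intro i
      rcases h2 i with h | ⟨P, k, h⟩
      · rw [h, Sg.triv_R]
        exact Finset.disjoint_empty_left _
      · rw [h]
        exact hs3 P k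
    · intro x hx
      rw [Finset.mem_sdiff, Finset.mem_union, not_or, Finset.mem_biUnion] at hx
      obtain ⟨hxB, hxA, hxC⟩ := hx
      obtain ⟨P, k, hk1, hk2, rfl⟩ := hcov x (Finset.mem_sdiff.2 ⟨hxB, hxA⟩)
      obtain ⟨i, hi⟩ := hs4 P k hk1 hk2 fun h => hxC ⟨P, Finset.mem_univ _, h⟩
      obtain ⟨j, hj⟩ := h3 P i
      exact ⟨j, by rw [hj]; exact hi⟩

end Pool.Agent.W2411si
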