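import Pool.Agent.W_2411c4_h26.Region
import Pool.Agent.W_2411c4_h26.Fconn
import Pool.Agent.W_2411c4_h26.Paths
import Pool.Agent.W_2411c4_h26.Nest

/-! Regions of subpaths, nested sets along a path.

`sub_region`: `region` with `P := (Finset.Icc i j).image p.b`, `c1 := p.b (i - 1)`,
`c2 := p.b (j + 1)`, `N := {c1, c2}`. `c1, c2 ∈ B \ P` by `p.left`, `p.right`, `p.mem`, `p.inj`.
Cover: for `v ∈ B \ P` there is a connection `FC G B t ∅ v (p.b i)` (`hconn`); by
`ReflTransGen.head_induction_on`: for every `x ∉ P` with `FC G B t ∅ x (p.b i)` we have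
`FC G B t P c1 x ∨ FC G B t P c2 x`: in the step `Fa G B t x x'`; if `x' = p.b k ∈ P`, then
`x ∈ FN G B t (p.b k) = {p.b (k-1), p.b (k+1)}` and `x ∉ P`, so `x = c1` (`k = i`) or `x = c2`
(`k = j`); if `x' ∉ P`, use the induction hypothesis and one more step (`Fa.symm`).
`exists_nv`: `V 0 := ∅`; for `i ≥ 1` let `V i` be given by `exists_mnl` with
`P := (Finset.Icc 1 (i - 1)).image p.b`, `k := ck t` and `T := insert (p.b i) A` if `i ≤ p.n`,
`T := A` if `i = p.n + 1` (for `i ≥ 2` by `sub_region` for `1, i - 1` and `ed_mono`, for `i = 1` by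
`U = ∅`). Monotone: `mnl_le`. -/

set_option autoImplicit false

namespace Pool.Agent.W2411si

open Pool.Agent.W2411c4

variable {Q : Type}

open Gr

private theorem subreg_img {A B : Finset ℕ} {N : ℕ → Finset ℕ} (p : Pth B A N) {i j x : ℕ} :
    x ∈ (Finset.Icc i j).image p.b ↔ ∃ k, i ≤ k ∧ k ≤ j ∧ p.b k = x := by
  rw [Finset.mem_image]
  constructor
  · rintro ⟨k, hk, h⟩
    rw [Finset.mem_Icc] at hk
    exact ⟨k, hk.1, hk.2, h⟩
  · rintro ⟨k, h1, h2, h⟩
    exact ⟨k, Finset.mem_Icc.2 ⟨h1, h2⟩, h⟩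

private theorem subreg_c1 {A B : Finset ℕ} {N : ℕ → Finset ℕ} (hAB : A ⊆ B) (p : Pth B A N)
    {i j : ℕ} (hi : 1 ≤ i) (hj : j ≤ p.n) (hij : i ≤ j) (k : ℕ) (hk : k + 1 = i ∨ k = j + 1) :
    p.b k ∈ B \ (Finset.Icc i j).image p.b := by
  rw [Finset.mem_sdiff, subreg_img]
  by_cases h0 : k = 0
  · rw [h0]
    refine ⟨hAB p.left, ?_⟩
    rintro ⟨l, h1, h2, h3⟩
    have h4 := p.mem l (by omega) (by omega)
    rw [h3] at h4
    exact (Finset.mem_sdiff.1 h4).2 p.left
  · by_cases hn : k = p.n + 1
    · rw [hn]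
      refine ⟨hAB p.right, ?_⟩
      rintro ⟨l, h1, h2, h3⟩
      have h4 := p.mem l (by omega) (by omega)
      rw [h3] at h4
      exact (Finset.mem_sdiff.1 h4).2 p.right
    · by_cases hkn : k ≤ p.n
      · refine ⟨(Finset.mem_sdiff.1 (p.mem k (by omega) hkn)).1, ?_⟩
        rintro ⟨l, h1, h2, h3⟩
        have h4 := p.inj l k (by omega) (by omega) (by omega) hkn h3
        omega
      · omega

theorem sub_region {G : Gr Q} {B A : Finset ℕ} {t M : ℕ} (hSF : SF G B t) (ht : 1 ≤ t)
    (hB : Bk G B M) (hM : cM0 t ≤ M) (hM' : cm0 t + cm0 t * cm1 t < M) (hAB : A ⊆ B)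
    (p : Pth B A (FN G B t)) {i j : ℕ} (hi : 1 ≤ i) (hij : i ≤ j) (hj : j ≤ p.n) :
    ∃ U : Finset ℕ, B ∩ U = (Finset.Icc i j).image p.b ∧
      ed G U {p.b (i - 1), p.b (j + 1)} ≤ ck t := by
  classical
  set P : Finset ℕ := (Finset.Icc i j).image p.b with hP
  have hmP : ∀ x, x ∈ P ↔ ∃ k, i ≤ k ∧ k ≤ j ∧ p.b k = x := fun x => subreg_img p
  have hPB : P ⊆ B := by
    intro x hx
    obtain ⟨k, h1, h2, h3⟩ := (hmP x).1 hx
    rw [← h3]
    exact (Finset.mem_sdiff.1 (p.mem k (by omega) (by omega))).1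
  have hc1 : p.b (i - 1) ∈ B \ P := subreg_c1 hAB p hi hj hij _ (Or.inl (by omega))
  have hc2 : p.b (j + 1) ∈ B \ P := subreg_c1 hAB p hi hj hij _ (Or.inr rfl)
  apply region hSF ht hB hM hPB hc1 hc2
  · intro v hv
    obtain ⟨hvB, hvP⟩ := Finset.mem_sdiff.1 hv
    have hiP : p.b i ∈ P := (hmP _).2 ⟨i, le_rfl, hij, rfl⟩
    have h := F_conn hSF ht hB hM hM' v hvB (p.b i) (hPB hiP)
    unfold FC at h
    revert hvP
    refine Relation.ReflTransGen.head_induction_on
      (motive := fun x _ => x ∉ P → FC G B t P (p.b (i - 1)) x ∨ FC G B t P (p.b (j + 1)) x) h ?_ ?_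
    · intro h'
      exact absurd hiP h'
    · intro x x' hxx' _ ih hxP
      by_cases hx'P : x' ∈ P
      · obtain ⟨k, h1, h2, h3⟩ := (hmP x').1 hx'P
        have h4 : x ∈ FN G B t x' := mem_FN.2 hxx'.1.symm
        rw [← h3, p.nb k (by omega) (by omega), Finset.mem_insert, Finset.mem_singleton] at h4
        rcases h4 with h4 | h4
        · left
          by_cases hk : k = i
          · rw [h4, hk]
            exact Relation.ReflTransGen.refl
          · exact absurd ((hmP x).2 ⟨k - 1, by omega, by omega, h4.symm⟩) hxP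
        · right
          by_cases hk : k = j
          · rw [h4, hk]
            exact Relation.ReflTransGen.refl
          · exact absurd ((hmP x).2 ⟨k + 1, by omega, by omega, h4.symm⟩) hxP
      · rcases ih hx'P with h1 | h1
        · exact Or.inl (Relation.ReflTransGen.tail h1 ⟨hxx'.1.symm, hx'P, hxP⟩)
        · exact Or.inr (Relation.ReflTransGen.tail h1 ⟨hxx'.1.symm, hx'P, hxP⟩)
  · intro y hy w hw
    obtain ⟨k, h1, h2, h3⟩ := (hmP y).1 hy
    rw [← h3, p.nb k (by omega) (by omega), Finset.mem_insert, Finset.mem_singleton] at hw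
    rw [Finset.mem_union, Finset.mem_insert, Finset.mem_singleton]
    rcases hw with hw | hw
    · by_cases hk : k = i
      · right; left
        rw [hw, hk]
      · left
        exact (hmP w).2 ⟨k - 1, by omega, by omega, hw.symm⟩
    · by_cases hk : k = j
      · right; right
        rw [hw, hk]
      · left
        exact (hmP w).2 ⟨k + 1, by omega, by omega, hw.symm⟩

/-- the nested sets along a path -/
structure NV (G : Gr Q) (B A : Finset ℕ) (t : ℕ) (p : Pth B A (FN G B t)) where
  V : ℕ → Finset ℕ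
  zero : V 0 = ∅
  int : ∀ i, i ≤ p.n + 1 → B ∩ V i = (Finset.Icc 1 (i - 1)).image p.b
  mono : ∀ i, i ≤ p.n → V i ⊆ V (i + 1)
  ord : ∀ i, 1 ≤ i → i ≤ p.n → ed G (V i) (insert (p.b i) A) ≤ ck t
  ord1 : ed G (V (p.n + 1)) A ≤ ck t
  mnl : Mnl G B A (V (p.n + 1))

theorem exists_nv {G : Gr Q} {B A : Finset ℕ} {t M : ℕ} (hSF : SF G B t) (ht : 1 ≤ t)
    (hB : Bk G B M) (hM : cM0 t ≤ M) (hM' : cm0 t + cm0 t * cm1 t < M) (hAB : A ⊆ B)
    (p : Pth B A (FN G B t)) : Nonempty (NV G B A t p) := by
  classical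
  let T : ℕ → Finset ℕ := fun i => if i ≤ p.n then insert (p.b i) A else A
  have hT1 : ∀ i, i ≤ p.n → T i = insert (p.b i) A := fun i hi => by simp [T, hi]
  have hT2 : T (p.n + 1) = A := by simp [T]
  have hAT : ∀ i, A ⊆ T i := by
    intro i
    by_cases h : i ≤ p.n
    · rw [hT1 i h]
      exact Finset.subset_insert _ _
    · simp only [T, h, if_false]
      exact Finset.Subset.refl _
  have hTB : ∀ i, 1 ≤ i → T i ⊆ B := by
    intro i hi
    by_cases h : i ≤ p.n
    · rw [hT1 i h]
      exact Finset.insert_subset (Finset.mem_sdiff.1 (p.mem i hi h)).1 hAB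
    · simp only [T, h, if_false]
      exact hAB
  have hex : ∀ i, ∃ X : Finset ℕ, (i = 0 → X = ∅) ∧ (1 ≤ i → i ≤ p.n + 1 →
      (B ∩ X = (Finset.Icc 1 (i - 1)).image p.b ∧ ed G X (T i) ≤ ck t ∧ Mnl G B (T i) X)) := by
    intro i
    by_cases h0 : i = 0
    · exact ⟨∅, fun _ => rfl, fun h => absurd h (by omega)⟩
    · by_cases hi : i ≤ p.n + 1
      · have hU : ∃ U : Finset ℕ, B ∩ U = (Finset.Icc 1 (i - 1)).image p.b ∧
            ed G U (T i) ≤ ck t := by
          by_cases h1 : i = 1
          · refine ⟨∅, ?_, ?_⟩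
            · rw [h1]
              simp
            · have : ed G ∅ (T i) = 0 := by
                unfold ed ebd
                rw [Finset.card_eq_zero, Finset.filter_eq_empty_iff]
                intro e _ he
                unfold Lv at he
                simp at he
              omega
          · obtain ⟨U, hU1, hU2⟩ := sub_region hSF ht hB hM hM' hAB p (i := 1) (j := i - 1)
              le_rfl (by omega) (by omega)
            refine ⟨U, hU1, (ed_mono ?_).trans hU2⟩
            rw [show 1 - 1 = 0 by omega, show i - 1 + 1 = i by omega]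
            intro x hx
            rw [Finset.mem_insert, Finset.mem_singleton] at hx
            rcases hx with hx | hx
            · rw [hx]
              exact hAT i p.left
            · rw [hx]
              by_cases h : i ≤ p.n
              · rw [hT1 i h]
                exact Finset.mem_insert_self _ _
              · have h2 : i = p.n + 1 := by omega
                rw [h2, hT2]
                exact p.right
        obtain ⟨X, hX⟩ := exists_mnl hU
        exact ⟨X, fun h => absurd h h0, fun _ _ => hX⟩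
      · exact ⟨∅, fun _ => rfl, fun _ h => absurd h hi⟩
  choose V hV0 hV using hex
  refine ⟨⟨V, hV0 0 rfl, ?_, ?_, ?_, ?_, ?_⟩⟩
  · intro i hi
    by_cases h0 : i = 0
    · rw [h0, hV0 0 rfl]
      simp
    · exact (hV i (by omega) hi).1
  · intro i hi
    by_cases h0 : i = 0
    · rw [h0, hV0 0 rfl]
      exact Finset.empty_subset _
    · have h1 := hV i (by omega) (by omega)
      have h2 := hV (i + 1) (by omega) (by omega)
      refine mnl_le h1.2.2 h2.2.2 ?_ (hTB _ (by omega)) ?_
      · intro x hx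
        rw [h1.1, subreg_img] at hx
        obtain ⟨k, hk1, hk2, hk3⟩ := hx
        have h3 : x ∈ B ∩ V (i + 1) := by
          rw [h2.1, subreg_img]
          exact ⟨k, hk1, by omega, hk3⟩
        exact (Finset.mem_inter.1 h3).2
      · rw [hT1 i hi]
        intro x hx
        rw [Finset.mem_insert] at hx
        rw [Finset.mem_union]
        rcases hx with hx | hx
        · left
          have h3 : x ∈ B ∩ V (i + 1) := by
            rw [h2.1, subreg_img]
            exact ⟨i, by omega, by omega, hx.symm⟩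
          exact (Finset.mem_inter.1 h3).2
        · exact Or.inr (hAT _ hx)
  · intro i hi1 hi2
    have h := (hV i hi1 (by omega)).2.1
    rwa [hT1 i hi2] at h
  · have h := (hV (p.n + 1) (by omega) le_rfl).2.1
    rwa [hT2] at h
  · have h := (hV (p.n + 1) (by omega) le_rfl).2.2
    rwa [hT2] at h

end Pool.Agent.W2411si
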