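import Pool.Agent.W_2411c4_h26.SubReg

/-! At most one weak position per path (section 8a).

`Wk.symm`: given `S` for `x, y` put `S' := insert y (vs G \ (S ∪ B))`. `B ∩ S' = {y}`. An edge from
`p ∈ S'` to `q ∉ S'`, `q ∉ B \ {y, x}`: `q` is an end of an edge, so `q ∈ vs G`; if `q ∉ B` then `q ∈ S`
(otherwise `q ∈ S'`); if `q ∈ B` then `q = x ∈ S` (`q = y` is in `S'`). And `p ∉ S`, `p ∉ B \ {x, y}`
(`p ∉ S ∪ B` or `p = y`, `y ∉ S` because `B ∩ S = {x}`). So the edge is in `ebd G S (B \ {x, y})`.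
`weak_unique`: let `U` be the set of `sub_region` for `i + 1, j`, `S` a set for
`Wk (p.b i) (p.b (i + 1))`, `S'` one for `Wk (p.b (j + 1)) (p.b j)` (by `Wk.symm`), `Z`, `Z'` the sets
of `exists_Z` for `p.b i`, `p.b (j + 1)`, `W := (U \ (S ∩ Z)) \ (S' ∩ Z')`. Then
`B ∩ W = {p.b (i + 1), ..., p.b j}`, so `M ≤ G.d W` (`hB`, with `p.b (i + 1) ∈ W`, `p.b i ∉ W`). Let `e`
be an edge from `x ∈ W` to `y ∉ W`. If `y ∉ U` and `y ≠ p.b i`, `y ≠ p.b (j + 1)`, then `e` is in
`ebd G U {p.b i, p.b (j + 1)}`. Otherwise `y ∈ S ∩ Z` or `y ∈ S' ∩ Z'` (note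
`p.b i ∈ S ∩ Z`, `p.b (j + 1) ∈ S' ∩ Z'`). Let `y ∈ S ∩ Z`, so `x ∉ S ∩ Z`. If `x ∉ Z` and
`x ∉ FN G B t (p.b i)`, then `e` is in `ebd G Z (FN G B t (p.b i))`. If `x ∉ Z` and
`x ∈ FN G B t (p.b i) = {p.b (i - 1), p.b (i + 1)}`, then `x = p.b (i + 1)` (as `x ∈ B ∩ W`, `p.inj`,
`p.left`), `x ∉ S`, and `e` is in `ebd G S (B \ {p.b i, p.b (i + 1)})`. If `x ∈ Z`, then `x ∉ S` and
`x ∉ B` (`B ∩ Z = {p.b i}`, `p.b i ∉ W`), again `e` is in `ebd G S (B \ {p.b i, p.b (i + 1)})`. The case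
`y ∈ S' ∩ Z'` is symmetric. So `G.d W ≤ ck t + 2 * cm1 t + 2 * Θ < M`. -/

set_option autoImplicit false

namespace Pool.Agent.W2411si

open Pool.Agent.W2411c4

variable {Q : Type}

open Gr

/-- `x` and `y` are separated by few edges in `G` minus the other vertices of `B` -/
def Wk (G : Gr Q) (B : Finset ℕ) (Θ x y : ℕ) : Prop :=
  ∃ S : Finset ℕ, B ∩ S = {x} ∧ ed G S (B \ {x, y}) < Θ

private theorem weak_vs {G : Gr Q} {e v : ℕ} (he : e ∈ G.E) (h : G.Inc e v) : v ∈ vs G := by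
  unfold vs
  rcases h with h | h
  · rw [h]
    exact Finset.mem_union_left _ (Finset.mem_image_of_mem _ he)
  · rw [h]
    exact Finset.mem_union_right _ (Finset.mem_image_of_mem _ he)

theorem Wk.symm {G : Gr Q} {B : Finset ℕ} {Θ x y : ℕ} (hx : x ∈ B) (hy : y ∈ B) (hxy : x ≠ y)
    (h : Wk G B Θ x y) : Wk G B Θ y x := by
  classical
  obtain ⟨S, hS, hlt⟩ := h
  have hS' : ∀ v, v ∈ B → v ∈ S → v = x := by
    intro v h1 h2
    have h3 : v ∈ B ∩ S := Finset.mem_inter.2 ⟨h1, h2⟩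
    rwa [hS, Finset.mem_singleton] at h3
  have hxS : x ∈ S := by
    have h3 : x ∈ B ∩ S := by
      rw [hS]
      exact Finset.mem_singleton_self x
    exact (Finset.mem_inter.1 h3).2
  refine ⟨insert y (vs G \ (S ∪ B)), ?_, ?_⟩
  · ext v
    rw [Finset.mem_inter, Finset.mem_insert, Finset.mem_sdiff, Finset.mem_union,
      Finset.mem_singleton]
    constructor
    · rintro ⟨h1, h2 | h2⟩
      · exact h2
      · exact absurd (Or.inr h1) h2.2
    · rintro rfl
      exact ⟨hy, Or.inl rfl⟩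
  · refine lt_of_le_of_lt (Finset.card_le_card ?_) hlt
    intro e he
    rw [mem_ebd, lv_iff] at he ⊢
    obtain ⟨heE, p, q, hp, hq, hqB, hep, heq⟩ := he
    rw [Finset.mem_insert, Finset.mem_sdiff, Finset.mem_union] at hp hq
    rw [Finset.mem_sdiff, Finset.mem_insert, Finset.mem_singleton] at hqB
    have hqv := weak_vs heE heq
    refine ⟨heE, q, p, ?_, ?_, ?_, heq, hep⟩
    · by_cases h1 : q ∈ B
      · have h2 : q = y ∨ q = x := by
          by_contra h3
          exact hqB ⟨h1, h3⟩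
        rcases h2 with h2 | h2
        · exact absurd (Or.inl h2) hq
        · rw [h2]
          exact hxS
      · by_contra h2
        exact hq (Or.inr ⟨hqv, fun h => h.elim h2 h1⟩)
    · intro h1
      rcases hp with h2 | h2
      · rw [h2] at h1
        exact hxy (hS' y hy h1).symm
      · exact h2.2 (Or.inl h1)
    · intro h1
      rw [Finset.mem_sdiff, Finset.mem_insert, Finset.mem_singleton] at h1
      rcases hp with h2 | h2
      · exact h1.2 (Or.inr h2)
      · exact h2.2 (Or.inr h1.1)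

/-- one end of the cut -/
private theorem weak_end {G : Gr Q} {B F Z S : Finset ℕ} {c c' x y : ℕ} {e : ℕ}
    (hZ : B ∩ Z = {c}) (hxc : x ≠ c) (hxF : x ∈ F → x = c') (hF : F ⊆ B)
    (hc'S : c' ∉ S) (hxSZ : ¬ (x ∈ S ∧ x ∈ Z)) (hy : y ∈ S ∧ y ∈ Z)
    (hex : G.Inc e x) (hey : G.Inc e y) : Lv G Z F e ∨ Lv G S (B \ {c, c'}) e := by
  classical
  by_cases hxZ : x ∈ Z
  · right
    rw [lv_iff]
    refine ⟨y, x, hy.1, fun h => hxSZ ⟨h, hxZ⟩, ?_, hey, hex⟩
    intro h
    have h1 : x ∈ B ∩ Z := Finset.mem_inter.2 ⟨(Finset.mem_sdiff.1 h).1, hxZ⟩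
    rw [hZ, Finset.mem_singleton] at h1
    exact hxc h1
  · by_cases hxF' : x ∈ F
    · right
      rw [lv_iff]
      have h1 := hxF hxF'
      refine ⟨y, x, hy.1, ?_, ?_, hey, hex⟩
      · rw [h1]
        exact hc'S
      · rw [h1]
        simp
    · left
      rw [lv_iff]
      exact ⟨y, x, hy.2, hxZ, hxF', hey, hex⟩

theorem weak_unique {G : Gr Q} {B A : Finset ℕ} {t M Θ : ℕ} (hSF : SF G B t) (ht : 1 ≤ t)
    (hB : Bk G B M) (hM : cM0 t ≤ M) (hM' : cm0 t + cm0 t * cm1 t < M)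
    (hM'' : ck t + 2 * cm1 t + 2 * Θ < M) (hAB : A ⊆ B)
    (p : Pth B A (FN G B t)) {i j : ℕ} (hi : 1 ≤ i) (hij : i < j) (hj : j < p.n)
    (hwi : Wk G B Θ (p.b i) (p.b (i + 1))) (hwj : Wk G B Θ (p.b j) (p.b (j + 1))) : False := by
  classical
  have hmem : ∀ k, 1 ≤ k → k ≤ p.n → p.b k ∈ B := fun k h1 h2 =>
    (Finset.mem_sdiff.1 (p.mem k h1 h2)).1
  have hne : ∀ k l, 1 ≤ k → k ≤ p.n → 1 ≤ l → l ≤ p.n → k ≠ l → p.b k ≠ p.b l :=
    fun k l h1 h2 h3 h4 h5 h6 => h5 (p.inj k l h1 h2 h3 h4 h6)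
  obtain ⟨U, hU, hUk⟩ := sub_region hSF ht hB hM hM' hAB p (i := i + 1) (j := j)
    (by omega) (by omega) (by omega)
  rw [show i + 1 - 1 = i by omega] at hUk
  have hUm : ∀ k, i + 1 ≤ k → k ≤ j → p.b k ∈ U := by
    intro k h1 h2
    have h3 : p.b k ∈ B ∩ U := by
      rw [hU, Finset.mem_image]
      exact ⟨k, Finset.mem_Icc.2 ⟨h1, h2⟩, rfl⟩
    exact (Finset.mem_inter.1 h3).2
  have hUB : ∀ v, v ∈ B → v ∈ U → ∃ k, i + 1 ≤ k ∧ k ≤ j ∧ p.b k = v := by
    intro v h1 h2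
    have h3 : v ∈ B ∩ U := Finset.mem_inter.2 ⟨h1, h2⟩
    rw [hU, Finset.mem_image] at h3
    obtain ⟨k, hk, hk'⟩ := h3
    rw [Finset.mem_Icc] at hk
    exact ⟨k, hk.1, hk.2, hk'⟩
  have hwj' := hwj.symm (hmem j (by omega) (by omega)) (hmem (j + 1) (by omega) (by omega))
    (hne _ _ (by omega) (by omega) (by omega) (by omega) (by omega))
  obtain ⟨S, hS, hSlt⟩ := hwi
  obtain ⟨S', hS', hSlt'⟩ := hwj'
  obtain ⟨_, Z, hZ1, hZ2, hZ3⟩ := exists_Z hSF ht hB hM (hmem i hi (by omega))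
  obtain ⟨_, Z', hZ1', hZ2', hZ3'⟩ := exists_Z hSF ht hB hM (hmem (j + 1) (by omega) (by omega))
  have hcS : p.b i ∈ S := by
    have h3 : p.b i ∈ B ∩ S := by
      rw [hS]
      exact Finset.mem_singleton_self _
    exact (Finset.mem_inter.1 h3).2
  have hcS' : p.b (j + 1) ∈ S' := by
    have h3 : p.b (j + 1) ∈ B ∩ S' := by
      rw [hS']
      exact Finset.mem_singleton_self _
    exact (Finset.mem_inter.1 h3).2
  have hSB : ∀ v, v ∈ B → v ∈ S → v = p.b i := by
    intro v h1 h2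
    have h3 : v ∈ B ∩ S := Finset.mem_inter.2 ⟨h1, h2⟩
    rwa [hS, Finset.mem_singleton] at h3
  have hSB' : ∀ v, v ∈ B → v ∈ S' → v = p.b (j + 1) := by
    intro v h1 h2
    have h3 : v ∈ B ∩ S' := Finset.mem_inter.2 ⟨h1, h2⟩
    rwa [hS', Finset.mem_singleton] at h3
  -- the small set
  have memW : ∀ v, v ∈ (U \ (S ∩ Z)) \ (S' ∩ Z') ↔ v ∈ U ∧ ¬ (v ∈ S ∧ v ∈ Z) ∧
      ¬ (v ∈ S' ∧ v ∈ Z') := by
    intro v
    rw [Finset.mem_sdiff, Finset.mem_sdiff, Finset.mem_inter, Finset.mem_inter, and_assoc]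
  have hb1 : p.b (i + 1) ∈ (U \ (S ∩ Z)) \ (S' ∩ Z') := by
    rw [memW]
    refine ⟨hUm _ le_rfl (by omega), fun h => ?_, fun h => ?_⟩
    · exact hne _ _ (by omega) (by omega) (by omega) (by omega) (by omega)
        (hSB _ (hmem _ (by omega) (by omega)) h.1)
    · exact hne _ _ (by omega) (by omega) (by omega) (by omega) (by omega)
        (hSB' _ (hmem _ (by omega) (by omega)) h.1)
  have hb0 : p.b i ∉ (U \ (S ∩ Z)) \ (S' ∩ Z') := by
    rw [memW]
    exact fun h => h.2.1 ⟨hcS, hZ1⟩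
  have hd := hB _ (hmem (i + 1) (by omega) (by omega)) _ (hmem i (by omega) (by omega))
    (hne _ _ (by omega) (by omega) (by omega) (by omega) (by omega)) _ hb1 hb0
  -- the five cuts
  have hsub : ebd G ((U \ (S ∩ Z)) \ (S' ∩ Z')) ∅ ⊆
      ebd G U {p.b i, p.b (j + 1)} ∪ ((ebd G Z (FN G B t (p.b i)) ∪
        ebd G S (B \ {p.b i, p.b (i + 1)})) ∪ (ebd G Z' (FN G B t (p.b (j + 1))) ∪
        ebd G S' (B \ {p.b (j + 1), p.b j}))) := by
    intro e he
    rw [mem_ebd, lv_iff] at he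
    obtain ⟨heE, x, y, hx, hy, _, hex, hey⟩ := he
    rw [memW] at hx hy
    simp only [Finset.mem_union, mem_ebd, heE, true_and]
    have hxi : x ≠ p.b i := by
      intro h
      rw [h] at hx
      exact hx.2.1 ⟨hcS, hZ1⟩
    have hxj : x ≠ p.b (j + 1) := by
      intro h
      rw [h] at hx
      exact hx.2.2 ⟨hcS', hZ1'⟩
    by_cases hA : y ∈ S ∧ y ∈ Z
    · right; left
      refine weak_end hZ2 hxi ?_ FN_sub ?_ hx.2.1 hA hex hey
      · intro hxF
        have hxB : x ∈ B := FN_sub hxF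
        obtain ⟨k, hk1, hk2, hk3⟩ := hUB x hxB hx.1
        rw [p.nb i hi (by omega), Finset.mem_insert, Finset.mem_singleton] at hxF
        rcases hxF with h | h
        · exfalso
          by_cases h0 : i - 1 = 0
          · rw [h0] at h
            have h1 := p.mem k (by omega) (by omega)
            rw [hk3, h] at h1
            exact (Finset.mem_sdiff.1 h1).2 p.left
          · exact hne k (i - 1) (by omega) (by omega) (by omega) (by omega) (by omega)
              (hk3.trans h)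
        · exact h
      · intro h
        exact hne _ _ (by omega) (by omega) (by omega) (by omega) (by omega)
          (hSB _ (hmem (i + 1) (by omega) (by omega)) h)
    · by_cases hA' : y ∈ S' ∧ y ∈ Z'
      · right; right
        refine weak_end hZ2' hxj ?_ FN_sub ?_ hx.2.2 hA' hex hey
        · intro hxF
          have hxB : x ∈ B := FN_sub hxF
          obtain ⟨k, hk1, hk2, hk3⟩ := hUB x hxB hx.1
          rw [p.nb (j + 1) (by omega) (by omega), Finset.mem_insert, Finset.mem_singleton] at hxF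
          rcases hxF with h | h
          · rw [show j + 1 - 1 = j by omega] at h
            exact h
          · exfalso
            by_cases h0 : j + 1 = p.n
            · rw [h0] at h
              have h1 := p.mem k (by omega) (by omega)
              rw [hk3, h] at h1
              exact (Finset.mem_sdiff.1 h1).2 p.right
            · exact hne k (j + 1 + 1) (by omega) (by omega) (by omega) (by omega) (by omega)
                (hk3.trans h)
        · intro h
          exact hne _ _ (by omega) (by omega) (by omega) (by omega) (by omega)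
            (hSB' _ (hmem j (by omega) (by omega)) h)
      · left
        rw [lv_iff]
        refine ⟨x, y, hx.1, fun h => hy ⟨h, hA, hA'⟩, ?_, hex, hey⟩
        rw [Finset.mem_insert, Finset.mem_singleton]
        rintro (h | h)
        · rw [h] at hA
          exact hA ⟨hcS, hZ1⟩
        · rw [h] at hA'
          exact hA' ⟨hcS', hZ1'⟩
  have hcard := Finset.card_le_card hsub
  have h1 := Finset.card_union_le (ebd G U {p.b i, p.b (j + 1)})
    ((ebd G Z (FN G B t (p.b i)) ∪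
        ebd G S (B \ {p.b i, p.b (i + 1)})) ∪ (ebd G Z' (FN G B t (p.b (j + 1))) ∪
        ebd G S' (B \ {p.b (j + 1), p.b j})))
  have h2 := Finset.card_union_le (ebd G Z (FN G B t (p.b i)) ∪
        ebd G S (B \ {p.b i, p.b (i + 1)})) (ebd G Z' (FN G B t (p.b (j + 1))) ∪
        ebd G S' (B \ {p.b (j + 1), p.b j}))
  have h3 := Finset.card_union_le (ebd G Z (FN G B t (p.b i)))
    (ebd G S (B \ {p.b i, p.b (i + 1)}))
  have h4 := Finset.card_union_le (ebd G Z' (FN G B t (p.b (j + 1))))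
    (ebd G S' (B \ {p.b (j + 1), p.b j}))
  rw [← ed_empty] at hd
  unfold ed at hd hUk hSlt hSlt' hZ3 hZ3'
  omega

end Pool.Agent.W2411si
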