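import Mathlib

/-! Words with labels in `ℕ` between the letters, gap embedding, well-quasi-order. -/

set_option autoImplicit false

open Set Set.PartiallyWellOrderedOn

namespace Pool.Agent.W2411si

/-- minimal bad sequence argument -/
theorem nw {α : Type*} {R : α → α → Prop} [IsPreorder α R] (sz : α → ℕ) (S : Set α)
    (h : ∀ D : Set α, D.PartiallyWellOrderedOn R → ∀ f : ℕ → α, (∀ i, f i ∈ S) →
      (∀ i, ∀ q ∈ S, R q (f i) → sz q < sz (f i) → q ∈ D) → ∃ i j, i < j ∧ R (f i) (f j)) :
    S.PartiallyWellOrderedOn R := by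
  rw [iff_not_exists_isMinBadSeq sz]
  rintro ⟨f, ⟨hf, hbad⟩, hmin⟩
  let D : Set α := {q | q ∈ S ∧ ∃ i, R q (f i) ∧ sz q < sz (f i)}
  have hD : D.PartiallyWellOrderedOn R := by
    rw [partiallyWellOrderedOn_iff_exists_lt]
    intro g hg
    by_contra hcon
    push Not at hcon
    choose ix hix using fun n => (hg n).2
    obtain ⟨n0, hn0⟩ : ∃ n0, ∀ n, ix n0 ≤ ix n := by
      have hne : ∃ v, ∃ n, ix n = v := ⟨_, 0, rfl⟩
      classical
      obtain ⟨n0, h0⟩ := Nat.find_spec hne
      exact ⟨n0, fun n => h0 ▸ Nat.find_min' hne ⟨n, rfl⟩⟩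
    refine hmin (ix n0) (fun m => if m < ix n0 then f m else g (n0 + (m - ix n0))) ?_ ?_ ⟨?_, ?_⟩
    · intro m hm
      simp only [if_pos hm]
    · simp only [lt_irrefl, if_false, Nat.sub_self, Nat.add_zero]
      exact (hix n0).2
    · intro m
      by_cases hm : m < ix n0
      · simp only [if_pos hm]
        exact hf m
      · simp only [if_neg hm]
        exact (hg _).1
    · intro m m' hmm
      by_cases hm' : m' < ix n0
      · have hm : m < ix n0 := hmm.trans hm'
        simp only [if_pos hm, if_pos hm']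
        exact hbad m m' hmm
      · by_cases hm : m < ix n0
        · simp only [if_pos hm, if_neg hm']
          intro hr
          have h1 := (hix (n0 + (m' - ix n0))).1
          have h2 := hn0 (n0 + (m' - ix n0))
          exact hbad m _ (hm.trans_le h2) (_root_.trans hr h1)
        · simp only [if_neg hm, if_neg hm']
          exact hcon _ _ (by omega)
  obtain ⟨i, j, hij, hr⟩ := h D hD f hf (fun i q hq hqR hqs => ⟨hq, i, hqR, hqs⟩)
  exact hbad i j hij hr

/-- a word with letters `z 0, ..., z n` and the label `c i` between `z i` and `z (i + 1)` -/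
structure Wd (α : Type*) where
  n : ℕ
  z : ℕ → α
  c : ℕ → ℕ

variable {α : Type*}

/-- gap embedding; `bl`: the first letter goes to the first letter, `br`: the last to the last -/
def Emb (R : α → α → Prop) (bl br : Prop) (w w' : Wd α) : Prop :=
  ∃ φ : ℕ → ℕ, (∀ i < w.n, φ i < φ (i + 1)) ∧ φ w.n ≤ w'.n ∧ (bl → φ 0 = 0) ∧ (br → φ w.n = w'.n) ∧
    (∀ i ≤ w.n, R (w.z i) (w'.z (φ i))) ∧
    ∀ i < w.n, ∀ l, φ i ≤ l → l < φ (i + 1) → w.c i ≤ w'.c l

theorem Emb.mono {R : α → α → Prop} {bl br bl' br' : Prop} (h1 : bl' → bl) (h2 : br' → br)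
    {w w' : Wd α} (h : Emb R bl br w w') : Emb R bl' br' w w' := by
  obtain ⟨φ, a, b, c, d, e, f⟩ := h
  exact ⟨φ, a, b, fun h => c (h1 h), fun h => d (h2 h), e, f⟩

theorem phi_mono {n : ℕ} {φ : ℕ → ℕ} (h : ∀ i < n, φ i < φ (i + 1)) {i j : ℕ} (hij : i ≤ j)
    (hj : j ≤ n) : φ i + (j - i) ≤ φ j := by
  induction hij with
  | refl => simp
  | @step k hk ih =>
    have h1 := ih (by omega)
    have h2 := h k (by omega)
    have hk' : i ≤ k := hk
    show φ i + (k + 1 - i) ≤ φ (k + 1)
    omega

theorem phi_find {n : ℕ} {φ : ℕ → ℕ} {i j l : ℕ} (hij : i ≤ j)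
    (hl : φ i ≤ l) (hl' : l < φ j) (hj : j ≤ n) : ∃ k, i ≤ k ∧ k < j ∧ φ k ≤ l ∧ l < φ (k + 1) := by
  induction hij with
  | refl => omega
  | @step k hk ih =>
    by_cases h1 : l < φ k
    · obtain ⟨k', a, b, c, d⟩ := ih h1 (by omega)
      exact ⟨k', a, by omega, c, d⟩
    · exact ⟨k, hk, by omega, by omega, hl'⟩

instance emb_preorder (R : α → α → Prop) [IsPreorder α R] (bl br : Prop) :
    IsPreorder (Wd α) (Emb R bl br) where
  refl w := ⟨id, fun i _ => Nat.lt_succ_self i, le_rfl, fun _ => rfl, fun _ => rfl,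
    fun i _ => refl_of R _, fun i _ l h1 h2 => by
      have : l = i := by simp only [id] at h1 h2; omega
      rw [this]⟩
  trans w1 w2 w3 := by
    rintro ⟨φ, a, b, c, d, e, f⟩ ⟨ψ, a', b', c', d', e', f'⟩
    have hφn : ∀ i ≤ w1.n, φ i ≤ w2.n := fun i hi => by
      have := phi_mono a hi le_rfl
      omega
    refine ⟨fun i => ψ (φ i), ?_, ?_, ?_, ?_, ?_, ?_⟩
    · intro i hi
      have h1 := a i hi
      have h2 := phi_mono a' h1.le (hφn (i + 1) hi)
      show ψ (φ i) < ψ (φ (i + 1))
      omega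
    · have h2 := phi_mono a' b le_rfl
      show ψ (φ w1.n) ≤ w3.n
      omega
    · intro h
      show ψ (φ 0) = 0
      rw [c h, c' h]
    · intro h
      show ψ (φ w1.n) = w3.n
      rw [d h, d' h]
    · intro i hi
      exact _root_.trans (e i hi) (e' _ (hφn i hi))
    · intro i hi l h1 h2
      obtain ⟨k, k1, k2, k3, k4⟩ := phi_find (a i hi).le h1 h2 (hφn (i + 1) hi)
      have h3 := hφn (i + 1) hi
      exact (f i hi k k1 k2).trans (f' k (by omega) l k3 k4)

/-- initial part with the last letter `p` -/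
def pre (w : Wd α) (p : ℕ) : Wd α := ⟨p, w.z, w.c⟩

/-- suffix with the first letter `p` -/
def suf (w : Wd α) (p : ℕ) : Wd α := ⟨w.n - p, fun i => w.z (p + i), fun i => w.c (p + i)⟩

theorem pre_emb (R : α → α → Prop) [IsPreorder α R] (w : Wd α) {p : ℕ} (hp : p ≤ w.n) :
    Emb R True False (pre w p) w :=
  ⟨id, fun i _ => Nat.lt_succ_self i, hp, fun _ => rfl, fun h => h.elim,
    fun i _ => refl_of R _, fun i _ l h1 h2 => by
      have : l = i := by simp only [id] at h1 h2; omega
      rw [this]; exact le_rfl⟩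

theorem suf_emb (R : α → α → Prop) [IsPreorder α R] (w : Wd α) {p : ℕ} (hp : p ≤ w.n) :
    Emb R False True (suf w p) w :=
  ⟨fun i => p + i, fun i _ => by show p + i < p + (i + 1); omega, by show p + (w.n - p) ≤ w.n; omega, fun h => h.elim,
    fun _ => by show p + (w.n - p) = w.n; omega,
    fun i _ => refl_of R _, fun i _ l h1 h2 => by
      have : l = p + i := by simp only at h1 h2; omega
      rw [this]; exact le_rfl⟩

theorem cat_emb {R : α → α → Prop} {bl br : Prop} {w w' : Wd α} {p p' : ℕ} (hp : p < w.n)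
    (hp' : p' < w'.n) (h1 : Emb R bl False (pre w p) (pre w' p'))
    (h2 : Emb R False br (suf w (p + 1)) (suf w' (p' + 1)))
    (h3 : ∀ l < w'.n, w.c p ≤ w'.c l) : Emb R bl br w w' := by
  obtain ⟨φ, a, b, c, d, e, f⟩ := h1
  obtain ⟨ψ, a', b', c', d', e', f'⟩ := h2
  simp only [pre, suf] at a b c d e f a' b' c' d' e' f'
  have hφ : ∀ i ≤ p, φ i ≤ p' := fun i hi => by
    have := phi_mono a hi le_rfl
    omega
  refine ⟨fun i => if i ≤ p then φ i else p' + 1 + ψ (i - (p + 1)), ?_, ?_, ?_, ?_, ?_, ?_⟩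
  · intro i hi
    by_cases h1 : i + 1 ≤ p
    · simp only [if_pos h1, if_pos (show i ≤ p by omega)]
      exact a i (by omega)
    · by_cases h2 : i ≤ p
      · simp only [if_pos h2, if_neg h1]
        have := hφ i h2
        omega
      · simp only [if_neg h2, if_neg h1]
        have h4 := a' (i - (p + 1)) (by omega)
        have h5 : i + 1 - (p + 1) = i - (p + 1) + 1 := by omega
        rw [h5]
        omega
  · simp only [if_neg (show ¬ w.n ≤ p by omega)]
    omega
  · intro h
    simp only [if_pos (Nat.zero_le p)]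
    exact c h
  · intro h
    simp only [if_neg (show ¬ w.n ≤ p by omega)]
    have := d' h
    omega
  · intro i hi
    by_cases h1 : i ≤ p
    · simp only [if_pos h1]
      exact e i h1
    · simp only [if_neg h1]
      have h4 := e' (i - (p + 1)) (by omega)
      have h5 : p + 1 + (i - (p + 1)) = i := by omega
      rw [h5] at h4
      exact h4
  · intro i hi l hl1 hl2
    by_cases h1 : i + 1 ≤ p
    · simp only [if_pos h1, if_pos (show i ≤ p by omega)] at hl1 hl2
      exact f i (by omega) l hl1 hl2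
    · by_cases h2 : i ≤ p
      · have h6 : i = p := by omega
        subst h6
        simp only [if_neg h1] at hl2
        rw [Nat.sub_self] at hl2
        have h7 : ψ 0 ≤ w'.n - (p' + 1) := by
          have := phi_mono a' (Nat.zero_le _) le_rfl
          omega
        exact h3 l (by omega)
      · simp only [if_neg h2, if_neg h1] at hl1 hl2
        have h5 : i + 1 - (p + 1) = i - (p + 1) + 1 := by omega
        rw [h5] at hl2
        have h4 := f' (i - (p + 1)) (by omega) (l - (p' + 1)) (by omega) (by omega)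
        have h6 : p + 1 + (i - (p + 1)) = i := by omega
        have h7 : p' + 1 + (l - (p' + 1)) = l := by omega
        rw [h6, h7] at h4
        exact h4

/-- a position with the least label -/
theorem exists_argmin (w : Wd α) (hw : 0 < w.n) : ∃ p < w.n, ∀ l < w.n, w.c p ≤ w.c l := by
  classical
  obtain ⟨p, hp, h⟩ := Finset.exists_min_image (Finset.range w.n) w.c ⟨0, Finset.mem_range.2 hw⟩
  exact ⟨p, Finset.mem_range.1 hp, fun l hl => h l (Finset.mem_range.2 hl)⟩

/-- words with letters in `A` -/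
def WS (A : Set α) : Set (Wd α) := {w | ∀ i ≤ w.n, w.z i ∈ A}

theorem pre_mem {A : Set α} {w : Wd α} (hw : w ∈ WS A) {p : ℕ} (hp : p ≤ w.n) : pre w p ∈ WS A :=
  fun i hi => hw i (le_trans (show i ≤ p from hi) hp)

theorem suf_mem {A : Set α} {w : Wd α} (hw : w ∈ WS A) {p : ℕ} (hp : p ≤ w.n) : suf w p ∈ WS A :=
  fun i hi => hw (p + i) (by have : i ≤ w.n - p := hi; omega)

/-- the common step: words split at a position with the least label -/
theorem step_emb {R : α → α → Prop} [IsPreorder α R] {A : Set α}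
    (hA : A.PartiallyWellOrderedOn R) {bl br : Prop} {D1 D2 : Set (Wd α)}
    (hD1 : D1.PartiallyWellOrderedOn (Emb R bl False))
    (hD2 : D2.PartiallyWellOrderedOn (Emb R False br)) (f : ℕ → Wd α) (hf : ∀ i, f i ∈ WS A)
    (h1 : ∀ i, ∀ p, p < (f i).n → pre (f i) p ∈ D1)
    (h2 : ∀ i, ∀ p, p < (f i).n → suf (f i) (p + 1) ∈ D2) :
    ∃ i j, i < j ∧ Emb R bl br (f i) (f j) := by
  classical
  by_cases hinf : ∃ g : ℕ ↪o ℕ, ∀ i, (f (g i)).n = 0
  · obtain ⟨g, hg⟩ := hinf
    obtain ⟨i, j, hij, hr⟩ := hA.exists_lt (f := fun i => (f (g i)).z 0)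
      (fun i => hf _ 0 (Nat.zero_le _))
    refine ⟨g i, g j, g.strictMono hij, fun _ => 0, ?_, Nat.zero_le _, fun _ => rfl, ?_, ?_, ?_⟩
    · intro k hk
      rw [hg] at hk
      omega
    · intro _
      exact (hg j).symm
    · intro k hk
      rw [hg] at hk
      have : k = 0 := by omega
      rw [this]
      exact hr
    · intro k hk
      rw [hg] at hk
      omega
  · obtain ⟨N, hN⟩ : ∃ N, ∀ i, N ≤ i → 0 < (f i).n := by
      by_contra hcon
      push Not at hcon
      apply hinf
      have h3 : ∀ N, ∃ i, N < i ∧ (f i).n = 0 := by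
        intro N
        obtain ⟨i, hi1, hi2⟩ := hcon (N + 1)
        exact ⟨i, hi1, by omega⟩
      obtain ⟨φ, hφ, hφ'⟩ := Nat.exists_strictMono_subsequence h3
      exact ⟨OrderEmbedding.ofStrictMono φ hφ, hφ'⟩
    have h4 : ∀ i, ∃ p, p < (f (N + i)).n ∧ ∀ l < (f (N + i)).n, (f (N + i)).c p ≤ (f (N + i)).c l :=
      fun i => by
        obtain ⟨p, hp, h⟩ := exists_argmin (f (N + i)) (hN _ (by omega))
        exact ⟨p, hp, h⟩
    choose p hp hmin using h4
    obtain ⟨g1, hg1⟩ := hD1.exists_monotone_subseq (f := fun i => pre (f (N + i)) (p i))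
      (fun i => h1 _ _ (hp i))
    obtain ⟨g2, hg2⟩ := hD2.exists_monotone_subseq
      (f := fun i => suf (f (N + g1 i)) (p (g1 i) + 1)) (fun i => h2 _ _ (hp _))
    obtain ⟨i, j, hij, hle⟩ := (wellQuasiOrdered_le (α := ℕ))
      (fun i => (f (N + g1 (g2 i))).c (p (g1 (g2 i))))
    refine ⟨N + g1 (g2 i), N + g1 (g2 j), ?_, ?_⟩
    · have := g1.strictMono (g2.strictMono hij)
      omega
    · apply cat_emb (hp _) (hp _) (hg1 _ _ (g2.monotone hij.le)) (hg2 _ _ hij.le)
      intro l hl
      exact le_trans hle (hmin _ l hl)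

theorem words00 {R : α → α → Prop} [IsPreorder α R] {A : Set α}
    (hA : A.PartiallyWellOrderedOn R) : (WS A).PartiallyWellOrderedOn (Emb R False False) := by
  apply nw (fun w => w.n)
  intro D hD f hf hmin
  apply step_emb hA hD hD f hf
  · intro i p hp
    exact hmin i _ (pre_mem (hf i) hp.le) ((pre_emb R _ hp.le).mono (fun h => h.elim) id) hp
  · intro i p hp
    refine hmin i _ (suf_mem (hf i) hp) ((suf_emb R _ hp).mono id (fun h => h.elim)) ?_
    show (f i).n - (p + 1) < (f i).n
    omega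

theorem words01 {R : α → α → Prop} [IsPreorder α R] {A : Set α}
    (hA : A.PartiallyWellOrderedOn R) : (WS A).PartiallyWellOrderedOn (Emb R False True) := by
  apply nw (fun w => w.n)
  intro D hD f hf hmin
  apply step_emb hA (words00 hA) hD f hf
  · intro i p hp
    exact pre_mem (hf i) hp.le
  · intro i p hp
    refine hmin i _ (suf_mem (hf i) hp) (suf_emb R _ hp) ?_
    show (f i).n - (p + 1) < (f i).n
    omega

theorem words10 {R : α → α → Prop} [IsPreorder α R] {A : Set α}
    (hA : A.PartiallyWellOrderedOn R) : (WS A).PartiallyWellOrderedOn (Emb R True False) := by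
  apply nw (fun w => w.n)
  intro D hD f hf hmin
  apply step_emb hA hD (words00 hA) f hf
  · intro i p hp
    exact hmin i _ (pre_mem (hf i) hp.le) (pre_emb R _ hp.le) hp
  · intro i p hp
    exact suf_mem (hf i) hp

/-- **Words lemma**: words with letters in a partially well ordered set and labels in `ℕ` are
partially well ordered by gap embeddings which respect both ends. -/
theorem words11 {R : α → α → Prop} [IsPreorder α R] {A : Set α}
    (hA : A.PartiallyWellOrderedOn R) : (WS A).PartiallyWellOrderedOn (Emb R True True) := by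
  rw [partiallyWellOrderedOn_iff_exists_lt]
  intro f hf
  exact step_emb hA (words10 hA) (words01 hA) f hf (fun i p hp => pre_mem (hf i) hp.le)
    (fun i p hp => suf_mem (hf i) hp)

end Pool.Agent.W2411si
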