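import Pool.Agent.W_2411c4_h26.Fadj
import Pool.Agent.W_2411c4_h26.Fan

/-! Every `y ∈ B` has a small neighbourhood `Z` (section 3.1).

Proof. `fan` with `X := B.erase y`, `u := y` (`Bk.lam`) gives `T`, `U` with `B.erase y \ T ⊆ U`,
`y ∉ U`, `T.card + ed G U T < cm0 t`. `FN G B t y ⊆ T`: for `w ∈ FN`, `w ∉ T` we have `w ∈ U`, and
`Fa.cross` (for `w`, `y`; `y ∉ T`) gives `cm0 t ≤ ed G U T`, a contradiction. For `w ∈ T`,
`w ∉ FN G B t y`, the negation of `Fa G B t y w` gives `W w` with `y ∈ W w`, `w ∉ W w`,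
`Disjoint (W w) (B \ {y, w})`, `ed G (W w) (B \ {y, w}) < cm0 t`. Put `V0 := insert y (vs G)`,
`Z := (V0 \ (U ∪ T)).filter (fun v => ∀ w ∈ T \ FN G B t y, v ∈ W w)`. Let `e` be an edge from
`p ∈ Z` to `q ∉ Z`, `q ∉ FN G B t y`. If `q ∈ U`, then `e` is in `ebd G U T` (its other end `p` is not
in `U ∪ T`). If `q ∈ T`, then `e` is in `ebd G (W q) (B \ {y, q})`. Otherwise `q ∉ U ∪ T`, so `q ∉ B`
or `q = y`; `q = y` is in `Z`; and `q ∉ W w` for some `w`, `e` is in `ebd G (W w) (B \ {y, w})`.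
So `ed G Z (FN G B t y) ≤ ed G U T + T.card * cm0 t ≤ cm0 t + cm0 t * cm0 t` (`ebd_union`, or a
direct `Finset.card_le_card` argument). -/

set_option autoImplicit false

namespace Pool.Agent.W2411si

open Pool.Agent.W2411c4

variable {Q : Type}

open Gr

theorem exists_Z {G : Gr Q} {B : Finset ℕ} {t M : ℕ} (hSF : SF G B t) (ht : 1 ≤ t) (hB : Bk G B M)
    (hM : cM0 t ≤ M) {y : ℕ} (hy : y ∈ B) :
    (FN G B t y).card < cm0 t ∧
      ∃ Z : Finset ℕ, y ∈ Z ∧ B ∩ Z = {y} ∧ ed G Z (FN G B t y) ≤ cm1 t := by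
  classical
  obtain ⟨T, U, hTX, hXU, hUT, hyU, hlt⟩ := fan (X := B.erase y) (u := y) hSF ht
    (Finset.erase_subset _ _) hy (Finset.notMem_erase _ _) (fun x hx =>
      hB.lam (Finset.mem_of_mem_erase hx) hy (Finset.ne_of_mem_erase hx) hM)
  have hTB : T ⊆ B := hTX.trans (Finset.erase_subset _ _)
  have hyT : y ∉ T := fun h => Finset.notMem_erase y B (hTX h)
  have hBUT : ∀ v ∈ B, v ≠ y → v ∈ U ∨ v ∈ T := by
    intro v hv hvy
    by_cases hvT : v ∈ T
    · exact Or.inr hvT
    · exact Or.inl (hXU (Finset.mem_sdiff.2 ⟨Finset.mem_erase.2 ⟨hvy, hv⟩, hvT⟩))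
  have hFT : FN G B t y ⊆ T := by
    intro w hw
    have hF := mem_FN.1 hw
    rcases hBUT w hF.2.1 (fun h => hF.2.2.1 h.symm) with h1 | h1
    · have h2 := hF.symm.cross h1 hyU hTB hyT
      omega
    · exact h1
  have hFc : (FN G B t y).card ≤ T.card := Finset.card_le_card hFT
  refine ⟨by omega, ?_⟩
  have hW : ∀ w, ∃ W : Finset ℕ, w ∈ T \ FN G B t y → (y ∈ W ∧ w ∉ W ∧
      Disjoint W (B \ {y, w}) ∧ ed G W (B \ {y, w}) < cm0 t) := by
    intro w
    by_cases hw : w ∈ T \ FN G B t y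
    · rw [Finset.mem_sdiff] at hw
      have hwB : w ∈ B := hTB hw.1
      have hyw : y ≠ w := fun h => hyT (h ▸ hw.1)
      have hnF : ¬ Fa G B t y w := fun h => hw.2 (mem_FN.2 h)
      have hnL : ¬ Lam G (B \ {y, w}) {y} w (cm0 t) := fun h => hnF ⟨hy, hwB, hyw, h⟩
      unfold Lam at hnL
      push Not at hnL
      obtain ⟨W, h1, h2, h3, h4⟩ := hnL
      exact ⟨W, fun _ => ⟨h1 (Finset.mem_singleton_self _), h2, h3, h4⟩⟩
    · exact ⟨∅, fun h => absurd h hw⟩
  choose W hW using hW
  refine ⟨((insert y (vs G)) \ (U ∪ T)).filter (fun v => ∀ w ∈ T \ FN G B t y, v ∈ W w),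
    ?_, ?_, ?_⟩
  · rw [Finset.mem_filter, Finset.mem_sdiff, Finset.mem_union]
    exact ⟨⟨Finset.mem_insert_self _ _, fun h => h.elim hyU hyT⟩, fun w hw => (hW w hw).1⟩
  · ext v
    rw [Finset.mem_inter, Finset.mem_filter, Finset.mem_sdiff, Finset.mem_union,
      Finset.mem_singleton]
    constructor
    · rintro ⟨h1, ⟨_, h2⟩, _⟩
      by_contra h3
      exact h2 (hBUT v h1 h3)
    · rintro rfl
      exact ⟨hy, ⟨Finset.mem_insert_self _ _, fun h => h.elim hyU hyT⟩,
        fun w hw => (hW w hw).1⟩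
  · have h1 : ed G (((insert y (vs G)) \ (U ∪ T)).filter
        (fun v => ∀ w ∈ T \ FN G B t y, v ∈ W w)) (FN G B t y) ≤
        ∑ i ∈ Finset.insertNone (T \ FN G B t y),
          ed G (Option.elim i U W) (Option.elim i T (fun w => B \ {y, w})) := by
      apply ebd_union
      intro e heE he
      rw [lv_iff] at he
      obtain ⟨p, q, hp, hq, hqF, hep, heq⟩ := he
      rw [Finset.mem_filter, Finset.mem_sdiff, Finset.mem_union] at hp hq
      obtain ⟨⟨_, hp1⟩, hp2⟩ := hp
      by_cases hqU : q ∈ U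
      · refine ⟨none, Finset.none_mem_insertNone, ?_⟩
        rw [lv_iff]
        exact ⟨q, p, hqU, fun h => hp1 (Or.inl h), fun h => hp1 (Or.inr h), heq, hep⟩
      · by_cases hqT : q ∈ T
        · have hqs : q ∈ T \ FN G B t y := Finset.mem_sdiff.2 ⟨hqT, hqF⟩
          refine ⟨some q, Finset.some_mem_insertNone.2 hqs, ?_⟩
          rw [lv_iff]
          refine ⟨p, q, hp2 q hqs, (hW q hqs).2.1, ?_, hep, heq⟩
          simp
        · have hqV : q ∈ insert y (vs G) := by
            refine Finset.mem_insert_of_mem ?_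
            unfold vs
            rcases heq with h | h
            · rw [h]
              exact Finset.mem_union_left _ (Finset.mem_image_of_mem _ heE)
            · rw [h]
              exact Finset.mem_union_right _ (Finset.mem_image_of_mem _ heE)
          have hex : ∃ w ∈ T \ FN G B t y, q ∉ W w := by
            by_contra hcon
            push Not at hcon
            exact hq ⟨⟨hqV, fun h => h.elim hqU hqT⟩, hcon⟩
          obtain ⟨w, hw, hqw⟩ := hex
          refine ⟨some w, Finset.some_mem_insertNone.2 hw, ?_⟩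
          rw [lv_iff]
          refine ⟨p, q, hp2 w hw, hqw, ?_, hep, heq⟩
          intro hqB
          have h2 := Finset.mem_sdiff.1 hqB
          have h3 : q ≠ y := fun h => h2.2 (by simp [h])
          exact (hBUT q h2.1 h3).elim hqU hqT
    refine h1.trans ?_
    rw [Finset.sum_insertNone]
    have h2 : ∑ i ∈ T \ FN G B t y,
        ed G (Option.elim (some i) U W) (Option.elim (some i) T (fun w => B \ {y, w})) ≤
        (T \ FN G B t y).card * cm0 t := by
      have h3 := Finset.sum_le_card_nsmul (T \ FN G B t y)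
        (fun i => ed G (Option.elim (some i) U W) (Option.elim (some i) T (fun w => B \ {y, w})))
        (cm0 t) (fun i hi => (hW i hi).2.2.2.le)
      rwa [smul_eq_mul] at h3
    have h4 : (T \ FN G B t y).card ≤ cm0 t := by
      have h5 := Finset.card_le_card (Finset.sdiff_subset (s := T) (t := FN G B t y))
      omega
    have h6 := Nat.mul_le_mul_right (cm0 t) h4
    have h7 : ed G (Option.elim (none : Option ℕ) U W)
        (Option.elim (none : Option ℕ) T (fun w => B \ {y, w})) = ed G U T := rfl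
    rw [h7]
    unfold cm1
    omega

end Pool.Agent.W2411si
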